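import Pool.Agent.K4H55.BI.Eng

/-!
Corrections.
-/

set_option autoImplicit false

namespace Pool.Agent.K4H55.BI

open Finset Filter Topology Pool.Agent.Y18.LP
open scoped symmDiff

section main

variable {O : Type} [CommRing O] [IsDomain O] {D : Ord O} {J : Type} [Fintype J] {n : J → O}
  {c : J → O → ℂ} {C : J → ℝ} {w : J → ℂ} {M : J → Submodule ℤ ℂ}

/-- the admissible elements -/
def AdB (n : O) (c : O → ℂ) (lam : Ideal (integralClosure ℤ ℂ)) : Set O :=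
  {q | Prime q ∧ ¬ q ∣ n ∧ ∀ x ∈ lam, (x : ℂ) ≠ c q}

lemma bt_zero {f : ℂ → ℂ} (hf : ∀ z, f z = 0) (T : Finset O) : bt D f T = 0 := by
  unfold bt
  exact Finset.sum_eq_zero fun x _ => by rw [hf, mul_zero]

theorem setup (hMG : ∀ i, MG D (n i) (c i) (C i) (w i) (M i))
    (h0 : ∀ i, bt D (fv D (c i)) ∅ ≠ 0) (lam : Ideal (integralClosure ℤ ℂ)) (hlam : lam.IsPrime)
    (hmem : (2 : integralClosure ℤ ℂ) ∈ lam) :
    ∃ (R : Subring ℂ) (_ : IsNoetherianRing R) (P : Ideal R) (al : J → O → R), P.IsMaximal ∧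
      (2 : R) ∈ P ∧ ∀ i, ∀ q ∈ AdB (n i) (c i) lam, (al i q : ℂ) = c i q ∧ al i q ∉ P := by
  classical
  have hW1 : (∏ i, Submodule.span ℤ (VV D (n i) (c i))).FG :=
    fg_prod univ _ fun i _ => VV_fg (hMG i)
  set W1 : Submodule ℤ ℂ := ∏ i, Submodule.span ℤ (VV D (n i) (c i)) with hW1d
  have hfin : Module.Finite ℤ W1 := Module.Finite.iff_fg.2 hW1
  have hne : ∀ i, ∃ z ∈ VV D (n i) (c i), z ≠ 0 := by
    intro i
    by_contra hcon
    push Not at hcon
    apply h0 i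
    unfold bt
    refine Finset.sum_eq_zero fun x _ => ?_
    have hm : md (∅ : Finset O) = 1 := by unfold md; simp
    rw [hcon _ ⟨x, md ∅, by rw [hm]; exact one_ne_zero, by rw [hm]; exact isCoprime_one_left, rfl⟩,
      mul_zero]
  choose z hz hz0 using hne
  have hw : ∏ i, z i ∈ W1 := prod_mem' univ _ _ fun i _ => Submodule.subset_span (hz i)
  have hw0 : ∏ i, z i ≠ 0 := Finset.prod_ne_zero_iff.2 fun i _ => hz0 i
  let R : Subring ℂ := Mult W1
  have hRfin : Module.Finite ℤ R := finite_Mult hw hw0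
  have hnoeth : IsNoetherianRing R := IsNoetherianRing.of_finite ℤ R
  have haR : ∀ i, ∀ q : O, Prime q → ¬ q ∣ n i → c i q ∈ R := by
    intro i q hq hqN
    refine prod_Mult univ _ (Finset.mem_univ i) ?_
    intro w hw
    induction hw using Submodule.span_induction with
    | mem x hx =>
      obtain ⟨x, m, hm, hmn, rfl⟩ := hx
      rw [(hMG i).hecke hq hqN (rs_CRS D hq.ne_zero) hm hmn]
      have hιq : D.ι q ≠ 0 := fun h => hq.ne_zero (D.inj (by rw [h, map_zero]))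
      have hιm : D.ι m ≠ 0 := fun h => hm (D.inj (by rw [h, map_zero]))
      refine Submodule.add_mem _ (Submodule.subset_span ⟨q * x, m, hm, hmn, ?_⟩)
        (Submodule.sum_mem _ fun b _ => Submodule.subset_span ⟨x + m * b, m * q,
          mul_ne_zero hm hq.ne_zero, hmn.mul_left (prime_coprime D hq hqN), ?_⟩)
      · congr 1
        rw [map_mul]
        ring
      · congr 1
        rw [map_add, map_mul, map_mul]
        field_simp
    | zero => rw [mul_zero]; exact Submodule.zero_mem _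
    | add x y _ _ h1 h2 => rw [mul_add]; exact Submodule.add_mem _ h1 h2
    | smul a x _ h => rw [mul_smul_comm]; exact Submodule.smul_mem _ _ h
  let P : Ideal R := lam.comap (incl hRfin)
  refine ⟨R, hnoeth, P, fun i q => if h : c i q ∈ R then ⟨c i q, h⟩ else 0,
    comap_maximal lam hRfin hlam Nat.prime_two (by exact_mod_cast hmem), ?_, ?_⟩
  · rw [Ideal.mem_comap, map_ofNat]
    exact hmem
  · rintro i q ⟨hq, hqn, hqA⟩
    have h3 := haR i q hq hqn
    refine ⟨?_, ?_⟩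
    · simp only [dif_pos h3]
    · simp only [dif_pos h3]
      intro h4
      rw [Ideal.mem_comap] at h4
      refine hqA _ h4 ?_
      rw [incl_coe]

lemma sp_one : sp (1 : O → ℤˣ) = ∅ := by
  classical
  have h : {p : O | (1 : O → ℤˣ) p ≠ 1}.Finite := by simp
  ext p
  rw [mem_sp h]
  simp

/-- **a small set of corrections** -/
theorem corr (hMG : ∀ i, MG D (n i) (c i) (C i) (w i) (M i))
    (h0 : ∀ i, bt D (fv D (c i)) ∅ ≠ 0) (lam : Ideal (integralClosure ℤ ℂ)) (hlam : lam.IsPrime)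
    (hmem : (2 : integralClosure ℤ ℂ) ∈ lam) :
    ∃ V : ℕ, ∀ A : Set O, (∀ i, AdS (n i) A) → (∀ i, ∀ q ∈ A, q ∈ AdB (n i) (c i) lam) →
      ∀ H : Subgroup (O → ℤˣ), Ok H A →
      ∃ K : Finset (O → ℤˣ), K.card ≤ 2 ^ V ∧ (∀ k ∈ K, k ∈ H) ∧
        ∀ e ∈ H, ∃ k ∈ K, ∀ i, bt D (fv D (c i)) (sp (e * k)) ≠ 0 := by
  classical
  obtain ⟨R, hR0, P, al, hP, hP2, hal⟩ := setup hMG h0 lam hlam hmem
  have hRe : ∀ z : ℂ, z ^ 2 = 1 → z ∈ R := fun z hz => by
    rcases mul_self_eq_one_iff.1 ((sq _).symm.trans hz) with h | h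
    · rw [h]; exact R.one_mem
    · rw [h]; exact R.neg_mem R.one_mem
  have hP1 : ∀ z : R, (z : ℂ) ^ 2 = 1 → 1 - z ∈ P := fun z hz => by
    rcases mul_self_eq_one_iff.1 ((sq _).symm.trans hz) with h | h
    · have : z = 1 := Subtype.ext h
      rw [this, sub_self]
      exact P.zero_mem
    · have : z = -1 := Subtype.ext h
      rw [this, sub_neg_eq_add, one_add_one_eq_two]
      exact hP2
  have hmem1 : ∀ i, bt D (fv D (c i)) ∅ ∈ Submodule.span R (VV D (n i) (c i)) := by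
    intro i
    have hfam : Fam (∅ : Finset O) := ⟨by simp, by simp, by simp⟩
    exact bt_mem hfam (by simp) 1 (by simp) sp_one
  have hx : ∏ i, bt D (fv D (c i)) ∅ ∈ ∏ i, Submodule.span R (VV D (n i) (c i)) :=
    prod_mem' univ _ _ fun i _ => hmem1 i
  obtain ⟨V, hV⟩ := krull hP.ne_top (fg_prod univ _ fun i _ => span_fg (VV_fg (hMG i))) hx
    (Finset.prod_ne_zero_iff.2 fun i _ => h0 i)
  refine ⟨V, fun A hA hAl H hH => ?_⟩
  have hg := Good.prod (Γ := H) (e := 2) hP.isPrime univ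
    (fun i => Submodule.span R (VV D (n i) (c i)))
    (fun i (e : H) => bt D (fv D (c i)) (sp (e : O → ℤˣ)))
    (fun i _ => good (hMG i) (al i) hP.isPrime hP2 hH (hA i) (fun q hq => hal i q (hAl i q hq)))
  obtain ⟨K, hK1, hK2⟩ := correction hRe hP hP1 hg (V := V) (by
    have : ∏ i, bt D (fv D (c i)) (sp ((1 : H) : O → ℤˣ)) = ∏ i, bt D (fv D (c i)) ∅ := by
      rw [Subgroup.coe_one, sp_one]
    rw [this]
    exact hV)
  refine ⟨(K.map (fun e : H => (e : O → ℤˣ))).toFinset, ?_, ?_, ?_⟩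
  · exact (List.toFinset_card_le _).trans (by rwa [List.length_map])
  · intro k hk
    rw [List.mem_toFinset, List.mem_map] at hk
    obtain ⟨e, _, rfl⟩ := hk
    exact e.2
  · intro e he
    obtain ⟨k, hk, h1⟩ := hK2 ⟨e, he⟩
    refine ⟨k, ?_, fun i => ?_⟩
    · rw [List.mem_toFinset, List.mem_map]
      exact ⟨k, hk, rfl⟩
    · exact Finset.prod_ne_zero_iff.1 h1 i (Finset.mem_univ i)

end main

section sets

variable {O : Type} [CommRing O]

open Classical in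
/-- the signs of a finite set -/
noncomputable def cT (T : Finset O) : O → ℤˣ := fun p => if p ∈ T then -1 else 1

lemma cT_ne {T : Finset O} (p : O) : cT T p ≠ 1 ↔ p ∈ T := by
  unfold cT
  by_cases h : p ∈ T
  · simp [h]
  · simp [h]

lemma cT_fin (T : Finset O) : {p | cT T p ≠ 1}.Finite := by
  have : {p | cT T p ≠ 1} = (T : Set O) := by
    ext p
    rw [Set.mem_ofPred_eq, cT_ne]
    rfl
  rw [this]
  exact T.finite_toSet

lemma sp_cT (T : Finset O) : sp (cT T) = T := by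
  ext p
  rw [mem_sp (cT_fin T), cT_ne]

lemma cT_mul [DecidableEq O] (T T' : Finset O) : cT T * cT T' = cT (T ∆ T') := by
  funext p
  rw [Pi.mul_apply]
  unfold cT
  by_cases h1 : p ∈ T <;> by_cases h2 : p ∈ T' <;> simp [h1, h2, Finset.mem_symmDiff]

lemma cT_empty : cT (∅ : Finset O) = 1 := by
  funext p
  unfold cT
  simp

/-- the class: `T ⊂ A` with `χ_T = 1` on `Y` -/
structure GT (A Y : Set O) (T : Finset O) : Prop where
  sub : ∀ p ∈ T, p ∈ A
  one : ∀ y ∈ Y, chi T y = 1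

lemma chi_symmDiff [DecidableEq O] {T T' : Finset O} {y : O} (h : ∀ p ∈ T, ¬ p ∣ y)
    (h' : ∀ p ∈ T', ¬ p ∣ y) : chi (T ∆ T') y = chi T y * chi T' y := by
  have hx : ∀ p ∈ T ∪ T', ¬ p ∣ y := fun p hp => by
    rcases Finset.mem_union.1 hp with hp | hp
    · exact h p hp
    · exact h' p hp
  have h1 := ev_mul hx (cT T) (cT T')
  rw [cT_mul, ev_eq (cT_fin _) (by rw [sp_cT]; exact symmDiff_le_sup), ev_eq (cT_fin _) (by
    rw [sp_cT]; exact Finset.subset_union_left), ev_eq (cT_fin _) (by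
    rw [sp_cT]; exact Finset.subset_union_right), sp_cT, sp_cT, sp_cT] at h1
  exact h1

lemma GT.empty (A Y : Set O) : GT A Y ∅ := ⟨by simp, fun y _ => by simp [chi]⟩

lemma GT.symm [DecidableEq O] {A Y : Set O} (hY : ∀ p ∈ A, ∀ y ∈ Y, ¬ p ∣ y) {T T' : Finset O}
    (h : GT A Y T) (h' : GT A Y T') : GT A Y (T ∆ T') := by
  refine ⟨fun p hp => ?_, fun y hy => ?_⟩
  · rcases Finset.mem_symmDiff.1 hp with ⟨hp, _⟩ | ⟨hp, _⟩
    · exact h.sub p hp
    · exact h'.sub p hp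
  · rw [chi_symmDiff (fun p hp => hY p (h.sub p hp) y hy) (fun p hp => hY p (h'.sub p hp) y hy),
      h.one y hy, h'.one y hy, one_mul]

/-- the group of the class -/
def HG (A Y : Set O) (hY : ∀ p ∈ A, ∀ y ∈ Y, ¬ p ∣ y) : Subgroup (O → ℤˣ) where
  carrier := {e | ∃ T, GT A Y T ∧ e = cT T}
  mul_mem' := by
    classical
    rintro _ _ ⟨T, hT, rfl⟩ ⟨T', hT', rfl⟩
    exact ⟨T ∆ T', hT.symm hY hT', cT_mul T T'⟩
  one_mem' := ⟨∅, GT.empty A Y, cT_empty.symm⟩
  inv_mem' := by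
    rintro _ ⟨T, hT, rfl⟩
    refine ⟨T, hT, ?_⟩
    funext p
    rw [Pi.inv_apply, Int.units_inv_eq_self]

lemma HG_ok (A Y : Set O) (hY : ∀ p ∈ A, ∀ y ∈ Y, ¬ p ∣ y) : Ok (HG A Y hY) A := by
  refine ⟨?_, ?_⟩
  · rintro _ ⟨T, _, rfl⟩
    exact cT_fin T
  · rintro _ ⟨T, hT, rfl⟩ p hp
    exact hT.sub p ((cT_ne p).1 hp)

end sets

variable {O : Type} [CommRing O] [IsDomain O] [DecidableEq O] {D : Ord O} {J : Type} [Fintype J]
  {n : J → O} {c : J → O → ℂ} {C : J → ℝ} {w : J → ℂ} {M : J → Submodule ℤ ℂ}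

theorem corr_sets (hMG : ∀ i, MG D (n i) (c i) (C i) (w i) (M i))
    (h0 : ∀ i, bt D (fv D (c i)) ∅ ≠ 0) (lam : Ideal (integralClosure ℤ ℂ)) (hlam : lam.IsPrime)
    (hmem : (2 : integralClosure ℤ ℂ) ∈ lam) :
    ∃ V : ℕ, ∀ A Y : Set O, (∀ i, AdS (n i) A) → (∀ i, ∀ q ∈ A, q ∈ AdB (n i) (c i) lam) →
      (∀ p ∈ A, ∀ y ∈ Y, ¬ p ∣ y) →
      ∃ K : Finset (Finset O), K.card ≤ 2 ^ V ∧ (∀ k ∈ K, GT A Y k) ∧
        ∀ T, GT A Y T → ∃ k ∈ K, ∀ i, bt D (fv D (c i)) (T ∆ k) ≠ 0 := by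
  obtain ⟨V, hV⟩ := corr hMG h0 lam hlam hmem
  refine ⟨V, fun A Y hA hAl hY => ?_⟩
  obtain ⟨K, hK1, hK2, hK3⟩ := hV A hA hAl (HG A Y hY) (HG_ok A Y hY)
  choose! t ht using hK2
  classical
  refine ⟨K.image t, Finset.card_image_le.trans hK1, ?_, ?_⟩
  · intro k hk
    obtain ⟨e, he, rfl⟩ := Finset.mem_image.1 hk
    exact (ht e he).1
  · intro T hT
    obtain ⟨e, he, h4⟩ := hK3 (cT T) ⟨T, hT, rfl⟩
    refine ⟨t e, Finset.mem_image_of_mem t he, fun i => ?_⟩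
    have h5 : e = cT (t e) := (ht e he).2
    have h7 := h4 i
    rw [h5, cT_mul, sp_cT] at h7
    exact h7

end Pool.Agent.K4H55.BI
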