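import Pool.Agent.K4H55.BI.Kl
import Pool.Agent.K4H55.BI.Corr

/-!
The main theorem for Bianchi newforms.
-/

set_option autoImplicit false

namespace Pool.Agent.K4H55.BI

open NumberField IsDedekindDomain Filter Topology
open scoped symmDiff

section main

variable {K : Type} [Field K] [NumberField K] [hP : IsPrincipalIdealRing (𝓞 K)]

/-- the admissible places -/
def Adm {J : Type} (n : J → 𝓞 K) (c : J → Ideal (𝓞 K) → ℂ) (lam : Ideal (integralClosure ℤ ℂ)) :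
    Set (HeightOneSpectrum (𝓞 K)) :=
  {v | (2 : 𝓞 K) ∉ v.asIdeal ∧ ∀ i, n i ∉ v.asIdeal ∧ ∀ x ∈ lam, (x : ℂ) ≠ c i v.asIdeal}

/-- the class -/
structure Cl (A : Set (HeightOneSpectrum (𝓞 K))) (Y : Set (𝓞 K))
    (T : Finset (HeightOneSpectrum (𝓞 K))) : Prop where
  adm : ∀ v ∈ T, v ∈ A
  unit : ∀ u, IsUnit u → chiT T u = 1
  one : ∀ y ∈ Y, chiT T y = 1

lemma Cl.cop {A : Set (HeightOneSpectrum (𝓞 K))} {Y : Set (𝓞 K)}
    {T : Finset (HeightOneSpectrum (𝓞 K))} (h : Cl A Y T) {v : HeightOneSpectrum (𝓞 K)}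
    (hv : v ∈ T) {y : 𝓞 K} (hy : y ∈ Y) : y ∉ v.asIdeal := by
  intro hm
  have h1 := h.one y hy
  unfold chiT at h1
  rw [Finset.prod_eq_zero hv (by unfold sym; rw [if_pos hm])] at h1
  exact zero_ne_one h1

lemma fam_of {A : Set (HeightOneSpectrum (𝓞 K))} (hA : ∀ v ∈ A, (2 : 𝓞 K) ∉ v.asIdeal)
    [DecidableEq (𝓞 K)] {T : Finset (HeightOneSpectrum (𝓞 K))} (hT : ∀ v ∈ T, v ∈ A) :
    Fam (T.image gen) := by
  refine ⟨?_, ?_, ?_⟩
  · intro p hp
    obtain ⟨v, hv, rfl⟩ := Finset.mem_image.1 hp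
    exact gen_prime v
  · intro p hp hd
    obtain ⟨v, hv, rfl⟩ := Finset.mem_image.1 hp
    exact hA v (hT v hv) (gen_dvd.1 hd)
  · intro p hp p' hp' hd
    obtain ⟨v, hv, rfl⟩ := Finset.mem_image.1 hp
    obtain ⟨v', hv', rfl⟩ := Finset.mem_image.1 hp'
    rw [gen_na hd]

/-- the generators of the places of `A` prime to `Y` -/
def GA (A : Set (HeightOneSpectrum (𝓞 K))) (Y : Set (𝓞 K)) : Set (𝓞 K) :=
  gen '' {v | v ∈ A ∧ ∀ y ∈ Y, y ∉ v.asIdeal}

/-- the values with the units -/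
def GY (Y : Set (𝓞 K)) : Set (𝓞 K) := {u | IsUnit u} ∪ Y

lemma gt_iff {A : Set (HeightOneSpectrum (𝓞 K))} {Y : Set (𝓞 K)} [DecidableEq (𝓞 K)]
    {T : Finset (HeightOneSpectrum (𝓞 K))} : GT (GA A Y) (GY Y) (T.image gen) ↔ Cl A Y T := by
  constructor
  · rintro ⟨h1, h2⟩
    refine ⟨fun v hv => ?_, fun u hu => ?_, fun y hy => ?_⟩
    · obtain ⟨v', hv', he⟩ := h1 _ (Finset.mem_image_of_mem gen hv)
      rw [← gen_inj he]
      exact hv'.1
    · rw [← chi_gen]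
      exact h2 u (Or.inl hu)
    · rw [← chi_gen]
      exact h2 y (Or.inr hy)
  · intro h
    refine ⟨fun p hp => ?_, fun y hy => ?_⟩
    · obtain ⟨v, hv, rfl⟩ := Finset.mem_image.1 hp
      exact ⟨v, ⟨h.adm v hv, fun y hy => h.cop hv hy⟩, rfl⟩
    · rw [chi_gen]
      rcases hy with hy | hy
      · exact h.unit y hy
      · exact h.one y hy

theorem main [DecidableEq (HeightOneSpectrum (𝓞 K))] {σ : K →+* ℂ} {δ : K} (h : IQ K σ δ)
    {J : Type} [Fintype J] (n : J → 𝓞 K)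
    (c : J → Ideal (𝓞 K) → ℂ) (hf : ∀ i, BF σ δ (n i) (c i)) (h0 : ∀ i, NVT (n i) (c i) ∅)
    (lam : Ideal (integralClosure ℤ ℂ)) (hlam : lam.IsPrime)
    (hmem : (2 : integralClosure ℤ ℂ) ∈ lam) :
    ∃ V : ℕ, ∀ Y : Set (𝓞 K), ∃ KK : Finset (Finset (HeightOneSpectrum (𝓞 K))), KK.card ≤ V ∧
      (∀ k ∈ KK, Cl (Adm n c lam) Y k) ∧ ∀ T, Cl (Adm n c lam) Y T →
        ∃ k ∈ KK, (Cl (Adm n c lam) Y (T ∆ k)) ∧ ∀ i, NVT (n i) (c i) (T ∆ k) := by
  classical
  set D := ordK h with hD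
  choose C w κ κW hN using fun i => (hf i).newf h
  have hMG := fun i => (hN i).mg
  have hb0 : ∀ i, bt D (fv D fun x => c i (Ideal.span {x})) ∅ ≠ 0 := by
    intro i
    have h1 := (nvt_iff h (hf i) (T := ∅) (by
      rw [Finset.image_empty]
      exact ⟨fun p hp => absurd hp (Finset.notMem_empty p), fun p hp =>
        absurd hp (Finset.notMem_empty p), fun p hp => absurd hp (Finset.notMem_empty p)⟩)
      (fun u _ => by unfold chiT; simp) (fun v hv => absurd hv (Finset.notMem_empty v))).1 (h0 i)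
    rwa [Finset.image_empty] at h1
  obtain ⟨V, hV⟩ := corr_sets hMG hb0 lam hlam hmem
  refine ⟨2 ^ V, fun Y => ?_⟩
  have hAdm : ∀ v ∈ Adm n c lam, (2 : 𝓞 K) ∉ v.asIdeal := fun v hv => hv.1
  have hA : ∀ i, AdS (n i) (GA (Adm n c lam) Y) := by
    intro i
    refine ⟨?_, ?_, ?_, ?_⟩
    · rintro p ⟨v, hv, rfl⟩
      exact gen_prime v
    · rintro p ⟨v, hv, rfl⟩ hd
      exact hv.1.1 (gen_dvd.1 hd)
    · rintro p ⟨v, hv, rfl⟩ p' ⟨v', hv', rfl⟩ hd
      rw [gen_na hd]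
    · rintro p ⟨v, hv, rfl⟩ hd
      exact (hv.1.2 i).1 (gen_dvd.1 hd)
  obtain ⟨K1, hK1, hK2, hK3⟩ := hV (GA (Adm n c lam) Y) (GY Y) hA (by
    rintro i q ⟨v, hv, rfl⟩
    refine ⟨gen_prime v, fun hd => (hv.1.2 i).1 (gen_dvd.1 hd), ?_⟩
    simp only [gen_span]
    exact (hv.1.2 i).2) (by
    rintro p ⟨v, hv, rfl⟩ y (hy | hy) hd
    · exact (gen_prime v).not_isUnit (isUnit_of_dvd_unit hd hy)
    · exact hv.2 y hy (gen_dvd.1 hd))
  have hpre : ∀ k ∈ K1, (k.preimage gen gen_inj.injOn).image gen = k := by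
    intro k hk
    rw [Finset.image_preimage]
    refine Finset.filter_true_of_mem fun p hp => ?_
    obtain ⟨v, hv, rfl⟩ := (hK2 k hk).sub p hp
    exact ⟨v, rfl⟩
  refine ⟨K1.image fun k => k.preimage gen gen_inj.injOn, Finset.card_image_le.trans hK1, ?_, ?_⟩
  · intro k hk
    obtain ⟨k', hk', rfl⟩ := Finset.mem_image.1 hk
    rw [← gt_iff, hpre k' hk']
    exact hK2 k' hk'
  · intro T hT
    obtain ⟨k, hk, h2⟩ := hK3 _ (gt_iff.2 hT)
    have hk1 : Cl (Adm n c lam) Y (k.preimage gen gen_inj.injOn) := by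
      rw [← gt_iff, hpre k hk]
      exact hK2 k hk
    have hsym : Cl (Adm n c lam) Y (T ∆ k.preimage gen gen_inj.injOn) := by
      have hmv : ∀ v ∈ T ∆ k.preimage gen gen_inj.injOn, v ∈ Adm n c lam := by
        intro v hv
        rcases Finset.mem_symmDiff.1 hv with hv | hv
        · exact hT.adm v hv.1
        · exact hk1.adm v hv.1
      have hmul : ∀ y : 𝓞 K, (∀ v ∈ T, y ∉ v.asIdeal) →
          (∀ v ∈ k.preimage gen gen_inj.injOn, y ∉ v.asIdeal) →
          chiT (T ∆ k.preimage gen gen_inj.injOn) y =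
            chiT T y * chiT (k.preimage gen gen_inj.injOn) y := by
        intro y h3 h4
        rw [← chi_gen, ← chi_gen, ← chi_gen, Finset.image_symmDiff _ _ gen_inj]
        refine chi_symmDiff ?_ ?_
        · intro p hp hd
          obtain ⟨v, hv, rfl⟩ := Finset.mem_image.1 hp
          exact h3 v hv (gen_dvd.1 hd)
        · intro p hp hd
          obtain ⟨v, hv, rfl⟩ := Finset.mem_image.1 hp
          exact h4 v hv (gen_dvd.1 hd)
      refine ⟨hmv, fun u hu => ?_, fun y hy => ?_⟩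
      · have hnu : ∀ v : HeightOneSpectrum (𝓞 K), u ∉ v.asIdeal := fun v hv =>
          v.isPrime.ne_top (Ideal.eq_top_of_isUnit_mem _ hv hu)
        rw [hmul u (fun v _ => hnu v) (fun v _ => hnu v), hT.unit u hu, hk1.unit u hu, one_mul]
      · rw [hmul y (fun v hv => hT.cop hv hy) (fun v hv => hk1.cop hv hy), hT.one y hy,
          hk1.one y hy, one_mul]
    refine ⟨_, Finset.mem_image_of_mem _ hk, hsym, fun i => ?_⟩
    rw [nvt_iff h (hf i) (fam_of hAdm hsym.adm) hsym.unit fun v hv => ((hsym.adm v hv).2 i).1,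
      Finset.image_symmDiff _ _ gen_inj, hpre k hk]
    exact h2 i

end main

section count

variable {K : Type} [Field K] [NumberField K]

/-- the norm of the conductor of `χ_T` -/
noncomputable def NT (T : Finset (HeightOneSpectrum (𝓞 K))) : ℕ :=
  ∏ v ∈ T, Ideal.absNorm v.asIdeal

lemma nv_pos (v : HeightOneSpectrum (𝓞 K)) : 0 < Ideal.absNorm v.asIdeal := by
  rw [Nat.pos_iff_ne_zero, Ne, Ideal.absNorm_eq_zero_iff]
  exact v.ne_bot

lemma NT_pos (T : Finset (HeightOneSpectrum (𝓞 K))) : 0 < NT T :=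
  Finset.prod_pos fun v _ => nv_pos v

lemma NT_mono {T T' : Finset (HeightOneSpectrum (𝓞 K))} (h : T ⊆ T') : NT T ≤ NT T' :=
  Finset.prod_le_prod_of_subset_of_one_le' h fun v _ _ => nv_pos v

lemma NT_symm [DecidableEq (HeightOneSpectrum (𝓞 K))] (T T' : Finset (HeightOneSpectrum (𝓞 K))) :
    NT (T ∆ T') ≤ NT T * NT T' := by
  have h1 : T ∆ T' = (T \ T') ∪ (T' \ T) := rfl
  rw [h1]
  unfold NT
  rw [Finset.prod_union (Finset.disjoint_left.2 fun v hv hv' =>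
    (Finset.mem_sdiff.1 hv').2 (Finset.mem_sdiff.1 hv).1)]
  exact Nat.mul_le_mul (NT_mono Finset.sdiff_subset) (NT_mono Finset.sdiff_subset)

lemma NT_fin (X : ℕ) : {T : Finset (HeightOneSpectrum (𝓞 K)) | NT T ≤ X}.Finite := by
  classical
  have h1 : {v : HeightOneSpectrum (𝓞 K) | Ideal.absNorm v.asIdeal ≤ X}.Finite := by
    have h2 : {I : Ideal (𝓞 K) | Ideal.absNorm I ≤ X}.Finite := Ideal.finite_setOfPred_absNorm_le X
    exact h2.preimage (fun v _ w _ h => HeightOneSpectrum.ext h)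
  refine Set.Finite.subset (h1.toFinset.powerset.finite_toSet) ?_
  intro T hT
  rw [Finset.mem_coe, Finset.mem_powerset]
  intro v hv
  rw [Set.Finite.mem_toFinset]
  refine le_trans ?_ (show NT T ≤ X from hT)
  have := NT_mono (Finset.singleton_subset_iff.2 hv)
  unfold NT at this
  rwa [Finset.prod_singleton] at this

theorem count {P : Finset (HeightOneSpectrum (𝓞 K)) → Prop} [DecidableEq (HeightOneSpectrum (𝓞 K))]
    (NV : Finset (HeightOneSpectrum (𝓞 K)) → Prop)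
    (KK : Finset (Finset (HeightOneSpectrum (𝓞 K))))
    (h : ∀ T, P T → ∃ k ∈ KK, P (T ∆ k) ∧ NV (T ∆ k)) :
    ∃ C : ℕ, ∀ X : ℕ, {T | P T ∧ NT T ≤ X}.ncard ≤
      C * {T | P T ∧ NT T ≤ C * X ∧ NV T}.ncard := by
  classical
  let M : ℕ := ∑ k ∈ KK, NT k
  have hM : ∀ k ∈ KK, NT k ≤ M := fun k hk =>
    Finset.single_le_sum (f := fun k => NT k) (fun _ _ => Nat.zero_le _) hk
  refine ⟨KK.card + M, fun X => ?_⟩
  have hfin : {T | P T ∧ NT T ≤ (KK.card + M) * X ∧ NV T}.Finite :=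
    (NT_fin ((KK.card + M) * X)).subset fun T hT => hT.2.1
  choose! t ht1 ht2 using h
  have h1 : {T | P T ∧ NT T ≤ X}.ncard ≤
      ((KK : Set (Finset (HeightOneSpectrum (𝓞 K)))) ×ˢ
        {T | P T ∧ NT T ≤ (KK.card + M) * X ∧ NV T}).ncard := by
    refine Set.ncard_le_ncard_of_injOn (fun T => (t T, T ∆ t T)) ?_ ?_
      (KK.finite_toSet.prod hfin)
    · rintro T ⟨hT, hX⟩
      refine ⟨ht1 T hT, (ht2 T hT).1, ?_, (ht2 T hT).2⟩
      calc NT (T ∆ t T) ≤ NT T * NT (t T) := NT_symm _ _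
        _ ≤ X * M := Nat.mul_le_mul hX (hM _ (ht1 T hT))
        _ ≤ (KK.card + M) * X := by
          rw [mul_comm]
          exact Nat.mul_le_mul_right X (Nat.le_add_left _ _)
    · rintro T - T' - h2
      simp only [Prod.mk.injEq] at h2
      obtain ⟨h3, h4⟩ := h2
      rw [← h3] at h4
      exact symmDiff_left_injective _ h4
  refine h1.trans ?_
  rw [Set.ncard_prod, Set.ncard_coe_finset]
  exact Nat.mul_le_mul_right _ (Nat.le_add_right _ _)

end count

end Pool.Agent.K4H55.BI
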