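import Mathlib

/-!
The action of `SL₂(ℂ)` on the hyperbolic space.
-/

set_option autoImplicit false

namespace Pool.Agent.K4H55.BI

open ComplexConjugate

/-- the denominator `|cz + d|² + |c|² t²` -/
noncomputable def hN (c d z : ℂ) (t : ℝ) : ℝ := ‖c * z + d‖ ^ 2 + ‖c‖ ^ 2 * t ^ 2

/-- the first coordinate of `γ (z, t)` -/
noncomputable def hZ (a b c d z : ℂ) (t : ℝ) : ℂ :=
  ((a * z + b) * conj (c * z + d) + a * conj c * (t : ℂ) ^ 2) / (hN c d z t : ℂ)

/-- the second coordinate of `γ (z, t)` -/
noncomputable def hT (c d z : ℂ) (t : ℝ) : ℝ := t / hN c d z t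

lemma hN_cast (c d z : ℂ) (t : ℝ) : (hN c d z t : ℂ) =
    (c * z + d) * conj (c * z + d) + c * conj c * (t : ℂ) ^ 2 := by
  unfold hN
  push_cast
  rw [Complex.mul_conj, Complex.mul_conj, Complex.normSq_eq_norm_sq, Complex.normSq_eq_norm_sq]
  push_cast
  ring

lemma hN_pos {a b c d z : ℂ} {t : ℝ} (h : a * d - b * c = 1) (ht : 0 < t) : 0 < hN c d z t := by
  unfold hN
  by_cases hc : c = 0
  · subst hc
    have hd : d ≠ 0 := by
      rintro rfl
      simp at h
    have : 0 < ‖d‖ := norm_pos_iff.2 hd
    simp only [zero_mul, zero_add, norm_zero]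
    positivity
  · have : 0 < ‖c‖ := norm_pos_iff.2 hc
    positivity

/-- composition -/
theorem act_comp {a b c d A B C E z : ℂ} {t : ℝ} (h : a * d - b * c = 1) (h' : A * E - B * C = 1)
    (ht : 0 < t) :
    hZ A B C E (hZ a b c d z t) (hT c d z t) =
        hZ (A * a + B * c) (A * b + B * d) (C * a + E * c) (C * b + E * d) z t ∧
      hT C E (hZ a b c d z t) (hT c d z t) = hT (C * a + E * c) (C * b + E * d) z t := by
  have hN0 := hN_pos (z := z) h ht
  have hT0 : 0 < hT c d z t := by unfold hT; positivity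
  have hN1 := hN_pos (z := hZ a b c d z t) h' hT0
  have hdet3 : (A * a + B * c) * (C * b + E * d) - (A * b + B * d) * (C * a + E * c) = 1 := by
    linear_combination (A * E - B * C) * h + h'
  have hN3 := hN_pos (z := z) hdet3 ht
  have hN0c : (hN c d z t : ℂ) ≠ 0 := by exact_mod_cast hN0.ne'
  have hN1c : (hN C E (hZ a b c d z t) (hT c d z t) : ℂ) ≠ 0 := by exact_mod_cast hN1.ne'
  have hN3c : (hN (C * a + E * c) (C * b + E * d) z t : ℂ) ≠ 0 := by exact_mod_cast hN3.ne'
  have hconj : conj a * conj d - conj b * conj c = 1 := by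
    have := congrArg conj h
    simpa using this
  set N := (hN c d z t : ℂ) with hNdef
  set Z := (a * z + b) * conj (c * z + d) + a * conj c * (t : ℂ) ^ 2 with hZdef
  set Z' := conj (a * z + b) * (c * z + d) + conj a * c * (t : ℂ) ^ 2 with hZdef'
  set Q := (a * z + b) * conj (a * z + b) + a * conj a * (t : ℂ) ^ 2 with hQdef
  have hNe : N = (c * z + d) * conj (c * z + d) + c * conj c * (t : ℂ) ^ 2 := hN_cast c d z t
  have hkey : Z * Z' + (t : ℂ) ^ 2 = N * Q := by
    rw [hZdef, hZdef', hNe, hQdef]
    simp only [map_add, map_mul]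
    linear_combination (-(t : ℂ) ^ 2 * (conj a * conj d - conj b * conj c)) * h -
      (t : ℂ) ^ 2 * hconj
  have hz1 : hZ a b c d z t = Z / N := rfl
  have hz1' : conj (hZ a b c d z t) = Z' / N := by
    rw [hz1, map_div₀, hZdef, hZdef', hNdef, Complex.conj_ofReal]
    simp only [map_add, map_mul, map_pow, Complex.conj_ofReal, Complex.conj_conj]
  have ht1 : ((hT c d z t : ℝ) : ℂ) = t / N := by
    unfold hT
    push_cast
    rfl
  -- the denominators
  have hden : (hN C E (hZ a b c d z t) (hT c d z t) : ℂ) * N =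
      (hN (C * a + E * c) (C * b + E * d) z t : ℂ) := by
    rw [hN_cast, hN_cast, map_add, map_mul, hz1', hz1, ht1]
    field_simp
    have e1 : N * ((C * a + E * c) * z + (C * b + E * d)) *
        conj ((C * a + E * c) * z + (C * b + E * d)) + N * (C * a + E * c) *
          conj (C * a + E * c) * (t : ℂ) ^ 2 = N * (C * conj C * Q + C * conj E * Z +
            E * conj C * Z' + E * conj E * N) := by
      rw [hQdef, hZdef, hZdef']
      conv_rhs => rw [hNe]
      rw [hNe]
      simp only [map_add, map_mul]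
      ring
    first
    | linear_combination (C * conj C) * hkey - e1
    | (simp only [map_add, map_mul] at e1 ⊢; linear_combination (C * conj C) * hkey - e1)
  have hnum : (A * hZ a b c d z t + B) * conj (C * hZ a b c d z t + E) +
      A * conj C * ((hT c d z t : ℝ) : ℂ) ^ 2 = (((A * a + B * c) * z + (A * b + B * d)) *
        conj ((C * a + E * c) * z + (C * b + E * d)) + (A * a + B * c) *
          conj (C * a + E * c) * (t : ℂ) ^ 2) / N := by
    rw [map_add, map_mul, hz1', hz1, ht1]
    field_simp
    have e1 : N * ((A * a + B * c) * z + (A * b + B * d)) *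
        conj ((C * a + E * c) * z + (C * b + E * d)) + N * (A * a + B * c) *
          conj (C * a + E * c) * (t : ℂ) ^ 2 = N * (A * conj C * Q + A * conj E * Z +
            B * conj C * Z' + B * conj E * N) := by
      rw [hQdef, hZdef, hZdef']
      conv_rhs => rw [hNe]
      rw [hNe]
      simp only [map_add, map_mul]
      ring
    first
    | linear_combination (A * conj C) * hkey - e1
    | (simp only [map_add, map_mul] at e1 ⊢; linear_combination (A * conj C) * hkey - e1)
  constructor
  · have h1 : hZ A B C E (hZ a b c d z t) (hT c d z t) = ((A * hZ a b c d z t + B) *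
        conj (C * hZ a b c d z t + E) + A * conj C * ((hT c d z t : ℝ) : ℂ) ^ 2) /
          (hN C E (hZ a b c d z t) (hT c d z t) : ℂ) := rfl
    rw [h1, hnum]
    have h2 : hZ (A * a + B * c) (A * b + B * d) (C * a + E * c) (C * b + E * d) z t =
        (((A * a + B * c) * z + (A * b + B * d)) *
        conj ((C * a + E * c) * z + (C * b + E * d)) + (A * a + B * c) *
          conj (C * a + E * c) * (t : ℂ) ^ 2) / (hN (C * a + E * c) (C * b + E * d) z t : ℂ) := rfl
    rw [h2, ← hden, div_div, mul_comm N]
  · have h1 : ((hT C E (hZ a b c d z t) (hT c d z t) : ℝ) : ℂ) =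
        ((hT (C * a + E * c) (C * b + E * d) z t : ℝ) : ℂ) := by
      have h2 : ((hT C E (hZ a b c d z t) (hT c d z t) : ℝ) : ℂ) = ((hT c d z t : ℝ) : ℂ) /
          (hN C E (hZ a b c d z t) (hT c d z t) : ℂ) := by
        rw [hT]; push_cast; rfl
      have h3 : ((hT (C * a + E * c) (C * b + E * d) z t : ℝ) : ℂ) = (t : ℂ) /
          (hN (C * a + E * c) (C * b + E * d) z t : ℂ) := by
        rw [hT]; push_cast; rfl
      rw [h2, h3, ht1, ← hden, div_div, mul_comm N]
    exact_mod_cast h1

end Pool.Agent.K4H55.BI
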