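import Mathlib

/-!
The function `h(y) = ∫_0^∞ exp(-1/v - y v) dv = 2 y^(-1/2) K₁(2 √y)`.
-/

set_option autoImplicit false

namespace Pool.Agent.K4H55.BI

open MeasureTheory Set Filter Topology

/-- `h(y) = ∫_0^∞ exp(-1/v - y v) dv = 2 y^(-1/2) K₁(2 √y)` -/
noncomputable def hb (y : ℝ) : ℝ := ∫ v in Ioi (0 : ℝ), Real.exp (-(1 / v) - y * v)

lemma exp_inv_le (k : ℕ) {v : ℝ} (hv : 0 < v) : Real.exp (-(1 / v)) ≤ k.factorial * v ^ k := by
  have h1 := Real.pow_div_factorial_le_exp (1 / v) (by positivity) k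
  rw [Real.exp_neg]
  have h2 : (0 : ℝ) < (1 / v) ^ k / k.factorial := by positivity
  calc (Real.exp (1 / v))⁻¹ ≤ ((1 / v) ^ k / k.factorial)⁻¹ := inv_anti₀ h2 h1
    _ = k.factorial * v ^ k := by rw [one_div, inv_pow]; field_simp

lemma hb_integrable {y : ℝ} (hy : 0 < y) :
    IntegrableOn (fun v : ℝ => Real.exp (-(1 / v) - y * v)) (Ioi 0) := by
  have h1 : IntegrableOn (fun v : ℝ => Real.exp (-y * v)) (Ioi 0) :=
    integrableOn_exp_mul_Ioi (by linarith) 0
  refine Integrable.mono' h1 ?_ ?_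
  · exact (by fun_prop : Measurable fun v : ℝ => Real.exp (-(1 / v) - y * v)).aestronglyMeasurable
  · refine (ae_restrict_iff' measurableSet_Ioi).2 (ae_of_all _ fun v hv => ?_)
    rw [Real.norm_eq_abs, abs_of_pos (Real.exp_pos _)]
    apply Real.exp_le_exp.2
    have hv' : (0 : ℝ) < v := hv
    have : 0 < 1 / v := by positivity
    linarith

lemma hb_nonneg (y : ℝ) : 0 ≤ hb y := by
  unfold hb
  exact integral_nonneg fun v => (Real.exp_pos _).le

lemma hb_bound (k : ℕ) {y : ℝ} (hy : 0 < y) :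
    hb y ≤ (k.factorial : ℝ) * k.factorial * y⁻¹ ^ (k + 1) := by
  have h0 := Real.integral_rpow_mul_exp_neg_mul_Ioi (a := (k : ℝ) + 1) (by positivity) hy
  have h1 : IntegrableOn (fun t : ℝ => t ^ ((k : ℝ) + 1 - 1) * Real.exp (-(y * t))) (Ioi 0) := by
    by_contra hcon
    have h2 := integral_undef hcon
    rw [h2] at h0
    have h3 : 0 < (1 / y) ^ ((k : ℝ) + 1) * Real.Gamma ((k : ℝ) + 1) := by
      have := Real.Gamma_pos_of_pos (s := (k : ℝ) + 1) (by positivity)
      positivity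
    linarith
  have h4 : hb y ≤ ∫ t in Ioi (0 : ℝ), (k.factorial : ℝ) *
      (t ^ ((k : ℝ) + 1 - 1) * Real.exp (-(y * t))) := by
    unfold hb
    refine setIntegral_mono_on (hb_integrable hy) (h1.const_mul _) measurableSet_Ioi ?_
    intro v hv
    have hv' : (0 : ℝ) < v := hv
    have h5 : Real.exp (-(1 / v) - y * v) = Real.exp (-(1 / v)) * Real.exp (-(y * v)) := by
      rw [← Real.exp_add]; ring_nf
    rw [h5, ← mul_assoc, add_sub_cancel_right, Real.rpow_natCast]
    exact mul_le_mul_of_nonneg_right (exp_inv_le k hv') (Real.exp_pos _).le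
  rw [integral_const_mul, h0] at h4
  refine h4.trans (le_of_eq ?_)
  rw [Real.Gamma_nat_eq_factorial, one_div, ← Nat.cast_succ, Real.rpow_natCast, Nat.succ_eq_add_one]
  ring

lemma hb_continuousAt {y : ℝ} (hy : 0 < y) : ContinuousAt hb y := by
  unfold hb
  refine continuousAt_of_dominated (bound := fun v => Real.exp (-(1 / v) - (y / 2) * v)) ?_ ?_
    (hb_integrable (by positivity)) ?_
  · exact Eventually.of_forall fun z =>
      (by fun_prop : Measurable fun v : ℝ => Real.exp (-(1 / v) - z * v)).aestronglyMeasurable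
  · filter_upwards [lt_mem_nhds (show y / 2 < y by linarith)] with z hz
    refine (ae_restrict_iff' measurableSet_Ioi).2 (ae_of_all _ fun v hv => ?_)
    have hv' : (0 : ℝ) < v := hv
    rw [Real.norm_eq_abs, abs_of_pos (Real.exp_pos _)]
    apply Real.exp_le_exp.2
    nlinarith
  · refine ae_of_all _ fun v => ?_
    fun_prop

lemma hb_continuousOn : ContinuousOn hb (Ioi 0) :=
  fun _ hy => (hb_continuousAt hy).continuousWithinAt

/-- the integral `∫ exp(-1/v) v^(-w) dv` -/
lemma mellin_exp_inv {w : ℂ} (hw : 1 < w.re) :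
    HasMellin (fun v : ℝ => ((Real.exp (-(v⁻¹)) : ℝ) : ℂ)) (1 - w) (Complex.Gamma (w - 1)) := by
  have hre : 0 < (w - 1).re := by simp; linarith
  have h1 : MellinConvergent (fun v : ℝ => ((Real.exp (-v) : ℝ) : ℂ)) (w - 1) := by
    have := Complex.GammaIntegral_convergent hre
    unfold MellinConvergent
    refine this.congr_fun (fun x _ => ?_) measurableSet_Ioi
    simp only [smul_eq_mul]
    ring
  have h2 : mellin (fun v : ℝ => ((Real.exp (-v) : ℝ) : ℂ)) (w - 1) = Complex.Gamma (w - 1) := by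
    rw [Complex.Gamma_eq_integral hre, Complex.GammaIntegral]
    unfold mellin
    refine setIntegral_congr_fun measurableSet_Ioi fun x _ => ?_
    simp only [smul_eq_mul]
    ring
  have h3 : (1 - w) = -(w - 1) := by ring
  refine ⟨?_, ?_⟩
  · have h4 := (MellinConvergent.comp_rpow (f := fun v : ℝ => ((Real.exp (-v) : ℝ) : ℂ))
      (s := 1 - w) (a := -1) (by norm_num)).2 (by
        rw [show (1 - w) / ((-1 : ℝ) : ℂ) = w - 1 by push_cast; ring]
        exact h1)
    simpa only [Real.rpow_neg_one] using h4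
  · have h5 := mellin_comp_inv (fun v : ℝ => ((Real.exp (-v) : ℝ) : ℂ)) (1 - w)
    rw [h5, show -(1 - w) = w - 1 by ring, h2]

lemma inner_norm {a v : ℝ} (ha : 0 < a) (hv : 0 < v) :
    ∫ y in Ioi (0 : ℝ), y ^ (a - 1) * Real.exp (-(v * y)) = v ^ (-a) * Real.Gamma a := by
  rw [Real.integral_rpow_mul_exp_neg_mul_Ioi ha hv, one_div, Real.inv_rpow hv.le,
    Real.rpow_neg hv.le]

lemma inner_integrable {a v : ℝ} (ha : 0 < a) (hv : 0 < v) :
    IntegrableOn (fun y : ℝ => y ^ (a - 1) * Real.exp (-(v * y))) (Ioi 0) := by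
  by_contra hcon
  have h2 := integral_undef hcon
  rw [inner_norm ha hv] at h2
  have h3 : 0 < v ^ (-a) * Real.Gamma a := by
    have := Real.Gamma_pos_of_pos ha
    positivity
  linarith

/-- the double integrand -/
noncomputable def dbl (w : ℂ) (p : ℝ × ℝ) : ℂ :=
  (p.1 : ℂ) ^ (w - 1) * ((Real.exp (-(1 / p.2) - p.1 * p.2) : ℝ) : ℂ)

lemma dbl_norm (w : ℂ) {y v : ℝ} (hy : 0 < y) :
    ‖dbl w (y, v)‖ = Real.exp (-v⁻¹) * (y ^ (w.re - 1) * Real.exp (-(v * y))) := by
  unfold dbl
  rw [norm_mul, Complex.norm_cpow_eq_rpow_re_of_pos hy, Complex.norm_real, Real.norm_eq_abs,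
    abs_of_pos (Real.exp_pos _)]
  have : Real.exp (-(1 / v) - y * v) = Real.exp (-v⁻¹) * Real.exp (-(v * y)) := by
    rw [← Real.exp_add]; ring_nf
  simp only [Complex.sub_re, Complex.one_re]
  rw [this]
  ring

lemma dbl_measurable (w : ℂ) : Measurable (dbl w) := by
  unfold dbl
  fun_prop

lemma dbl_integrable {w : ℂ} (hw : 1 < w.re) :
    Integrable (dbl w) ((volume.restrict (Ioi (0 : ℝ))).prod (volume.restrict (Ioi (0 : ℝ)))) := by
  rw [integrable_prod_iff' (dbl_measurable w).aestronglyMeasurable]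
  have hw0 : 0 < w.re := by linarith
  constructor
  · refine (ae_restrict_iff' measurableSet_Ioi).2 (ae_of_all _ fun v hv => ?_)
    have hv' : (0 : ℝ) < v := hv
    refine ((inner_integrable hw0 hv').const_mul (Real.exp (-v⁻¹))).mono' ?_ ?_
    · exact ((dbl_measurable w).comp (measurable_id.prodMk measurable_const)).aestronglyMeasurable
    · refine (ae_restrict_iff' measurableSet_Ioi).2 (ae_of_all _ fun y hy => ?_)
      exact (dbl_norm w hy).le
  · have h1 := (mellin_exp_inv (w := (w.re : ℂ)) (by simpa using hw)).1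
    unfold MellinConvergent at h1
    have h2 := h1.norm
    have h3 : IntegrableOn (fun v : ℝ => Real.Gamma w.re * (v ^ (-w.re) * Real.exp (-v⁻¹)))
        (Ioi 0) := by
      refine Integrable.const_mul ?_ _
      refine h2.congr ((ae_restrict_iff' measurableSet_Ioi).2 (ae_of_all _ fun v hv => ?_))
      have hv' : (0 : ℝ) < v := hv
      simp only [smul_eq_mul]
      rw [norm_mul, Complex.norm_cpow_eq_rpow_re_of_pos hv', Complex.norm_real, Real.norm_eq_abs,
        abs_of_pos (Real.exp_pos _)]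
      simp
    refine h3.congr ((ae_restrict_iff' measurableSet_Ioi).2 (ae_of_all _ fun v hv => ?_))
    have hv' : (0 : ℝ) < v := hv
    have h4 : ∫ y in Ioi (0 : ℝ), ‖dbl w (y, v)‖ =
        ∫ y in Ioi (0 : ℝ), Real.exp (-v⁻¹) * (y ^ (w.re - 1) * Real.exp (-(v * y))) :=
      setIntegral_congr_fun measurableSet_Ioi fun y hy => dbl_norm w hy
    simp only
    rw [h4, integral_const_mul, inner_norm hw0 hv']
    ring

/-- **The Mellin transform of `h`.** -/
theorem hasMellin_hb {w : ℂ} (hw : 1 < w.re) :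
    HasMellin (fun y : ℝ => ((hb y : ℝ) : ℂ)) w (Complex.Gamma w * Complex.Gamma (w - 1)) := by
  have hw0 : 0 < w.re := by linarith
  have hint := dbl_integrable hw
  have h1 : ∀ y ∈ Ioi (0 : ℝ), ∫ v in Ioi (0 : ℝ), dbl w (y, v) =
      (y : ℂ) ^ (w - 1) • ((hb y : ℝ) : ℂ) := by
    intro y hy
    have h0 : ((hb y : ℝ) : ℂ) = ∫ v in Ioi (0 : ℝ), ((Real.exp (-(1 / v) - y * v) : ℝ) : ℂ) := by
      unfold hb
      exact (integral_complex_ofReal).symm
    rw [h0, smul_eq_mul]
    exact integral_const_mul ((y : ℂ) ^ (w - 1))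
      (fun v : ℝ => ((Real.exp (-(1 / v) - y * v) : ℝ) : ℂ))
  refine ⟨?_, ?_⟩
  · have h2 := hint.integral_prod_left
    unfold MellinConvergent
    exact (integrableOn_congr_fun (fun y hy => h1 y hy) measurableSet_Ioi).1 h2
  · unfold mellin
    have h3 : ∫ y in Ioi (0 : ℝ), (y : ℂ) ^ (w - 1) • ((hb y : ℝ) : ℂ) =
        ∫ y in Ioi (0 : ℝ), ∫ v in Ioi (0 : ℝ), dbl w (y, v) :=
      setIntegral_congr_fun measurableSet_Ioi fun y hy => (h1 y hy).symm
    rw [h3, integral_integral_swap (f := fun y v => dbl w (y, v)) hint]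
    have h4 : ∫ v in Ioi (0 : ℝ), ∫ y in Ioi (0 : ℝ), dbl w (y, v) =
        ∫ v in Ioi (0 : ℝ), Complex.Gamma w * ((v : ℂ) ^ ((1 - w) - 1) •
          ((Real.exp (-(v⁻¹)) : ℝ) : ℂ)) := by
      refine setIntegral_congr_fun measurableSet_Ioi fun v hv => ?_
      have hv' : (0 : ℝ) < v := hv
      have h5 := Complex.integral_cpow_mul_exp_neg_mul_Ioi hw0 hv'
      have h6 : ∫ y in Ioi (0 : ℝ), dbl w (y, v) = ∫ y in Ioi (0 : ℝ),
          ((Real.exp (-(v⁻¹)) : ℝ) : ℂ) * ((y : ℂ) ^ (w - 1) * Complex.exp (-(v * y))) := by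
        refine setIntegral_congr_fun measurableSet_Ioi fun y _ => ?_
        unfold dbl
        have h7 : ((Real.exp (-(1 / v) - y * v) : ℝ) : ℂ) =
            ((Real.exp (-(v⁻¹)) : ℝ) : ℂ) * Complex.exp (-(v * y)) := by
          rw [Complex.ofReal_exp, Complex.ofReal_exp, ← Complex.exp_add]
          push_cast
          ring_nf
        simp only
        rw [h7]
        ring
      rw [h6, integral_const_mul, h5, one_div]
      have h8 : ((v : ℂ)⁻¹) ^ w = (v : ℂ) ^ (1 - w - 1) := by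
        rw [show (1 : ℂ) - w - 1 = -w by ring, Complex.cpow_neg,
          Complex.inv_cpow _ _ (by
            rw [Complex.arg_ofReal_of_nonneg hv'.le]
            exact Real.pi_pos.ne)]
      rw [h8, smul_eq_mul]
      ring
    rw [h4, integral_const_mul]
    have h9 := (mellin_exp_inv hw).2
    unfold mellin at h9
    rw [h9]

end Pool.Agent.K4H55.BI
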