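import Pool.Agent.K4H55.BI.Crs

/-!
Quadratic residue symbols and Gauss sums.
-/

set_option autoImplicit false

namespace Pool.Agent.K4H55.BI

open Finset

variable {O : Type} [CommRing O]

open Classical in
/-- the quadratic residue symbol modulo the prime element `p` -/
noncomputable def qs (p x : O) : ℂ := if p ∣ x then 0 else if ∃ y, p ∣ x - y ^ 2 then 1 else -1

/-- the product of the symbols -/
noncomputable def chi (T : Finset O) (x : O) : ℂ := ∏ p ∈ T, qs p x

lemma pid (D : Ord O) : IsPrincipalIdealRing O := D.pid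

lemma prime_coprime (D : Ord O) [IsDomain O] {p x : O} (hp : Prime p) (h : ¬ p ∣ x) :
    IsCoprime p x := by
  have := pid D
  exact (Irreducible.coprime_iff_not_dvd hp.irreducible).2 h

/-- the comparison with the quadratic character -/
lemma qs_props (D : Ord O) [IsDomain O] {p : O} (hp : Prime p) (h2 : ¬ p ∣ 2) :
    (∀ x y, qs p (x * y) = qs p x * qs p y) ∧ (∃ x, qs p x = -1) := by
  classical
  have hfin : Finite (O ⧸ Ideal.span {p}) := by
    refine Nat.finite_of_card_ne_zero ?_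
    rw [D.card p hp.ne_zero]
    exact (D.nm_pos hp.ne_zero).ne'
  have hprime : (Ideal.span {p}).IsPrime := (Ideal.span_singleton_prime hp.ne_zero).2 hp
  have hdom : IsDomain (O ⧸ Ideal.span {p}) := (Ideal.Quotient.isDomain_iff_prime _).2 hprime
  let _ : Fintype (O ⧸ Ideal.span {p}) := Fintype.ofFinite _
  let _ : Field (O ⧸ Ideal.span {p}) := Fintype.fieldOfDomain _
  have hkey : ∀ x : O, qs p x = ((quadraticChar (O ⧸ Ideal.span {p})
      (Ideal.Quotient.mk (Ideal.span {p}) x) : ℤ) : ℂ) := by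
    intro x
    have h1 : Ideal.Quotient.mk (Ideal.span {p}) x = 0 ↔ p ∣ x := by
      rw [Ideal.Quotient.eq_zero_iff_mem, Ideal.mem_span_singleton]
    have h2 : IsSquare (Ideal.Quotient.mk (Ideal.span {p}) x) ↔ ∃ y, p ∣ x - y ^ 2 := by
      constructor
      · rintro ⟨r, hr⟩
        obtain ⟨y, rfl⟩ := Ideal.Quotient.mk_surjective r
        refine ⟨y, ?_⟩
        rw [← Ideal.mem_span_singleton, ← Ideal.Quotient.eq_zero_iff_mem, map_sub, hr, map_pow, sq,
          sub_self]
      · rintro ⟨y, hy⟩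
        refine ⟨Ideal.Quotient.mk (Ideal.span {p}) y, ?_⟩
        rw [← Ideal.mem_span_singleton, ← Ideal.Quotient.eq_zero_iff_mem, map_sub, map_pow,
          sub_eq_zero] at hy
        rw [hy, sq]
    rw [quadraticChar_apply]
    unfold qs quadraticCharFun
    by_cases hx : p ∣ x
    · rw [if_pos hx, if_pos (h1.2 hx)]
      simp
    · rw [if_neg hx, if_neg (fun h => hx (h1.1 h))]
      by_cases hs : ∃ y, p ∣ x - y ^ 2
      · rw [if_pos hs, if_pos (h2.2 hs)]
        simp
      · rw [if_neg hs, if_neg (fun h => hs (h2.1 h))]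
        simp
  refine ⟨fun x y => ?_, ?_⟩
  · rw [hkey, hkey, hkey, map_mul, map_mul]
    push_cast
    rfl
  · have hchar : ringChar (O ⧸ Ideal.span {p}) ≠ 2 := by
      intro h
      have h3 : ((2 : ℕ) : O ⧸ Ideal.span {p}) = 0 := (ringChar.spec _ 2).2 (by rw [h])
      apply h2
      rw [← Ideal.mem_span_singleton, ← Ideal.Quotient.eq_zero_iff_mem]
      have h4 : (Ideal.Quotient.mk (Ideal.span {p})) (2 : O) = ((2 : ℕ) : O ⧸ Ideal.span {p}) := by
        push_cast
        exact map_ofNat _ 2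
      rw [h4, h3]
    obtain ⟨u, hu⟩ := quadraticChar_exists_neg_one hchar
    obtain ⟨x, rfl⟩ := Ideal.Quotient.mk_surjective u
    exact ⟨x, by rw [hkey, hu]; simp⟩

lemma qs_prd (p : O) : Prd p (qs p) := by
  classical
  intro x y h
  have h1 : p ∣ x ↔ p ∣ y := by
    constructor
    · intro hx
      have : y = x - (x - y) := by ring
      rw [this]
      exact dvd_sub hx h
    · intro hy
      have : x = y + (x - y) := by ring
      rw [this]
      exact dvd_add hy h
  have h2 : (∃ z, p ∣ x - z ^ 2) ↔ ∃ z, p ∣ y - z ^ 2 := by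
    constructor
    · rintro ⟨z, hz⟩
      refine ⟨z, ?_⟩
      have : y - z ^ 2 = (x - z ^ 2) - (x - y) := by ring
      rw [this]
      exact dvd_sub hz h
    · rintro ⟨z, hz⟩
      refine ⟨z, ?_⟩
      have : x - z ^ 2 = (y - z ^ 2) + (x - y) := by ring
      rw [this]
      exact dvd_add hz h
  unfold qs
  simp only [h1, h2]

lemma qs_zero {p x : O} (h : p ∣ x) : qs p x = 0 := by
  unfold qs
  rw [if_pos h]

lemma qs_sq {p x : O} (h : ¬ p ∣ x) : qs p x * qs p x = 1 := by
  unfold qs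
  rw [if_neg h]
  split_ifs <;> norm_num

lemma qs_one {p : O} (hp : Prime p) : qs p 1 = 1 := by
  unfold qs
  rw [if_neg hp.not_dvd_one, if_pos ⟨1, by simp⟩]

/-- a finite family of odd, pairwise nonassociated prime elements -/
structure Fam (S : Finset O) : Prop where
  pr : ∀ p ∈ S, Prime p
  odd : ∀ p ∈ S, ¬ p ∣ 2
  na : ∀ p ∈ S, ∀ p' ∈ S, p ∣ p' → p = p'

/-- the modulus -/
def md (S : Finset O) : O := ∏ p ∈ S, p

lemma Fam.mono {S T : Finset O} (hS : Fam S) (h : T ⊆ S) : Fam T :=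
  ⟨fun p hp => hS.pr p (h hp), fun p hp => hS.odd p (h hp),
    fun p hp p' hp' => hS.na p (h hp) p' (h hp')⟩

lemma Fam.md_ne [IsDomain O] {S : Finset O} (hS : Fam S) : md S ≠ 0 := by
  unfold md
  exact Finset.prod_ne_zero_iff.2 fun p hp => (hS.pr p hp).ne_zero

lemma dvd_md {S : Finset O} {p : O} (hp : p ∈ S) : p ∣ md S := Finset.dvd_prod_of_mem _ hp

lemma md_coprime (D : Ord O) [IsDomain O] {S : Finset O} (hS : Fam S) {x : O}
    (h : ∀ p ∈ S, ¬ p ∣ x) : IsCoprime (md S) x := by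
  unfold md
  exact IsCoprime.prod_left fun p hp => prime_coprime D (hS.pr p hp) (h p hp)

lemma chi_prd {T : Finset O} {m : O} (h : ∀ p ∈ T, p ∣ m) : Prd m (chi T) := by
  intro x y hxy
  unfold chi
  exact Finset.prod_congr rfl fun p hp => qs_prd p x y ((h p hp).trans hxy)

lemma chi_mul (D : Ord O) [IsDomain O] {T : Finset O} (hT : Fam T) (x y : O) :
    chi T (x * y) = chi T x * chi T y := by
  unfold chi
  rw [← Finset.prod_mul_distrib]
  exact Finset.prod_congr rfl fun p hp => (qs_props D (hT.pr p hp) (hT.odd p hp)).1 x y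

lemma chi_one {T : Finset O} (hT : Fam T) : chi T 1 = 1 := by
  unfold chi
  exact Finset.prod_eq_one fun p hp => qs_one (hT.pr p hp)

lemma chi_sq {T : Finset O} {x : O} (h : ∀ p ∈ T, ¬ p ∣ x) : chi T x * chi T x = 1 := by
  unfold chi
  rw [← Finset.prod_mul_distrib]
  exact Finset.prod_eq_one fun p hp => qs_sq (h p hp)

lemma chi_zero {T : Finset O} {x p : O} (hp : p ∈ T) (h : p ∣ x) : chi T x = 0 := by
  unfold chi
  exact Finset.prod_eq_zero hp (qs_zero h)

/-- orthogonality -/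
lemma orth (D : Ord O) [IsDomain O] {m : O} (hm : m ≠ 0) {S : Finset O} (hS : CRS m S) (y : O) :
    ∑ x ∈ S, ee D.δ (D.ι (x * y) / D.ι m) = open Classical in if m ∣ y then (D.nm m : ℂ) else 0 := by
  classical
  have hιm : D.ι m ≠ 0 := fun h => hm (D.inj (by rw [h, map_zero]))
  have hprd : Prd m fun x => ee D.δ (D.ι (x * y) / D.ι m) := by
    rintro x x' ⟨k, hk⟩
    have hx : x = x' + m * k := by linear_combination hk
    have : D.ι (x * y) / D.ι m = D.ι (x' * y) / D.ι m + D.ι (k * y) := by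
      rw [hx, add_mul, map_add, mul_assoc, map_mul D.ι m]
      field_simp
    simp only
    rw [this, ee_add, D.dual1, mul_one]
  split_ifs with h
  · obtain ⟨k, rfl⟩ := h
    have h1 : ∀ x ∈ S, ee D.δ (D.ι (x * (m * k)) / D.ι m) = 1 := by
      intro x _
      have : D.ι (x * (m * k)) / D.ι m = D.ι (x * k) := by
        rw [map_mul, map_mul, map_mul]
        field_simp
      rw [this, D.dual1]
    rw [Finset.sum_congr rfl h1]
    have h2 := hS.sum_eq (rs_CRS D hm) (g := fun _ => (1 : ℂ)) (fun _ _ _ => rfl)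
    rw [h2, Finset.sum_const, rs_card D hm]
    simp
  · have h1 : ∃ z, ee D.δ (D.ι (y * z) / D.ι m) ≠ 1 := by
      by_contra hcon
      push Not at hcon
      exact h (D.dual2 y m hm hcon)
    obtain ⟨z, hz⟩ := h1
    have hshift : CRS m (S.image (· + z)) := by
      refine ⟨fun x => ?_, ?_⟩
      · obtain ⟨s, hs, hs'⟩ := hS.ex (x - z)
        refine ⟨s + z, mem_image_of_mem _ hs, ?_⟩
        have : x - (s + z) = x - z - s := by ring
        rwa [this]
      · intro x hx x' hx' h
        obtain ⟨s, hs, rfl⟩ := mem_image.1 hx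
        obtain ⟨s', hs', rfl⟩ := mem_image.1 hx'
        have : s + z - (s' + z) = s - s' := by ring
        rw [hS.un s hs s' hs' (by rwa [this] at h)]
    have h2 := hS.sum_eq hshift hprd
    rw [Finset.sum_image (fun a _ b _ h => by simpa using h)] at h2
    have h3 : ∀ x ∈ S, ee D.δ (D.ι ((x + z) * y) / D.ι m) =
        ee D.δ (D.ι (x * y) / D.ι m) * ee D.δ (D.ι (y * z) / D.ι m) := by
      intro x _
      rw [← ee_add, ← add_div, ← map_add]
      congr 3
      ring
    rw [Finset.sum_congr rfl h3, ← Finset.sum_mul] at h2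
    have h4 : (∑ x ∈ S, ee D.δ (D.ι (x * y) / D.ι m)) * (1 - ee D.δ (D.ι (y * z) / D.ι m)) = 0 := by
      linear_combination h2
    rcases mul_eq_zero.1 h4 with h5 | h5
    · exact h5
    · exact absurd (sub_eq_zero.1 h5).symm hz

/-- Gauss sums -/
noncomputable def gs (D : Ord O) (T : Finset O) (α : O) : ℂ :=
  ∑ x ∈ rs D (md T), chi T x * ee D.δ (D.ι (α * x) / D.ι (md T))

lemma ee_prd (D : Ord O) {m : O} (hm : D.ι m ≠ 0) (α : O) :
    Prd m fun x => ee D.δ (D.ι (α * x) / D.ι m) := by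
  rintro x x' ⟨k, hk⟩
  have hx : x = x' + m * k := by linear_combination hk
  have : D.ι (α * x) / D.ι m = D.ι (α * x') / D.ι m + D.ι (α * k) := by
    rw [hx, mul_add, map_add, show α * (m * k) = m * (α * k) by ring, map_mul D.ι m]
    field_simp
  simp only
  rw [this, ee_add, D.dual1, mul_one]

lemma Prd.mul {m : O} {g h : O → ℂ} (hg : Prd m g) (hh : Prd m h) : Prd m fun x => g x * h x :=
  fun x y hxy => by
    show g x * h x = g y * h y
    rw [hg x y hxy, hh x y hxy]

lemma gs_coprime (D : Ord O) [IsDomain O] {T : Finset O} (hT : Fam T) {α : O}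
    (h : ∀ p ∈ T, ¬ p ∣ α) : gs D T α = chi T α * gs D T 1 := by
  have hm := hT.md_ne
  have hιm : D.ι (md T) ≠ 0 := fun h => hm (D.inj (by rw [h, map_zero]))
  have hco : IsCoprime α (md T) := (md_coprime D hT h).symm
  have hprd := (chi_prd (T := T) (m := md T) fun p hp => dvd_md hp).mul (ee_prd D hιm 1)
  have h1 := CRS.sum_unit hco (rs_CRS D hm) hprd
  have hsq := chi_sq h
  unfold gs
  rw [← h1, Finset.mul_sum]
  refine Finset.sum_congr rfl fun x _ => ?_
  rw [chi_mul D hT, one_mul]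
  linear_combination (-(chi T x) * ee D.δ (D.ι (α * x) / D.ι (md T))) * hsq

lemma gs_zero (D : Ord O) [IsDomain O] {T : Finset O} (hT : Fam T) {α p : O} (hp : p ∈ T)
    (h : p ∣ α) : gs D T α = 0 := by
  classical
  have hm := hT.md_ne
  have hιm : D.ι (md T) ≠ 0 := fun h => hm (D.inj (by rw [h, map_zero]))
  set m' := md (T.erase p) with hm'
  have hmm : md T = p * m' := (Finset.mul_prod_erase T (fun x => x) hp).symm
  have hco : IsCoprime p m' := by
    refine prime_coprime D (hT.pr p hp) fun hd => ?_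
    obtain ⟨p', hp', hd'⟩ := ((hT.pr p hp).dvd_finsetProd_iff _).1 hd
    exact (Finset.mem_erase.1 hp').1 (hT.na p hp p' (Finset.mem_of_mem_erase hp') hd').symm
  obtain ⟨ν, hν⟩ := (qs_props D (hT.pr p hp) (hT.odd p hp)).2
  obtain ⟨a, b, hab⟩ := hco
  -- `x0 ≡ ν mod p`, `x0 ≡ 1 mod m'`
  set x0 := ν * (b * m') + a * p with hx0
  have h1 : p ∣ x0 - ν := ⟨a - ν * a, by linear_combination ν * hab⟩
  have h2 : m' ∣ x0 - 1 := ⟨ν * b - b, by linear_combination hab⟩
  have hchi : chi T x0 = -1 := by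
    unfold chi
    rw [← Finset.mul_prod_erase T _ hp, qs_prd p x0 ν h1, hν]
    have h3 : ∏ x ∈ T.erase p, qs x x0 = 1 := by
      refine Finset.prod_eq_one fun r hr => ?_
      rw [qs_prd r x0 1 ((dvd_md hr).trans h2)]
      exact qs_one (hT.pr r (Finset.mem_of_mem_erase hr))
    rw [h3, mul_one]
  have hnd : ∀ r ∈ T, ¬ r ∣ x0 := by
    intro r hr hd
    rw [chi_zero hr hd] at hchi
    norm_num at hchi
  have hco0 : IsCoprime x0 (md T) := (md_coprime D hT hnd).symm
  have hprd := (chi_prd (T := T) (m := md T) fun p hp => dvd_md hp).mul (ee_prd D hιm α)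
  have h3 := CRS.sum_unit hco0 (rs_CRS D hm) hprd
  have h4 : ∀ x ∈ rs D (md T), chi T (x0 * x) * ee D.δ (D.ι (α * (x0 * x)) / D.ι (md T)) =
      -(chi T x * ee D.δ (D.ι (α * x) / D.ι (md T))) := by
    intro x _
    obtain ⟨k, hk⟩ := h
    obtain ⟨l, hl⟩ := h2
    have h5 : D.ι (α * (x0 * x)) / D.ι (md T) = D.ι (α * x) / D.ι (md T) + D.ι (k * l * x) := by
      have h6 : α * (x0 * x) = α * x + md T * (k * l * x) := by
        rw [hmm]
        linear_combination (x * (x0 - 1)) * hk + (x * p * k) * hl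
      rw [h6, map_add, map_mul D.ι (md T)]
      field_simp
    rw [chi_mul D hT, hchi, h5, ee_add, D.dual1]
    ring
  rw [Finset.sum_congr rfl h4, Finset.sum_neg_distrib] at h3
  have h5 : gs D T α = -gs D T α := h3.symm
  have h6 : (2 : ℂ) * gs D T α = 0 := by linear_combination h5
  simpa using h6

lemma gs_eq (D : Ord O) [IsDomain O] {T : Finset O} (hT : Fam T) (α : O) :
    gs D T α = chi T α * gs D T 1 := by
  classical
  by_cases h : ∀ p ∈ T, ¬ p ∣ α
  · exact gs_coprime D hT h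
  · push Not at h
    obtain ⟨p, hp, hd⟩ := h
    rw [gs_zero D hT hp hd, chi_zero hp hd, zero_mul]

lemma gs_ne (D : Ord O) [IsDomain O] {T : Finset O} (hT : Fam T) : gs D T 1 ≠ 0 := by
  classical
  intro h0
  have hm := hT.md_ne
  have hιm : D.ι (md T) ≠ 0 := fun h => hm (D.inj (by rw [h, map_zero]))
  have hS := rs_CRS D hm
  have h1 : ∑ α ∈ rs D (md T), gs D T α * ee D.δ (-(D.ι α / D.ι (md T))) = 0 :=
    Finset.sum_eq_zero fun α _ => by rw [gs_eq D hT α, h0, mul_zero, zero_mul]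
  have h2 : ∑ α ∈ rs D (md T), gs D T α * ee D.δ (-(D.ι α / D.ι (md T))) =
      ∑ x ∈ rs D (md T), chi T x * ∑ α ∈ rs D (md T), ee D.δ (D.ι (α * (x - 1)) / D.ι (md T)) := by
    unfold gs
    simp only [Finset.sum_mul, Finset.mul_sum]
    rw [Finset.sum_comm]
    refine Finset.sum_congr rfl fun x _ => Finset.sum_congr rfl fun α _ => ?_
    rw [mul_assoc, ← ee_add]
    congr 2
    rw [mul_sub, map_sub, mul_one]
    ring
  rw [h2] at h1
  have h3 : ∀ x ∈ rs D (md T), chi T x * ∑ α ∈ rs D (md T),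
      ee D.δ (D.ι (α * (x - 1)) / D.ι (md T)) = if md T ∣ x - 1 then (D.nm (md T) : ℂ) else 0 := by
    intro x _
    rw [orth D hm hS]
    by_cases hx : md T ∣ x - 1
    · rw [if_pos hx, chi_prd (T := T) (m := md T) (fun p hp => dvd_md hp) x 1 hx,
        chi_one hT, one_mul]
    · rw [if_neg hx, mul_zero]
  rw [Finset.sum_congr rfl h3] at h1
  obtain ⟨x1, hx1, hd⟩ := hS.ex 1
  have hd' : md T ∣ x1 - 1 := by
    have : x1 - 1 = -(1 - x1) := by ring
    rw [this, dvd_neg]
    exact hd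
  have h4 : ∀ x ∈ rs D (md T), x ≠ x1 → (if md T ∣ x - 1 then (D.nm (md T) : ℂ) else 0) = 0 := by
    intro x hx hne
    refine if_neg fun h => hne (hS.un x hx x1 hx1 ?_)
    have : x - x1 = (x - 1) - (x1 - 1) := by ring
    rw [this]
    exact dvd_sub h hd'
  rw [Finset.sum_eq_single x1 h4 (fun h => absurd hx1 h), if_pos hd'] at h1
  have h5 := D.nm_pos hm
  have h6 : (D.nm (md T) : ℂ) ≠ 0 := by exact_mod_cast h5.ne'
  exact h6 h1

end Pool.Agent.K4H55.BI
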