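import Pool.Agent.K4H55.BI.Th

/-!
Entire continuation of the Dirichlet series and the value at `1`.
-/

set_option autoImplicit false

namespace Pool.Agent.K4H55.BI

open MeasureTheory Set Filter Topology

variable {O : Type} [CommRing O] {D : Ord O} {a : O → ℂ} {C : ℝ}

/-- the function `Θ(x) = T x th(T x)` -/
noncomputable def Tht (D : Ord O) (a : O → ℂ) (T : ℝ) (x : ℝ) : ℂ :=
  ((T * x : ℝ) : ℂ) * th D a 0 (T * x)

/-- the part of `Θ` on `(1, ∞)` -/
noncomputable def Thi (D : Ord O) (a : O → ℂ) (T : ℝ) : ℝ → ℂ :=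
  indicator (Ioi 1) (Tht D a T)

lemma Tht_continuousOn (ha : Cff D a C) {T : ℝ} (hT : 0 < T) :
    ContinuousOn (Tht D a T) (Ioi 0) := by
  unfold Tht
  refine ContinuousOn.mul ?_ ?_
  · exact (Complex.continuous_ofReal.comp (continuous_const.mul continuous_id)).continuousOn
  · refine (th_continuousOn ha 0).comp (by fun_prop) fun x hx => ?_
    exact mul_pos hT hx

lemma Thi_loc (ha : Cff D a C) {T : ℝ} (hT : 0 < T) :
    LocallyIntegrableOn (Thi D a T) (Ioi 0) := by
  have h1 : LocallyIntegrableOn (Tht D a T) (Ioi 0) :=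
    (Tht_continuousOn ha hT).locallyIntegrableOn measurableSet_Ioi
  intro x hx
  obtain ⟨s, hs, hs'⟩ := h1 x hx
  exact ⟨s, hs, hs'.indicator measurableSet_Ioi⟩

lemma Thi_top (ha : Cff D a C) {T : ℝ} (hT : 0 < T) (r : ℝ) :
    Thi D a T =O[atTop] (· ^ (-r)) := by
  obtain ⟨k, hk⟩ := exists_nat_gt r
  obtain ⟨B, hB, hle⟩ := th_le ha k
  rw [Asymptotics.isBigO_iff]
  refine ⟨B * T⁻¹ ^ (k + 2), ?_⟩
  filter_upwards [eventually_ge_atTop 1] with x hx
  have hx0 : 0 < x := by linarith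
  have h0 : ‖Thi D a T x‖ ≤ ‖Tht D a T x‖ := norm_indicator_le_norm_self _ _
  refine h0.trans ?_
  unfold Tht
  have h1 := hle 0 (T * x) (by positivity)
  rw [norm_mul, Complex.norm_real, Real.norm_eq_abs, abs_of_pos (by positivity),
    Real.norm_eq_abs, abs_of_pos (by positivity)]
  have h2 : x ^ (-(k : ℝ)) ≤ x ^ (-r) := Real.rpow_le_rpow_of_exponent_le hx (by linarith)
  have h3 : x⁻¹ ^ (k + 2) ≤ x ^ (-(k : ℝ)) := by
    rw [Real.rpow_neg hx0.le, Real.rpow_natCast, ← inv_pow]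
    exact pow_le_pow_of_le_one (by positivity) (inv_le_one_of_one_le₀ hx) (by omega)
  calc T * x * ‖th D a 0 (T * x)‖ ≤ T * x * (B * (T * x)⁻¹ ^ (k + 3)) := by gcongr
    _ = B * T⁻¹ ^ (k + 2) * x⁻¹ ^ (k + 2) := by
      have : (T * x)⁻¹ ^ (k + 3) = (T * x)⁻¹ ^ (k + 2) * (T * x)⁻¹ := pow_succ _ _
      rw [this, mul_inv, mul_pow]
      field_simp
    _ ≤ B * T⁻¹ ^ (k + 2) * x ^ (-r) := by
      have := h3.trans h2
      gcongr

lemma Thi_bot {T : ℝ} (r : ℝ) : Thi D a T =O[𝓝[>] 0] (· ^ (-r)) := by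
  refine Asymptotics.IsBigO.of_bound 1 ?_
  have h1 : Iio (1 : ℝ) ∈ 𝓝[>] (0 : ℝ) := nhdsWithin_le_nhds (Iio_mem_nhds one_pos)
  filter_upwards [h1] with x hx
  have hx' : x < 1 := hx
  unfold Thi
  rw [indicator_of_notMem (by simp [hx'.le]), norm_zero]
  positivity

lemma Thi_conv (ha : Cff D a C) {T : ℝ} (hT : 0 < T) (u : ℂ) :
    MellinConvergent (Thi D a T) u :=
  mellinConvergent_of_isBigO_rpow (Thi_loc ha hT) (Thi_top ha hT (u.re + 1)) (by linarith)
    (Thi_bot (u.re - 1)) (by linarith)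

lemma Thi_diff (ha : Cff D a C) {T : ℝ} (hT : 0 < T) : Differentiable ℂ (mellin (Thi D a T)) :=
  fun u => mellin_differentiableAt_of_isBigO_rpow (Thi_loc ha hT) (Thi_top ha hT (u.re + 1))
    (by linarith) (Thi_bot (u.re - 1)) (by linarith)

/-- the Mellin transform of `Θ` in terms of the parts -/
lemma Tht_parts (ha : Cff D a C) {T : ℝ} (hT : 0 < T) {ε A : ℂ}
    (hFE : ∀ x : ℝ, 0 < x → Tht D a T x = ε * Tht D a T x⁻¹ + A) {u : ℂ} (hu : 0 < u.re) :
    mellin (Tht D a T) u = mellin (Thi D a T) u + ε * mellin (Thi D a T) (-u) + A / u := by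
  have h1 := Thi_conv ha hT u
  have h2 : MellinConvergent (fun x => Thi D a T x⁻¹) u := by
    have := (MellinConvergent.comp_rpow (f := Thi D a T) (s := u) (a := -1) (by norm_num)).2 (by
      rw [show u / ((-1 : ℝ) : ℂ) = -u by push_cast; ring]
      exact Thi_conv ha hT (-u))
    simpa only [Real.rpow_neg_one] using this
  have h3 := hasMellin_one_Ioc hu
  have h2' := h2.const_smul ε
  have h3' := h3.1.const_smul A
  have h4 := hasMellin_add h1 h2'
  have h5 := hasMellin_add h4.1 h3'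
  have h6 : mellin (Tht D a T) u = mellin (fun x => (Thi D a T x + ε • Thi D a T x⁻¹) +
      A • indicator (Ioc 0 1) (fun _ => 1 : ℝ → ℂ) x) u := by
    unfold mellin
    refine integral_congr_ae ?_
    have h7 : ∀ᵐ x : ℝ ∂volume, x ≠ 1 := by
      have : ({1} : Set ℝ)ᶜ ∈ ae volume := compl_mem_ae_iff.2 (measure_singleton 1)
      filter_upwards [this] with x hx using hx
    refine (ae_restrict_iff' measurableSet_Ioi).2 ?_
    filter_upwards [h7] with x hx hx0
    have hx0' : (0 : ℝ) < x := hx0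
    congr 1
    unfold Thi
    rcases lt_or_gt_of_ne hx with h | h
    · have h8 : 1 < x⁻¹ := (one_lt_inv₀ hx0').2 h
      rw [indicator_of_notMem (show x ∉ Ioi 1 by simp [h.le]),
        indicator_of_mem (show x⁻¹ ∈ Ioi 1 from h8),
        indicator_of_mem (show x ∈ Ioc 0 1 from ⟨hx0', h.le⟩), hFE x hx0']
      simp
    · have h8 : x⁻¹ < 1 := inv_lt_one_of_one_lt₀ h
      rw [indicator_of_mem (show x ∈ Ioi 1 from h),
        indicator_of_notMem (show x⁻¹ ∉ Ioi 1 by simp [h8.le]),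
        indicator_of_notMem (show x ∉ Ioc 0 1 by simp [h])]
      simp
  rw [h6, h5.2, h4.2]
  have h9 := mellin_const_smul (fun x => Thi D a T x⁻¹) u ε
  have h10 := mellin_const_smul (indicator (Ioc 0 1) (fun _ => 1 : ℝ → ℂ)) u A
  rw [h9, h10, h3.2, mellin_comp_inv]
  simp only [smul_eq_mul]
  ring

/-- the Mellin transform of `Θ` -/
lemma Tht_mellin (ha : Cff D a C) {T : ℝ} (hT : 0 < T) {u : ℂ} (hu : 0 < u.re)
    (hs : Summable fun x => ‖a x‖ * (D.nm x : ℝ) ^ (-(u + 1).re)) :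
    mellin (Tht D a T) u = (T : ℂ) ^ (-u) * (Complex.Gamma (u + 1) * Complex.Gamma u *
      ∑' x, a x * (D.nm x : ℂ) ^ (-(u + 1))) := by
  have h1 : mellin (Tht D a T) u = (T : ℂ) ^ (-u) • mellin (fun y : ℝ => (y : ℂ) * th D a 0 y) u :=
    mellin_comp_mul_left (fun y : ℝ => (y : ℂ) * th D a 0 y) u hT
  have h2 : mellin (fun y : ℝ => (y : ℂ) * th D a 0 y) u = mellin (th D a 0) (u + 1) := by
    have := mellin_cpow_smul (th D a 0) u 1
    simpa only [Complex.cpow_one, smul_eq_mul] using this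
  have h3 := th_mellin ha (w := u + 1) (by simp; linarith) hs
  rw [h1, h2, h3.2, smul_eq_mul, add_sub_cancel_right]

/-- **Continuation.** -/
theorem continuation (ha : Cff D a C) {T : ℝ} (hT : 0 < T) {ε A : ℂ}
    (hFE : ∀ x : ℝ, 0 < x → Tht D a T x = ε * Tht D a T x⁻¹ + A) :
    ∃ G : ℂ → ℂ, Differentiable ℂ G ∧ (∀ s : ℂ, 1 < s.re →
      Summable (fun x => ‖a x‖ * (D.nm x : ℝ) ^ (-s.re)) →
      G s = ∑' x, a x * (D.nm x : ℂ) ^ (-s)) ∧ G 1 = A := by
  have hTc : (T : ℂ) ≠ 0 := by exact_mod_cast hT.ne'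
  have hE := Thi_diff ha hT
  refine ⟨fun s => (T : ℂ) ^ (s - 1) * (((mellin (Thi D a T) (s - 1) +
    ε * mellin (Thi D a T) (-(s - 1))) * (Complex.Gamma (s - 1))⁻¹ +
      A * (Complex.Gamma s)⁻¹) * (Complex.Gamma s)⁻¹), ?_, ?_, ?_⟩
  · have h1 : Differentiable ℂ fun s : ℂ => s - 1 := by fun_prop
    have h2 : Differentiable ℂ fun s : ℂ => -(s - 1) := by fun_prop
    have hG := Complex.differentiable_one_div_Gamma
    refine Differentiable.mul (fun s => ?_) (Differentiable.mul (Differentiable.add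
      (Differentiable.mul (Differentiable.add (hE.comp h1) ((differentiable_const _).mul
      (hE.comp h2))) (hG.comp h1)) ((differentiable_const _).mul hG)) hG)
    exact (h1 s).const_cpow (Or.inl hTc)
  · intro s hs hsum
    set u := s - 1 with hu
    have hsu : s = u + 1 := by rw [hu]; ring
    have hu0 : 0 < u.re := by rw [hu]; simp; linarith
    have hune : u ≠ 0 := by
      intro h
      rw [h] at hu0
      simp at hu0
    have h1 := Tht_parts ha hT hFE hu0
    have h2 := Tht_mellin ha hT hu0 (by rw [← hsu]; exact hsum)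
    have hΓ : Complex.Gamma u ≠ 0 := Complex.Gamma_ne_zero_of_re_pos hu0
    have hΓ1 : Complex.Gamma (u + 1) = u * Complex.Gamma u := Complex.Gamma_add_one u hune
    have h3 : mellin (Thi D a T) u + ε * mellin (Thi D a T) (-u) =
        (T : ℂ) ^ (-u) * (Complex.Gamma (u + 1) * Complex.Gamma u *
          ∑' x, a x * (D.nm x : ℂ) ^ (-(u + 1))) - A / u := by
      rw [← h2, h1]; ring
    rw [hsu]
    simp only [add_sub_cancel_right]
    rw [h3, hΓ1, Complex.cpow_neg]
    have hTu : (T : ℂ) ^ u ≠ 0 := by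
      rw [Complex.cpow_def_of_ne_zero hTc]
      exact Complex.exp_ne_zero _
    field_simp
    ring
  · simp [Complex.Gamma_zero]

end Pool.Agent.K4H55.BI
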