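import Pool.Agent.K4H55.BI.Cont

/-!
Complete residue systems.
-/

set_option autoImplicit false

namespace Pool.Agent.K4H55.BI

open Finset

variable {O : Type} [CommRing O]

/-- complete residue systems modulo `m` -/
structure CRS (m : O) (S : Finset O) : Prop where
  ex : ∀ y, ∃ x ∈ S, m ∣ y - x
  un : ∀ x ∈ S, ∀ x' ∈ S, m ∣ x - x' → x = x'

/-- periodic functions -/
def Prd (m : O) (g : O → ℂ) : Prop := ∀ x y, m ∣ x - y → g x = g y

lemma CRS.sum_eq {m : O} {S S' : Finset O} (hS : CRS m S) (hS' : CRS m S') {g : O → ℂ}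
    (hg : Prd m g) : ∑ x ∈ S, g x = ∑ x ∈ S', g x := by
  choose i hi1 hi2 using hS'.ex
  refine Finset.sum_bij (fun x _ => i x) (fun x _ => hi1 x) ?_ ?_ (fun x _ => hg _ _ (hi2 x))
  · intro x hx x' hx' h
    refine hS.un x hx x' hx' ?_
    have h1 := hi2 x
    have h2 := hi2 x'
    have h' : i x = i x' := h
    have h3 : x - x' = (x - i x) - (x' - i x') := by
      rw [h']; ring
    rw [h3]
    exact dvd_sub h1 h2
  · intro y hy
    obtain ⟨x, hx, h⟩ := hS.ex y
    refine ⟨x, hx, hS'.un _ (hi1 x) _ hy ?_⟩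
    have h3 : i x - y = -((x - i x) + (y - x)) := by ring
    rw [h3, dvd_neg]
    exact dvd_add (hi2 x) h

/-- representatives -/
lemma exists_CRS (D : Ord O) {m : O} (hm : m ≠ 0) : ∃ S : Finset O, CRS m S ∧ S.card = D.nm m := by
  classical
  have hc := D.card m hm
  have hfin : Finite (O ⧸ Ideal.span {m}) := by
    refine Nat.finite_of_card_ne_zero ?_
    rw [hc]
    exact (D.nm_pos hm).ne'
  have : Fintype (O ⧸ Ideal.span {m}) := Fintype.ofFinite _
  have hout : ∀ u : O ⧸ Ideal.span {m}, Ideal.Quotient.mk (Ideal.span {m}) (Quotient.out u) = u :=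
    fun u => Quotient.out_eq u
  refine ⟨(univ : Finset (O ⧸ Ideal.span {m})).image Quotient.out, ⟨?_, ?_⟩, ?_⟩
  · intro y
    refine ⟨Quotient.out (Ideal.Quotient.mk (Ideal.span {m}) y), mem_image_of_mem _ (mem_univ _), ?_⟩
    rw [← Ideal.mem_span_singleton, ← Ideal.Quotient.eq_zero_iff_mem, map_sub, hout, sub_self]
  · intro x hx x' hx' h
    obtain ⟨u, _, rfl⟩ := mem_image.1 hx
    obtain ⟨u', _, rfl⟩ := mem_image.1 hx'
    rw [← Ideal.mem_span_singleton, ← Ideal.Quotient.eq_zero_iff_mem, map_sub, hout, hout,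
      sub_eq_zero] at h
    rw [h]
  · rw [card_image_of_injective _ (fun u u' h => by
      have := congrArg (Ideal.Quotient.mk (Ideal.span {m})) h
      rwa [hout, hout] at this), card_univ, ← Nat.card_eq_fintype_card]
    exact hc

/-- the standard system of representatives -/
noncomputable def rs (D : Ord O) (m : O) : Finset O :=
  open Classical in if h : m ≠ 0 then (exists_CRS D h).choose else ∅

lemma rs_CRS (D : Ord O) {m : O} (hm : m ≠ 0) : CRS m (rs D m) := by
  unfold rs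
  rw [dif_pos hm]
  exact (exists_CRS D hm).choose_spec.1

lemma rs_card (D : Ord O) {m : O} (hm : m ≠ 0) : (rs D m).card = D.nm m := by
  unfold rs
  rw [dif_pos hm]
  exact (exists_CRS D hm).choose_spec.2

/-- products -/
lemma CRS.sum_prod [IsDomain O] {m q : O} (hm : m ≠ 0) {S Q P : Finset O} (hS : CRS m S)
    (hQ : CRS q Q) (hP : CRS (m * q) P) {g : O → ℂ} (hg : Prd (m * q) g) :
    ∑ x ∈ P, g x = ∑ y ∈ S, ∑ b ∈ Q, g (y + m * b) := by
  classical
  have hinj : ∀ y ∈ S, ∀ b ∈ Q, ∀ y' ∈ S, ∀ b' ∈ Q, m * q ∣ (y + m * b) - (y' + m * b') →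
      y = y' ∧ b = b' := by
    intro y hy b hb y' hy' b' hb' h
    have h1 : m ∣ y - y' := by
      have h2 : y - y' = ((y + m * b) - (y' + m * b')) - m * (b - b') := by ring
      rw [h2]
      exact dvd_sub ((dvd_mul_right m q).trans h) (dvd_mul_right _ _)
    have h3 := hS.un y hy y' hy' h1
    refine ⟨h3, ?_⟩
    subst h3
    refine hQ.un b hb b' hb' ?_
    have h4 : (y + m * b) - (y + m * b') = m * (b - b') := by ring
    rw [h4] at h
    exact (mul_dvd_mul_iff_left hm).1 h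
  have hR : CRS (m * q) ((S ×ˢ Q).image fun p => p.1 + m * p.2) := by
    refine ⟨fun y => ?_, ?_⟩
    · obtain ⟨s, hs, k, hk⟩ := hS.ex y
      obtain ⟨b, hb, l, hl⟩ := hQ.ex k
      refine ⟨s + m * b, mem_image.2 ⟨(s, b), mem_product.2 ⟨hs, hb⟩, rfl⟩, l, ?_⟩
      linear_combination hk + m * hl
    · intro x hx x' hx' h
      obtain ⟨⟨s, b⟩, hp, rfl⟩ := mem_image.1 hx
      obtain ⟨⟨s', b'⟩, hp', rfl⟩ := mem_image.1 hx'
      obtain ⟨h1, h2⟩ := mem_product.1 hp
      obtain ⟨h1', h2'⟩ := mem_product.1 hp'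
      obtain ⟨h3, h4⟩ := hinj s h1 b h2 s' h1' b' h2' h
      simp only at h3 h4 ⊢
      rw [h3, h4]
  rw [hP.sum_eq hR hg, sum_image, sum_product]
  rintro ⟨s, b⟩ hp ⟨s', b'⟩ hp' h
  obtain ⟨h1, h2⟩ := mem_product.1 hp
  obtain ⟨h1', h2'⟩ := mem_product.1 hp'
  simp only at h
  obtain ⟨h3, h4⟩ := hinj s h1 b h2 s' h1' b' h2' (by rw [h, sub_self]; exact dvd_zero _)
  simp only [Prod.mk.injEq]
  exact ⟨h3, h4⟩

/-- multiplication by units -/
lemma CRS.sum_unit {m u : O} (hu : IsCoprime u m) {S : Finset O} (hS : CRS m S) {g : O → ℂ}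
    (hg : Prd m g) : ∑ x ∈ S, g (u * x) = ∑ x ∈ S, g x := by
  classical
  have hinj : ∀ x ∈ S, ∀ x' ∈ S, m ∣ u * x - u * x' → x = x' := by
    intro x hx x' hx' h
    refine hS.un x hx x' hx' (hu.symm.dvd_of_dvd_mul_left (by rwa [mul_sub]))
  have hR : CRS m (S.image (u * ·)) := by
    refine ⟨fun y => ?_, ?_⟩
    · obtain ⟨a, b, hab⟩ := hu
      obtain ⟨x, hx, k, hk⟩ := hS.ex (a * y)
      refine ⟨u * x, mem_image_of_mem _ hx, b * y + u * k, ?_⟩
      linear_combination -y * hab + u * hk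
    · intro x hx x' hx' h
      obtain ⟨z, hz, rfl⟩ := mem_image.1 hx
      obtain ⟨z', hz', rfl⟩ := mem_image.1 hx'
      rw [hinj z hz z' hz' h]
  rw [hS.sum_eq hR hg, sum_image]
  intro x hx x' hx' h
  exact hinj x hx x' hx' (by simp only at h; rw [h, sub_self]; exact dvd_zero _)

/-- the multiples of `q` -/
lemma CRS.sum_mul [IsDomain O] {m q : O} (hq : q ≠ 0) {S P : Finset O} (hS : CRS m S)
    (hP : CRS (m * q) P) {g : O → ℂ} (hg : Prd (m * q) g) :
    (∑ x ∈ P, open Classical in if q ∣ x then g x else 0) = ∑ x ∈ S, g (q * x) := by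
  classical
  rw [← Finset.sum_filter]
  choose i hi1 hi2 using hP.ex
  symm
  refine Finset.sum_bij (fun x _ => i (q * x)) ?_ ?_ ?_ (fun x _ => hg _ _ (hi2 _))
  · intro x _
    rw [mem_filter]
    refine ⟨hi1 _, ?_⟩
    have h1 := hi2 (q * x)
    have h3 : i (q * x) = q * x - (q * x - i (q * x)) := by ring
    rw [h3]
    exact dvd_sub (dvd_mul_right _ _) ((dvd_mul_left q m).trans h1)
  · intro x hx x' hx' h
    refine hS.un x hx x' hx' ?_
    have h1 := hi2 (q * x)
    have h2 := hi2 (q * x')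
    have h' : i (q * x) = i (q * x') := h
    have h3 : q * (x - x') = (q * x - i (q * x)) - (q * x' - i (q * x')) := by
      rw [h']; ring
    have h4 : m * q ∣ q * (x - x') := by
      rw [h3]
      exact dvd_sub h1 h2
    rw [mul_comm m q] at h4
    exact (mul_dvd_mul_iff_left hq).1 h4
  · intro y hy
    rw [mem_filter] at hy
    obtain ⟨k, hk⟩ := hy.2
    obtain ⟨x, hx, h⟩ := hS.ex k
    refine ⟨x, hx, hP.un _ (hi1 _) _ hy.1 ?_⟩
    have h3 : i (q * x) - y = -((q * x - i (q * x)) + (k - x) * q) := by rw [hk]; ring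
    rw [h3, dvd_neg]
    exact dvd_add (hi2 _) (mul_dvd_mul_right h q)

/-- **The step.** -/
theorem step [IsDomain O] (ι : O →+* ℂ) (hι : Function.Injective ι) {f : ℂ → ℂ}
    (hf : ∀ z y, f (z + ι y) = f z) {m q : O}
    (hm : m ≠ 0) (hq : q ≠ 0) (hco : IsCoprime q m) {X : O → ℂ} (hX : Prd m X)
    (hXm : ∀ x y, X (x * y) = X x * X y) (hXq : X q * X q = 1) {cq : ℂ} {S Q P : Finset O}
    (hS : CRS m S) (hQ : CRS q Q) (hP : CRS (m * q) P)
    (hh : ∀ x, cq * f (ι x / ι m) = f (ι q * (ι x / ι m)) + ∑ b ∈ Q, f ((ι x / ι m + ι b) / ι q)) :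
    (∑ x ∈ P, open Classical in if q ∣ x then 0 else X x * f (ι x / ι (m * q))) =
      (cq - 2 * X q) * ∑ x ∈ S, X x * f (ι x / ι m) := by
  classical
  have hιm : ι m ≠ 0 := fun h => hm (hι (by rw [h, map_zero]))
  have hιq : ι q ≠ 0 := fun h => hq (hι (by rw [h, map_zero]))
  have hfm : Prd m fun x => f (ι x / ι m) := by
    rintro x y ⟨k, hk⟩
    have hx : x = y + m * k := by linear_combination hk
    have : ι x / ι m = ι y / ι m + ι k := by
      rw [hx, map_add, map_mul]
      field_simp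
    simp only
    rw [this, hf]
  have hfmq : Prd (m * q) fun x => f (ι x / ι (m * q)) := by
    rintro x y ⟨k, hk⟩
    have hx : x = y + m * q * k := by linear_combination hk
    have : ι x / ι (m * q) = ι y / ι (m * q) + ι k := by
      rw [hx, map_add, map_mul, map_mul]
      field_simp
    simp only
    rw [this, hf]
  have hXmq : Prd (m * q) X := fun x y h => hX x y ((dvd_mul_right m q).trans h)
  set g : O → ℂ := fun x => X x * f (ι x / ι (m * q)) with hg
  have hgp : Prd (m * q) g := fun x y h => by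
    show X x * f (ι x / ι (m * q)) = X y * f (ι y / ι (m * q))
    have h1 := hfmq x y h
    simp only at h1
    rw [hXmq x y h, h1]
  have h1 : ∀ x, (if q ∣ x then (0 : ℂ) else X x * f (ι x / ι (m * q))) =
      g x - (if q ∣ x then g x else 0) := by
    intro x
    split_ifs <;> simp [hg]
  rw [Finset.sum_congr rfl fun x _ => h1 x, Finset.sum_sub_distrib]
  have h2 := CRS.sum_prod hm hS hQ hP hgp
  have h3 := CRS.sum_mul hq hS hP hgp
  rw [h2, h3]
  have h4 : ∀ y ∈ S, ∑ b ∈ Q, g (y + m * b) =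
      X y * (cq * f (ι y / ι m) - f (ι q * (ι y / ι m))) := by
    intro y _
    have h5 : ∀ b ∈ Q, g (y + m * b) = X y * f ((ι y / ι m + ι b) / ι q) := by
      intro b _
      have h6 : X (y + m * b) = X y := hX _ _ ⟨b, by ring⟩
      have h7 : ι (y + m * b) / ι (m * q) = (ι y / ι m + ι b) / ι q := by
        rw [map_add, map_mul, map_mul]
        field_simp
      simp only [hg]
      rw [h6, h7]
    rw [Finset.sum_congr rfl h5, ← Finset.mul_sum, hh y]
    ring
  have h5 : ∀ x ∈ S, g (q * x) = X q * (X x * f (ι x / ι m)) := by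
    intro x _
    have h7 : ι (q * x) / ι (m * q) = ι x / ι m := by
      rw [map_mul, map_mul]
      field_simp
    simp only [hg]
    rw [hXm, h7]
    ring
  have h6 : ∑ y ∈ S, X y * f (ι q * (ι y / ι m)) = X q * ∑ y ∈ S, X y * f (ι y / ι m) := by
    have hp : Prd m fun x => X x * f (ι x / ι m) := fun x y h => by
      have h8 := hfm x y h
      simp only at h8 ⊢
      rw [hX x y h, h8]
    have h9 := CRS.sum_unit hco hS hp
    rw [← h9, Finset.mul_sum]
    refine Finset.sum_congr rfl fun y _ => ?_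
    rw [hXm, map_mul]
    have : ι q * ι y / ι m = ι q * (ι y / ι m) := by ring
    rw [this]
    linear_combination (-(X y) * f (ι q * (ι y / ι m))) * hXq
  rw [Finset.sum_congr rfl h4, Finset.sum_congr rfl h5, ← Finset.mul_sum]
  have h7 : ∑ y ∈ S, X y * (cq * f (ι y / ι m) - f (ι q * (ι y / ι m))) =
      cq * ∑ y ∈ S, X y * f (ι y / ι m) - ∑ y ∈ S, X y * f (ι q * (ι y / ι m)) := by
    rw [Finset.mul_sum, ← Finset.sum_sub_distrib]
    refine Finset.sum_congr rfl fun y _ => ?_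
    ring
  rw [h7, h6]
  ring

end Pool.Agent.K4H55.BI
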