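import Pool.Agent.K4H55.BI.Hk
import Pool.Agent.Y18.LP.Comb
import Pool.Agent.Y18.LP.Rng
import Pool.Agent.Y18.LP.Abs

/-!
The sums attached to quadratic characters and the corrections.
-/

set_option autoImplicit false

namespace Pool.Agent.K4H55.BI

open Finset Filter Topology Pool.Agent.Y18.LP

variable {O : Type} [CommRing O] {D : Ord O} {n : O} {c : O → ℂ} {C : ℝ} {w : ℂ}
  {M : Submodule ℤ ℂ}

open Classical in
/-- the indicator of the elements prime to `S` -/
noncomputable def cop (S : Finset O) (x : O) : ℂ := ∏ p ∈ S, if p ∣ x then 0 else 1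

lemma cop_prd {S : Finset O} {m : O} (h : ∀ p ∈ S, p ∣ m) : Prd m (cop S) := by
  classical
  intro x y hxy
  unfold cop
  refine Finset.prod_congr rfl fun p hp => ?_
  have h1 : p ∣ x - y := (h p hp).trans hxy
  have h2 : p ∣ x ↔ p ∣ y := by
    constructor
    · intro hx
      have : y = x - (x - y) := by ring
      rw [this]
      exact dvd_sub hx h1
    · intro hy
      have : x = y + (x - y) := by ring
      rw [this]
      exact dvd_add hy h1
  simp only [h2]

lemma cop_mul {S : Finset O} (hS : ∀ p ∈ S, Prime p) (x y : O) :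
    cop S (x * y) = cop S x * cop S y := by
  classical
  unfold cop
  rw [← Finset.prod_mul_distrib]
  refine Finset.prod_congr rfl fun p hp => ?_
  have h := (hS p hp).dvd_mul (a := x) (b := y)
  by_cases h1 : p ∣ x <;> by_cases h2 : p ∣ y <;> simp [h, h1, h2]

lemma cop_one_of {S : Finset O} {x : O} (h : ∀ p ∈ S, ¬ p ∣ x) : cop S x = 1 := by
  classical
  unfold cop
  exact Finset.prod_eq_one fun p hp => if_neg (h p hp)

lemma cop_zero_of {S : Finset O} {x p : O} (hp : p ∈ S) (h : p ∣ x) : cop S x = 0 := by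
  classical
  unfold cop
  exact Finset.prod_eq_zero hp (if_pos h)

/-- the sum for the modulus `S` and the character `T` -/
noncomputable def st (D : Ord O) (f : ℂ → ℂ) (S T : Finset O) : ℂ :=
  ∑ x ∈ rs D (md S), cop S x * chi T x * f (D.ι x / D.ι (md S))

/-- the value -/
noncomputable def bt (D : Ord O) (f : ℂ → ℂ) (T : Finset O) : ℂ :=
  ∑ x ∈ rs D (md T), chi T x * f (D.ι x / D.ι (md T))

lemma st_self (f : ℂ → ℂ) (T : Finset O) : st D f T T = bt D f T := by
  classical
  unfold st bt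
  refine Finset.sum_congr rfl fun x _ => ?_
  by_cases h : ∀ p ∈ T, ¬ p ∣ x
  · rw [cop_one_of h, one_mul]
  · push Not at h
    obtain ⟨p, hp, hd⟩ := h
    rw [cop_zero_of hp hd, chi_zero hp hd]
    ring

lemma md_insert [DecidableEq O] {S : Finset O} {q : O} (hq : q ∉ S) :
    md (insert q S) = md S * q := by
  unfold md
  rw [Finset.prod_insert hq, mul_comm]

lemma Fam.insert_dvd {S : Finset O} [DecidableEq O] {q : O} (hS : Fam (insert q S)) (hq : q ∉ S) :
    ∀ p ∈ S, ¬ p ∣ q := fun p hp h =>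
  hq (hS.na p (Finset.mem_insert_of_mem hp) q (Finset.mem_insert_self q S) h ▸ hp)

lemma Fam.insert_dvd' {S : Finset O} [DecidableEq O] {q : O} (hS : Fam (insert q S)) (hq : q ∉ S) :
    ∀ p ∈ S, ¬ q ∣ p := fun p hp h =>
  hq ((hS.na q (Finset.mem_insert_self q S) p (Finset.mem_insert_of_mem hp) h).symm ▸ hp)

/-- the step -/
theorem st_step [IsDomain O] [DecidableEq O] (h : MG D n c C w M) {S T : Finset O} {q : O}
    (hq : q ∉ S) (hS : Fam (insert q S)) (hn : ∀ p ∈ insert q S, ¬ p ∣ n) (hT : T ⊆ S) :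
    st D (fv D c) (insert q S) T = (c q - 2 * chi T q) * st D (fv D c) S T := by
  classical
  have hS' : Fam S := hS.mono (Finset.subset_insert q S)
  have hT' : Fam T := hS'.mono hT
  have hqp : Prime q := hS.pr q (Finset.mem_insert_self q S)
  have hm := hS'.md_ne
  have hco : IsCoprime q (md S) := by
    refine prime_coprime D hqp fun hd => ?_
    obtain ⟨p, hp, hd'⟩ := (hqp.dvd_finsetProd_iff _).1 hd
    exact hS.insert_dvd' hq p hp hd'
  have hmn : IsCoprime (md S) n := md_coprime D hS' fun p hp => hn p (Finset.mem_insert_of_mem hp)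
  have hqn : ¬ q ∣ n := hn q (Finset.mem_insert_self q S)
  have hX : Prd (md S) fun x => cop S x * chi T x :=
    (cop_prd fun p hp => dvd_md hp).mul (chi_prd fun p hp => dvd_md (hT hp))
  have h1 : ∀ p ∈ S, ¬ p ∣ q := hS.insert_dvd hq
  have hP : CRS (md S * q) (rs D (md S * q)) := rs_CRS D (mul_ne_zero hm hqp.ne_zero)
  have h2 := step D.ι D.inj (fv_periodic D c) hm hqp.ne_zero hco hX
    (fun x y => by rw [cop_mul hS'.pr, chi_mul D hT']; ring)
    (by rw [cop_one_of h1, one_mul, chi_sq fun p hp => h1 p (hT hp)])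
    (rs_CRS D hm) (rs_CRS D hqp.ne_zero) hP (cq := c q)
    (fun x => h.hecke hqp hqn (rs_CRS D hqp.ne_zero) hm hmn)
  unfold st
  rw [md_insert hq]
  rw [cop_one_of h1, one_mul] at h2
  rw [← h2]
  refine Finset.sum_congr rfl fun x _ => ?_
  have h3 : cop (insert q S) x = (if q ∣ x then 0 else 1) * cop S x := by
    unfold cop
    rw [Finset.prod_insert hq]
  rw [h3]
  split_ifs
  · ring
  · ring

theorem st_prod [IsDomain O] [DecidableEq O] (h : MG D n c C w M) {T : Finset O} (R : Finset O) :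
    Disjoint R T → Fam (R ∪ T) → (∀ p ∈ R ∪ T, ¬ p ∣ n) →
    st D (fv D c) (R ∪ T) T = (∏ q ∈ R, (c q - 2 * chi T q)) * bt D (fv D c) T := by
  induction R using Finset.induction_on with
  | empty =>
    intro _ _ _
    rw [Finset.empty_union, st_self, Finset.prod_empty, one_mul]
  | insert q R hq ih =>
    intro hd hF hn
    have hqT : q ∉ T := fun h => Finset.disjoint_left.1 hd (Finset.mem_insert_self q R) h
    have hqRT : q ∉ R ∪ T := by simp [hq, hqT]
    rw [Finset.insert_union] at hF hn ⊢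
    rw [st_step h hqRT hF hn Finset.subset_union_right,
      ih (hd.mono_left (Finset.subset_insert q R)) (hF.mono (Finset.subset_insert _ _))
        (fun p hp => hn p (Finset.mem_insert_of_mem hp)), Finset.prod_insert hq, mul_assoc]

open Classical in
/-- the support of a family of signs -/
noncomputable def sp (c : O → ℤˣ) : Finset O :=
  if h : {p | c p ≠ 1}.Finite then h.toFinset else ∅

lemma mem_sp {e : O → ℤˣ} (h : {p | e p ≠ 1}.Finite) (p : O) : p ∈ sp e ↔ e p ≠ 1 := by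
  unfold sp
  rw [dif_pos h]
  simp

/-- the group of signs `H` is supported in `A` -/
structure Ok (H : Subgroup (O → ℤˣ)) (A : Set O) : Prop where
  fin : ∀ c ∈ H, {p | c p ≠ 1}.Finite
  adm : ∀ c ∈ H, ∀ p, c p ≠ 1 → p ∈ A

/-- evaluation at `x`, a character of the signs -/
noncomputable def ev (S : Finset O) (x : O) (e : O → ℤˣ) : ℂ :=
  ∏ p ∈ S, if e p = 1 then 1 else qs p x

lemma ev_eq {S : Finset O} {x : O} {e : O → ℤˣ} (h : {p | e p ≠ 1}.Finite) (hS : sp e ⊆ S) :
    ev S x e = chi (sp e) x := by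
  classical
  unfold ev chi
  rw [← Finset.prod_subset hS (f := fun p => if e p = 1 then 1 else qs p x) fun p _ hp => by
    have h1 : e p = 1 := by
      by_contra hne
      exact hp ((mem_sp h p).2 hne)
    rw [if_pos h1]]
  refine Finset.prod_congr rfl fun p hp => ?_
  rw [if_neg ((mem_sp h p).1 hp)]

lemma ev_mul {S : Finset O} {x : O} (hx : ∀ p ∈ S, ¬ p ∣ x) (e e' : O → ℤˣ) :
    ev S x (e * e') = ev S x e * ev S x e' := by
  classical
  unfold ev
  rw [← Finset.prod_mul_distrib]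
  refine Finset.prod_congr rfl fun p hp => ?_
  have hsq := qs_sq (hx p hp)
  rcases Int.units_eq_one_or (e p) with h1 | h1 <;> rcases Int.units_eq_one_or (e' p) with h2 | h2
  · simp [h1, h2]
  · simp [h1, h2]
  · simp [h1, h2]
  · simp [h1, h2, hsq]

lemma ev_sq {S : Finset O} {x : O} (hx : ∀ p ∈ S, ¬ p ∣ x) (e : O → ℤˣ) :
    ev S x e ^ 2 = 1 := by
  classical
  unfold ev
  rw [← Finset.prod_pow]
  refine Finset.prod_eq_one fun p hp => ?_
  split_ifs
  · norm_num
  · rw [sq]
    exact qs_sq (hx p hp)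

lemma ev_one {S : Finset O} {x : O} : ev S x 1 = 1 := by
  unfold ev
  exact Finset.prod_eq_one fun p _ => if_pos rfl

/-- the values -/
def VV (D : Ord O) (n : O) (c : O → ℂ) : Set ℂ :=
  {z | ∃ x m : O, m ≠ 0 ∧ IsCoprime m n ∧ z = fv D c (D.ι x / D.ι m)}

lemma VV_fg [IsDomain O] (h : MG D n c C w M) : (Submodule.span ℤ (VV D n c)).FG := by
  have hM : Module.Finite ℤ M := Module.Finite.iff_fg.2 h.fg
  have hle : Submodule.span ℤ (VV D n c) ≤ M := by
    rw [Submodule.span_le]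
    rintro z ⟨x, m, hm, hmn, rfl⟩
    exact h.mem hm hmn
  have : IsNoetherian ℤ M := isNoetherian_of_isNoetherianRing_of_finite ℤ M
  have h1 := (isNoetherian_submodule.1 this) _ hle
  exact h1

lemma bt_mem [IsDomain O] {R : Subring ℂ} {T : Finset O} (hT : Fam T) (hn : ∀ p ∈ T, ¬ p ∣ n)
    (e : O → ℤˣ) (he : {p | e p ≠ 1}.Finite) (heT : sp e = T) :
    bt D (fv D c) T ∈ Submodule.span R (VV D n c) := by
  classical
  unfold bt
  refine Submodule.sum_mem _ fun x _ => ?_
  by_cases h : ∀ p ∈ T, ¬ p ∣ x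
  · have h1 : chi T x = 1 ∨ chi T x = -1 := by
      have := chi_sq h
      exact mul_self_eq_one_iff.1 this
    have h2 : fv D c (D.ι x / D.ι (md T)) ∈ Submodule.span R (VV D n c) :=
      Submodule.subset_span ⟨x, md T, hT.md_ne, md_coprime D hT hn, rfl⟩
    rcases h1 with h1 | h1
    · rw [h1, one_mul]; exact h2
    · rw [h1, neg_one_mul]; exact Submodule.neg_mem _ h2
  · push Not at h
    obtain ⟨p, hp, hd⟩ := h
    rw [chi_zero hp hd, zero_mul]
    exact Submodule.zero_mem _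

/-- the sums are combinations of characters of `H` -/
lemma st_comb [IsDomain O] {R : Subring ℂ} {H : Subgroup (O → ℤˣ)} {A : Set O} (hH : Ok H A)
    {S : Finset O} (hS : Fam S) (hn : ∀ p ∈ S, ¬ p ∣ n) :
    (fun e : H => ∑ x ∈ rs D (md S), cop S x * ev S x e * fv D c (D.ι x / D.ι (md S))) ∈
      Comb H 2 (Submodule.span R (VV D n c)) := by
  classical
  have h1 : (fun e : H => ∑ x ∈ rs D (md S), cop S x * ev S x e * fv D c (D.ι x / D.ι (md S))) =
      ∑ x ∈ rs D (md S), fun e : H => cop S x * ev S x e * fv D c (D.ι x / D.ι (md S)) := by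
    funext e
    rw [Finset.sum_apply]
  rw [h1]
  refine AddSubgroup.sum_mem _ fun x _ => ?_
  by_cases h : ∀ p ∈ S, ¬ p ∣ x
  · rw [cop_one_of h]
    let E : H →* ℂ :=
      { toFun := fun e => ev S x e
        map_one' := ev_one
        map_mul' := fun e e' => by rw [Subgroup.coe_mul, ev_mul h] }
    have h4 : fv D c (D.ι x / D.ι (md S)) ∈ Submodule.span R (VV D n c) :=
      Submodule.subset_span ⟨x, md S, hS.md_ne, md_coprime D hS hn, rfl⟩
    have h5 := Comb.gen (Γ := H) (e := 2) h4 E fun e => ev_sq h e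
    have h6 : (fun e : H => 1 * ev S x e * fv D c (D.ι x / D.ι (md S))) =
        fun e : H => fv D c (D.ι x / D.ι (md S)) * E e := by
      funext e
      show 1 * ev S x e * fv D c (D.ι x / D.ι (md S)) = fv D c (D.ι x / D.ι (md S)) * ev S x e
      ring
    rw [h6]
    exact h5
  · push Not at h
    obtain ⟨p, hp, hd⟩ := h
    rw [cop_zero_of hp hd]
    have : (fun e : H => (0 : ℂ) * ev S x e * fv D c (D.ι x / D.ι (md S))) = 0 := by
      funext e
      simp
    rw [this]
    exact AddSubgroup.zero_mem _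

lemma st_ev {S : Finset O} {e : O → ℤˣ} (h : {p | e p ≠ 1}.Finite) (hS : sp e ⊆ S) :
    ∑ x ∈ rs D (md S), cop S x * ev S x e * fv D c (D.ι x / D.ι (md S)) =
      st D (fv D c) S (sp e) := by
  unfold st
  refine Finset.sum_congr rfl fun x _ => ?_
  rw [ev_eq h hS]

/-- an odd set of primes -/
structure AdS (n : O) (A : Set O) : Prop where
  pr : ∀ p ∈ A, Prime p
  odd : ∀ p ∈ A, ¬ p ∣ 2
  na : ∀ p ∈ A, ∀ p' ∈ A, p ∣ p' → p = p'
  nn : ∀ p ∈ A, ¬ p ∣ n

lemma AdS.fam {A : Set O} (hA : AdS n A) {S : Finset O} (h : ∀ p ∈ S, p ∈ A) : Fam S :=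
  ⟨fun p hp => hA.pr p (h p hp), fun p hp => hA.odd p (h p hp),
    fun p hp p' hp' => hA.na p (h p hp) p' (h p' hp')⟩

theorem good [IsDomain O] (hMG : MG D n c C w M) {R : Subring ℂ} (al : O → R) {P : Ideal R}
    (hP : P.IsPrime) (hP2 : (2 : R) ∈ P) {H : Subgroup (O → ℤˣ)} {A : Set O} (hH : Ok H A)
    (hA : AdS n A) (hal : ∀ q ∈ A, (al q : ℂ) = c q ∧ al q ∉ P) :
    Good 2 P (Submodule.span R (VV D n c)) (fun e : H => bt D (fv D c) (sp (e : O → ℤˣ))) := by
  classical
  have hsp : ∀ e : H, ∀ q ∈ sp (e : O → ℤˣ), q ∈ A := fun e q hq =>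
    hH.adm e e.2 q ((mem_sp (hH.fin e e.2) q).1 hq)
  refine ⟨fun e => bt_mem (hA.fam (hsp e)) (fun p hp => hA.nn p (hsp e p hp)) e (hH.fin e e.2) rfl,
    ?_⟩
  have hprod : ∀ S : Finset O, (∀ q ∈ S, q ∈ A) → ∏ q ∈ S, al q ∉ P := by
    intro S hS h
    obtain ⟨q, hq, h1⟩ := (hP.prod_mem_iff).1 h
    exact (hal q (hS q hq)).2 h1
  refine ⟨fun e => ∏ q ∈ sp (e : O → ℤˣ), al q, fun e => hprod _ (hsp e), fun Q => ?_⟩
  set S : Finset O := Q.biUnion (fun e => sp (e : O → ℤˣ)) with hS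
  have hSA : ∀ q ∈ S, q ∈ A := by
    intro q hq
    obtain ⟨e, _, h1⟩ := Finset.mem_biUnion.1 hq
    exact hsp e q h1
  refine ⟨_, st_comb (R := R) (c := c) hH (hA.fam hSA) (fun p hp => hA.nn p (hSA p hp)),
    ∏ q ∈ S, al q, hprod S hSA, ?_⟩
  intro e he
  have hsub : sp (e : O → ℤˣ) ⊆ S := Finset.subset_biUnion_of_mem (fun e : H => sp (e : O → ℤˣ)) he
  have h1 := st_prod hMG (T := sp (e : O → ℤˣ)) (S \ sp (e : O → ℤˣ)) Finset.sdiff_disjoint
    (by rw [Finset.sdiff_union_of_subset hsub]; exact hA.fam hSA)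
    (by rw [Finset.sdiff_union_of_subset hsub]; exact fun p hp => hA.nn p (hSA p hp))
  rw [Finset.sdiff_union_of_subset hsub] at h1
  -- the signs
  have hsg : ∀ q ∈ S \ sp (e : O → ℤˣ), ∃ u : R, (u : ℂ) = chi (sp (e : O → ℤˣ)) q := by
    intro q hq
    have h2 : ∀ p ∈ sp (e : O → ℤˣ), ¬ p ∣ q := by
      intro p hp hd
      have h3 := hA.na p (hSA p (hsub hp)) q (hSA q (Finset.sdiff_subset hq)) hd
      exact (Finset.mem_sdiff.1 hq).2 (h3 ▸ hp)
    rcases mul_self_eq_one_iff.1 (chi_sq h2) with h3 | h3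
    · exact ⟨1, by rw [h3]; rfl⟩
    · exact ⟨-1, by rw [h3]; simp⟩
  choose! u hu using hsg
  refine ⟨∏ q ∈ S \ sp (e : O → ℤˣ), (al q - 2 * u q), ?_, ?_⟩
  · rw [← Ideal.Quotient.eq_zero_iff_mem, map_sub, map_mul, sub_eq_zero, map_prod, map_prod,
      map_prod]
    have h2 : ∏ q ∈ S \ sp (e : O → ℤˣ), Ideal.Quotient.mk P (al q - 2 * u q) =
        ∏ q ∈ S \ sp (e : O → ℤˣ), Ideal.Quotient.mk P (al q) := by
      refine Finset.prod_congr rfl fun q _ => ?_
      rw [← sub_eq_zero, ← map_sub, Ideal.Quotient.eq_zero_iff_mem]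
      have h3 : al q - 2 * u q - al q = -(u q) * 2 := by ring
      rw [h3]
      exact P.mul_mem_left _ hP2
    rw [h2, Finset.prod_sdiff hsub]
  · show ∑ x ∈ rs D (md S), cop S x * ev S x e * fv D c (D.ι x / D.ι (md S)) = _
    rw [st_ev (hH.fin e e.2) hsub, h1, Subring.smul_def, smul_eq_mul]
    congr 1
    rw [← Subring.subtype_apply, map_prod]
    refine Finset.prod_congr rfl fun q hq => ?_
    rw [map_sub, map_mul]
    simp only [Subring.subtype_apply]
    rw [(hal q (hSA q (Finset.sdiff_subset hq))).1, hu q hq]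
    congr 2

end Pool.Agent.K4H55.BI
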