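import Pool.Agent.K4H55.BI.Per
import Pool.Agent.K4H55.BI.Corr

/-!
Euler products.
-/

set_option autoImplicit false

namespace Pool.Agent.K4H55.BI

open Filter Topology

variable {O : Type} [CommRing O] [IsDomain O]

/-- the number of units -/
noncomputable def nu (O : Type) [CommRing O] : ℂ :=
  open Classical in ∑' x : O, if IsUnit x then (1 : ℂ) else 0

lemma nm_one (D : Ord O) : D.nm 1 = 1 := by
  have := D.nm_eq 1
  rw [map_one, norm_one, one_pow] at this
  exact_mod_cast this

lemma nm_unit (D : Ord O) {x : O} (hx : IsUnit x) : D.nm x = 1 := by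
  obtain ⟨y, hy⟩ := hx.exists_right_inv
  have := congrArg D.nm hy
  rw [D.nm_mul, nm_one D] at this
  exact Nat.eq_one_of_mul_eq_one_right this

lemma unit_fin (D : Ord O) : {x : O | IsUnit x}.Finite :=
  (small_fin D 1).subset fun x hx => by
    show D.nm x ≤ 1
    rw [nm_unit D hx]

lemma nu_ne (D : Ord O) : nu O ≠ 0 := by
  classical
  unfold nu
  have h : ∀ x ∉ (unit_fin D).toFinset, (if IsUnit x then (1 : ℂ) else 0) = 0 := by
    intro x hx
    rw [Set.Finite.mem_toFinset] at hx
    exact if_neg hx
  rw [tsum_eq_sum h]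
  have h2 : ∀ x ∈ (unit_fin D).toFinset, (if IsUnit x then (1 : ℂ) else 0) = 1 := by
    intro x hx
    rw [Set.Finite.mem_toFinset] at hx
    exact if_pos hx
  rw [Finset.sum_congr rfl h2, Finset.sum_const, nsmul_eq_mul, mul_one]
  have h3 : (1 : O) ∈ (unit_fin D).toFinset := by
    rw [Set.Finite.mem_toFinset]
    exact isUnit_one
  have h4 := Finset.card_pos.2 ⟨1, h3⟩
  exact_mod_cast h4.ne'

/-- **Euler product** -/
theorem euler (D : Ord O) {V : Type} {g : V → O} (hg : ∀ v, Prime (g v))
    (hna : ∀ v v', g v ∣ g v' → v = v') (hcov : ∀ x : O, x ≠ 0 → ¬ IsUnit x → ∃ v, g v ∣ x)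
    {F : O → ℂ} (hF : Summable fun x => ‖F x‖) (hF0 : F 0 = 0) (hF1 : ∀ x, IsUnit x → F x = 1)
    {β γ : V → ℂ} (h1 : ∀ v x, ¬ g v ∣ x → F (g v * x) = β v * F x)
    (h2 : ∀ v y, F (g v * (g v * y)) = β v * F (g v * y) - γ v * F y) :
    HasProd (fun v => (1 - β v + γ v)⁻¹) ((∑' x, F x) / nu O) := by
  classical
  let ind : Finset V → O → ℂ := fun S x => if ∀ v ∈ S, ¬ g v ∣ x then 1 else 0
  let LS : Finset V → ℂ := fun S => ∑' x, ind S x * F x
  have hind : ∀ S x, ‖ind S x‖ ≤ 1 := by
    intro S x
    simp only [ind]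
    split_ifs <;> simp
  have hsum : ∀ S, Summable fun x => ind S x * F x := by
    intro S
    refine Summable.of_norm (Summable.of_nonneg_of_le (fun _ => norm_nonneg _) (fun x => ?_) hF)
    rw [norm_mul]
    calc ‖ind S x‖ * ‖F x‖ ≤ 1 * ‖F x‖ := by gcongr; exact hind S x
      _ = ‖F x‖ := one_mul _
  have hstep : ∀ (S : Finset V) (v : V), v ∉ S → LS (insert v S) = (1 - β v + γ v) * LS S := by
    intro S v hv
    have hinj : Function.Injective fun y : O => g v * y := mul_right_injective₀ (hg v).ne_zero
    have hindg : ∀ x, ind S (g v * x) = ind S x := by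
      intro x
      simp only [ind]
      congr 1
      refine propext (forall₂_congr fun v' hv' => ?_)
      rw [(hg v').dvd_mul]
      have h3 : ¬ g v' ∣ g v := fun h => hv (hna _ _ h ▸ hv')
      simp [h3]
    -- the terms divisible by `g v`
    set G : O → ℂ := fun x => if g v ∣ x then ind S x * F x else 0 with hG
    have hGsum : Summable G := by
      refine Summable.of_norm (Summable.of_nonneg_of_le (fun _ => norm_nonneg _) (fun x => ?_)
        (hsum S).norm)
      simp only [hG]
      split_ifs
      · exact le_rfl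
      · rw [norm_zero]; exact norm_nonneg _
    have e1 : ∀ x, ind (insert v S) x * F x = ind S x * F x - G x := by
      intro x
      simp only [hG, ind, Finset.forall_mem_insert]
      by_cases hd : g v ∣ x
      · simp [hd]
      · simp [hd]
    have e2 : LS (insert v S) = LS S - ∑' x, G x := by
      simp only [LS]
      rw [← (hsum S).tsum_sub hGsum]
      exact tsum_congr e1
    have e3 : ∑' x, G x = ∑' x, ind S x * F (g v * x) := by
      rw [← hinj.tsum_eq (f := G) fun x hx => ?_]
      · refine tsum_congr fun y => ?_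
        simp only [hG]
        rw [if_pos (dvd_mul_right _ _), hindg]
      · by_contra hcon
        have h3 : ¬ g v ∣ x := fun ⟨y, hy⟩ => hcon ⟨y, hy.symm⟩
        exact hx (by simp only [hG]; rw [if_neg h3])
    -- the correction
    set d : O → ℂ := fun x => β v * F x - F (g v * x) with hd
    have hsg : Summable fun x => ind S x * F (g v * x) := by
      have h3 := (hsum S).comp_injective hinj
      refine h3.congr fun x => ?_
      simp only [Function.comp]
      rw [hindg]
    have hdsum : Summable fun x => ind S x * d x := by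
      have h3 := ((hsum S).mul_left (β v)).sub hsg
      refine h3.congr fun x => ?_
      simp only [hd]
      ring
    have e4 : ∑' x, ind S x * d x = γ v * LS S := by
      rw [← hinj.tsum_eq (f := fun x => ind S x * d x) fun x hx => ?_]
      · simp only [LS]
        rw [← tsum_mul_left]
        refine tsum_congr fun y => ?_
        simp only [hd]
        rw [hindg, h2]
        ring
      · by_contra hcon
        have h3 : ¬ g v ∣ x := fun ⟨y, hy⟩ => hcon ⟨y, hy.symm⟩
        exact hx (by simp only [hd]; rw [h1 v x h3]; ring)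
    have e5 : ∑' x, ind S x * F (g v * x) = β v * LS S - γ v * LS S := by
      rw [← e4]
      simp only [LS]
      rw [← tsum_mul_left, ← ((hsum S).mul_left (β v)).tsum_sub hdsum]
      refine tsum_congr fun x => ?_
      simp only [hd]
      ring
    rw [e2, e3, e5]
    ring
  have hprod : ∀ S : Finset V, (∏ v ∈ S, (1 - β v + γ v)) * ∑' x, F x = LS S := by
    intro S
    induction S using Finset.induction_on with
    | empty =>
      rw [Finset.prod_empty, one_mul]
      simp [LS, ind]
    | insert v S hv ih =>
      rw [Finset.prod_insert hv, hstep S v hv, ← ih]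
      ring
  have hlim : Tendsto LS atTop (𝓝 (nu O)) := by
    refine tendsto_tsum_of_dominated_convergence hF (fun x => ?_) (Eventually.of_forall fun S x => ?_)
    · by_cases hu : IsUnit x
      · rw [if_pos hu]
        refine tendsto_const_nhds.congr fun S => ?_
        have h3 : ∀ v ∈ S, ¬ g v ∣ x := fun v _ h => (hg v).not_isUnit (isUnit_of_dvd_unit h hu)
        simp only [ind]
        rw [if_pos h3, hF1 x hu, one_mul]
      · rw [if_neg hu]
        by_cases h0 : x = 0
        · subst h0
          refine tendsto_const_nhds.congr fun S => ?_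
          rw [hF0, mul_zero]
        · obtain ⟨v, hv⟩ := hcov x h0 hu
          refine tendsto_const_nhds.congr' ?_
          filter_upwards [eventually_ge_atTop ({v} : Finset V)] with S hS
          have h3 : ¬ ∀ v ∈ S, ¬ g v ∣ x := fun h => h v (hS (Finset.mem_singleton_self v)) hv
          simp only [ind]
          rw [if_neg h3, zero_mul]
    · rw [norm_mul]
      calc ‖ind S x‖ * ‖F x‖ ≤ 1 * ‖F x‖ := by gcongr; exact hind S x
        _ = ‖F x‖ := one_mul _
  have hnu := nu_ne D
  have hne : ∀ v, 1 - β v + γ v ≠ 0 := by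
    intro v h0
    have h3 : Tendsto LS atTop (𝓝 0) := by
      refine tendsto_const_nhds.congr' ?_
      filter_upwards [eventually_ge_atTop ({v} : Finset V)] with S hS
      rw [← hprod S, Finset.prod_eq_zero (hS (Finset.mem_singleton_self v)) h0, zero_mul]
    exact hnu (tendsto_nhds_unique hlim h3)
  show Tendsto (fun S : Finset V => ∏ v ∈ S, (1 - β v + γ v)⁻¹) atTop (𝓝 _)
  have h4 : Tendsto (fun S => (∑' x, F x) / LS S) atTop (𝓝 ((∑' x, F x) / nu O)) :=
    tendsto_const_nhds.div hlim hnu
  refine h4.congr' ?_
  have h5 : ∀ᶠ S in atTop, LS S ≠ 0 := hlim.eventually_ne hnu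
  filter_upwards [h5] with S hS
  have h6 : ∏ v ∈ S, (1 - β v + γ v) ≠ 0 := Finset.prod_ne_zero_iff.2 fun v _ => hne v
  rw [Finset.prod_inv_distrib, div_eq_iff hS, ← hprod S]
  field_simp

end Pool.Agent.K4H55.BI
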