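import Pool.Agent.K4H55.BI.Chr

/-!
The functional equation of the twisted series and the value at `1`.
-/

set_option autoImplicit false

namespace Pool.Agent.K4H55.BI

open Finset Filter Topology

variable {O : Type} [CommRing O]

/-- the constant `(2π/|δ|)²` -/
noncomputable def kap (D : Ord O) : ℝ := (2 * Real.pi / ‖D.δ‖) ^ 2

lemma kap_pos (D : Ord O) : 0 < kap D := by
  unfold kap
  have := norm_pos_iff.2 D.δ0
  have := Real.pi_pos
  positivity

/-- the Fourier series `Φ(z, t) = t² ∑ c(α) h(N(α) (2πt/|δ|)²) e(αz)` -/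
noncomputable def Phi (D : Ord O) (c : O → ℂ) (z : ℂ) (t : ℝ) : ℂ :=
  ((t ^ 2 : ℝ) : ℂ) * th D c z (kap D * t ^ 2)

lemma Phi_periodic (D : Ord O) (c : O → ℂ) (z : ℂ) (y : O) (t : ℝ) :
    Phi D c (z + D.ι y) t = Phi D c z t := by
  unfold Phi
  rw [th_periodic]

lemma Phi_le {D : Ord O} {c : O → ℂ} {C : ℝ} (hc : Cff D c C) : ∃ B : ℝ, 0 ≤ B ∧ ∀ z : ℂ,
    ∀ t : ℝ, 0 < t → ‖Phi D c z t‖ ≤ B * t⁻¹ ^ 4 := by
  obtain ⟨B, hB, h⟩ := th_le hc 0
  have hk := kap_pos D
  refine ⟨B * (kap D)⁻¹ ^ 3, by positivity, fun z t ht => ?_⟩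
  have h1 := h z (kap D * t ^ 2) (by positivity)
  unfold Phi
  rw [norm_mul, Complex.norm_real, Real.norm_eq_abs, abs_of_pos (by positivity)]
  calc t ^ 2 * ‖th D c z (kap D * t ^ 2)‖ ≤ t ^ 2 * (B * (kap D * t ^ 2)⁻¹ ^ (0 + 3)) := by gcongr
    _ = B * (kap D)⁻¹ ^ 3 * t⁻¹ ^ 4 := by
      rw [zero_add, mul_inv, mul_pow]
      field_simp

lemma Phi_tendsto {D : Ord O} {c : O → ℂ} {C : ℝ} (hc : Cff D c C) (z : ℂ) :
    Tendsto (Phi D c z) atTop (𝓝 0) := by
  obtain ⟨B, hB, h⟩ := Phi_le hc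
  refine squeeze_zero_norm' (a := fun t : ℝ => B * t⁻¹ ^ 4) ?_ ?_
  · filter_upwards [eventually_gt_atTop 0] with t ht
    exact h z t ht
  · have h1 : Tendsto (fun t : ℝ => t⁻¹) atTop (𝓝 0) := tendsto_inv_atTop_zero
    have h2 := (h1.pow 4).const_mul B
    simpa using h2

/-- the limit at the cusp `z` -/
noncomputable def fv (D : Ord O) (c : O → ℂ) (z : ℂ) : ℂ :=
  open Classical in
  if h : ∃ L : ℂ, Tendsto (Phi D c z) (𝓝[>] 0) (𝓝 L) then h.choose else 0

lemma fv_eq {D : Ord O} {c : O → ℂ} {z L : ℂ} (h : Tendsto (Phi D c z) (𝓝[>] 0) (𝓝 L)) :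
    fv D c z = L := by
  have hex : ∃ L : ℂ, Tendsto (Phi D c z) (𝓝[>] 0) (𝓝 L) := ⟨L, h⟩
  unfold fv
  rw [dif_pos hex]
  exact tendsto_nhds_unique hex.choose_spec h

lemma fv_periodic (D : Ord O) (c : O → ℂ) (z : ℂ) (y : O) : fv D c (z + D.ι y) = fv D c z := by
  have : Phi D c (z + D.ι y) = Phi D c z := funext fun t => Phi_periodic D c z y t
  unfold fv
  rw [this]

/-- the transformation property at the cusps which is used -/
structure MF (D : Ord O) (n : O) (c : O → ℂ) (C : ℝ) (w : ℂ) : Prop where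
  cff : Cff D c C
  n0 : n ≠ 0
  fe : ∀ x m r s : O, m ≠ 0 → s * m + n * x * r = 1 → ∃ L : ℂ, ∀ t : ℝ, 0 < t →
    Phi D c (D.ι x / D.ι m) t =
      L - w * Phi D c (-(D.ι r / D.ι m)) (1 / (‖D.ι n‖ * ‖D.ι m‖ ^ 2 * t))

variable {D : Ord O} {n : O} {c : O → ℂ} {C : ℝ} {w : ℂ}

lemma MF.lim (h : MF D n c C w) {x m r s : O} (hm : m ≠ 0) (hs : s * m + n * x * r = 1) :
    Tendsto (Phi D c (D.ι x / D.ι m)) (𝓝[>] 0) (𝓝 (fv D c (D.ι x / D.ι m))) ∧
    ∀ t : ℝ, 0 < t → Phi D c (D.ι x / D.ι m) t = fv D c (D.ι x / D.ι m) -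
      w * Phi D c (-(D.ι r / D.ι m)) (1 / (‖D.ι n‖ * ‖D.ι m‖ ^ 2 * t)) := by
  obtain ⟨L, hL⟩ := h.fe x m r s hm hs
  have hιm : D.ι m ≠ 0 := fun h => hm (D.inj (by rw [h, map_zero]))
  have hιn : D.ι n ≠ 0 := fun h' => h.n0 (D.inj (by rw [h', map_zero]))
  have hNM : 0 < ‖D.ι n‖ * ‖D.ι m‖ ^ 2 := by positivity
  have h1 : Tendsto (fun t : ℝ => 1 / (‖D.ι n‖ * ‖D.ι m‖ ^ 2 * t)) (𝓝[>] 0) atTop := by
    have h2 : Tendsto (fun t : ℝ => t⁻¹) (𝓝[>] (0 : ℝ)) atTop := tendsto_inv_nhdsGT_zero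
    have h3 := h2.const_mul_atTop (show 0 < (‖D.ι n‖ * ‖D.ι m‖ ^ 2)⁻¹ by positivity)
    refine h3.congr fun t => ?_
    rw [one_div, mul_inv (‖D.ι n‖ * ‖D.ι m‖ ^ 2)]
  have h2 := (Phi_tendsto h.cff (-(D.ι r / D.ι m))).comp h1
  have h3 : Tendsto (fun t => L - w * Phi D c (-(D.ι r / D.ι m)) (1 / (‖D.ι n‖ * ‖D.ι m‖ ^ 2 * t)))
      (𝓝[>] 0) (𝓝 (L - w * 0)) := (h2.const_mul w).const_sub L
  have h4 : Tendsto (Phi D c (D.ι x / D.ι m)) (𝓝[>] 0) (𝓝 L) := by
    rw [mul_zero, sub_zero] at h3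
    refine h3.congr' ?_
    filter_upwards [self_mem_nhdsWithin] with t ht
    exact (hL t ht).symm
  have h5 := fv_eq h4
  refine ⟨by rw [h5]; exact h4, fun t ht => ?_⟩
  rw [h5]
  exact hL t ht

/-- the sum over the residues as a twisted series -/
lemma tw_th [IsDomain O] (hc : Cff D c C) {T : Finset O} (hT : Fam T) {τ : ℝ} (hτ : 0 < τ) :
    ∑ x ∈ rs D (md T), chi T x * th D c (D.ι x / D.ι (md T)) τ =
      gs D T 1 * th D (fun x => c x * chi T x) 0 τ := by
  have h1 : ∀ x ∈ rs D (md T), chi T x * th D c (D.ι x / D.ι (md T)) τ =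
      ∑' α, chi T x * (c α * ((hb (D.nm α * τ) : ℝ) : ℂ) *
        ee D.δ (D.ι α * (D.ι x / D.ι (md T)))) := by
    intro x _
    unfold th
    rw [tsum_mul_left]
  rw [Finset.sum_congr rfl h1, ← Summable.tsum_finsetSum fun x _ =>
    (term_summable hc hτ (D.ι x / D.ι (md T))).mul_left _]
  unfold th
  rw [← tsum_mul_left]
  refine tsum_congr fun α => ?_
  have h2 := gs_eq D hT α
  rw [mul_zero, ee_zero, mul_one]
  have h3 : ∑ x ∈ rs D (md T), chi T x * (c α * ((hb (D.nm α * τ) : ℝ) : ℂ) *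
      ee D.δ (D.ι α * (D.ι x / D.ι (md T)))) = c α * ((hb (D.nm α * τ) : ℝ) : ℂ) * gs D T α := by
    unfold gs
    rw [Finset.mul_sum]
    refine Finset.sum_congr rfl fun x _ => ?_
    rw [map_mul, mul_div_assoc]
    ring
  rw [h3, h2]
  ring

/-- inversion of the unit residues -/
lemma invsum [IsDomain O] {T : Finset O} (hT : Fam T) (hn : ∀ p ∈ T, ¬ p ∣ n)
    (hneg : chi T (-1) = 1) {F : O → ℂ} (hF : Prd (md T) F) {r : O → O}
    (hr : ∀ x ∈ rs D (md T), chi T x ≠ 0 → md T ∣ n * x * r x - 1) :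
    ∑ x ∈ rs D (md T), chi T x * F (-(r x)) =
      chi T n * ∑ x ∈ rs D (md T), chi T x * F x := by
  classical
  have hm := hT.md_ne
  have hS := rs_CRS D hm
  set S := rs D (md T) with hSdef
  have hchp : Prd (md T) (chi T) := chi_prd fun p hp => dvd_md hp
  choose i hi1 hi2 using hS.ex
  set U := S.filter fun x => chi T x ≠ 0 with hU
  have hchn : chi T n * chi T n = 1 := chi_sq hn
  have hnd : ∀ x, chi T x ≠ 0 → ∀ p ∈ T, ¬ p ∣ x := fun x hx p hp hd => hx (chi_zero hp hd)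
  have hval : ∀ x ∈ U, chi T (i (-(r x))) = chi T n * chi T x := by
    intro x hx
    obtain ⟨hxS, hx0⟩ := mem_filter.1 hx
    have h1 := hr x hxS hx0
    have h2 : chi T (n * x * r x) = 1 := by
      rw [hchp _ _ h1, chi_one hT]
    rw [chi_mul D hT, chi_mul D hT] at h2
    have h3 : chi T (i (-(r x))) = chi T (-(r x)) := (hchp _ _ (hi2 (-(r x)))).symm
    have h4 : chi T (-(r x)) = chi T (r x) := by
      rw [show -(r x) = (-1) * r x by ring, chi_mul D hT, hneg, one_mul]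
    have h5 := chi_sq (hnd x hx0)
    rw [h3, h4]
    linear_combination (chi T n * chi T x) * h2 - (chi T (r x) * chi T x * chi T x) * hchn -
      chi T (r x) * h5
  have hmaps : ∀ x ∈ U, i (-(r x)) ∈ U := by
    intro x hx
    rw [hU, mem_filter]
    refine ⟨hi1 _, ?_⟩
    rw [hval x hx]
    refine mul_ne_zero ?_ (mem_filter.1 hx).2
    intro h0
    rw [h0] at hchn
    norm_num at hchn
  have hinj : ∀ x ∈ U, ∀ x' ∈ U, i (-(r x)) = i (-(r x')) → x = x' := by
    intro x hx x' hx' h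
    obtain ⟨hxS, hx0⟩ := mem_filter.1 hx
    obtain ⟨hxS', hx0'⟩ := mem_filter.1 hx'
    refine hS.un x hxS x' hxS' ?_
    have h1 := hi2 (-(r x))
    have h2 := hi2 (-(r x'))
    have h3 : md T ∣ r x - r x' := by
      have : r x - r x' = (-(r x') - i (-(r x'))) - (-(r x) - i (-(r x))) := by rw [h]; ring
      rw [this]
      exact dvd_sub h2 h1
    have h4 := hr x hxS hx0
    have h5 := hr x' hxS' hx0'
    -- `n r(x) (x - x') ≡ 0`
    have h6 : md T ∣ (n * r x) * (x - x') := by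
      have : (n * r x) * (x - x') = (n * x * r x - 1) - (n * x' * r x' - 1) -
          (n * x') * (r x - r x') := by ring
      rw [this]
      exact dvd_sub (dvd_sub h4 h5) (h3.mul_left _)
    have h7 : IsCoprime (md T) (n * r x) := by
      obtain ⟨k, hk⟩ := h4
      exact ⟨-k, x, by linear_combination hk⟩
    exact h7.dvd_of_dvd_mul_left h6
  have himg : U.image (fun x => i (-(r x))) = U := by
    refine Finset.eq_of_subset_of_card_le ?_ ?_
    · intro y hy
      obtain ⟨x, hx, rfl⟩ := mem_image.1 hy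
      exact hmaps x hx
    · rw [card_image_of_injOn fun x hx x' hx' h => hinj x hx x' hx' h]
  have hred : ∀ G : O → ℂ, ∑ x ∈ S, chi T x * G x = ∑ x ∈ U, chi T x * G x := by
    intro G
    rw [hU, Finset.sum_filter]
    refine Finset.sum_congr rfl fun x _ => ?_
    split_ifs with h
    · rfl
    · push Not at h
      rw [h, zero_mul]
  rw [hred fun x => F (-(r x)), hred F]
  have h1 : ∑ y ∈ U, chi T y * F y = ∑ x ∈ U, chi T (i (-(r x))) * F (i (-(r x))) := by
    conv_lhs => rw [← himg]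
    rw [Finset.sum_image fun x hx x' hx' h => hinj x hx x' hx' h]
  rw [h1, Finset.mul_sum]
  refine Finset.sum_congr rfl fun x hx => ?_
  rw [hval x hx, ← hF _ _ (hi2 (-(r x)))]
  linear_combination (-(chi T x) * F (-(r x))) * hchn

/-- the functional equation of the twisted sum -/
lemma twist_fe [IsDomain O] (h : MF D n c C w) {T : Finset O} (hT : Fam T)
    (hn : ∀ p ∈ T, ¬ p ∣ n) (hneg : chi T (-1) = 1) {t : ℝ} (ht : 0 < t) :
    ∑ x ∈ rs D (md T), chi T x * Phi D c (D.ι x / D.ι (md T)) t =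
      ∑ x ∈ rs D (md T), chi T x * fv D c (D.ι x / D.ι (md T)) -
      w * (chi T n * ∑ x ∈ rs D (md T), chi T x * Phi D c (D.ι x / D.ι (md T))
        (1 / (‖D.ι n‖ * ‖D.ι (md T)‖ ^ 2 * t))) := by
  classical
  have hm := hT.md_ne
  have hιm : D.ι (md T) ≠ 0 := fun h => hm (D.inj (by rw [h, map_zero]))
  have hex : ∀ x : O, ∃ r s : O, chi T x ≠ 0 → s * md T + n * x * r = 1 := by
    intro x
    by_cases h0 : chi T x = 0
    · exact ⟨0, 0, fun h => absurd h0 h⟩
    · have h1 : IsCoprime (md T) x := md_coprime D hT fun p hp hd => h0 (chi_zero hp hd)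
      have h2 : IsCoprime (md T) n := md_coprime D hT hn
      obtain ⟨a, b, hab⟩ := h2.mul_right h1
      exact ⟨b, a, fun _ => by linear_combination hab⟩
  choose r s hrs using hex
  set t' := 1 / (‖D.ι n‖ * ‖D.ι (md T)‖ ^ 2 * t) with ht'
  have hF : Prd (md T) fun x => Phi D c (D.ι x / D.ι (md T)) t' := by
    rintro x y ⟨k, hk⟩
    have hx : x = y + md T * k := by linear_combination hk
    have : D.ι x / D.ι (md T) = D.ι y / D.ι (md T) + D.ι k := by
      rw [hx, map_add, map_mul]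
      field_simp
    simp only
    rw [this, Phi_periodic]
  have h1 := invsum (D := D) hT hn hneg hF (r := r) (fun x _ hx => ⟨-s x, by
    linear_combination hrs x hx⟩)
  rw [← h1, Finset.mul_sum, ← Finset.sum_sub_distrib]
  refine Finset.sum_congr rfl fun x _ => ?_
  by_cases h0 : chi T x = 0
  · rw [h0]; ring
  · have h2 := (h.lim hm (hrs x h0)).2 t ht
    rw [h2, map_neg, neg_div]
    ring

/-- **The twisted series.** -/
theorem twist [IsDomain O] (h : MF D n c C w) {T : Finset O} (hT : Fam T)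
    (hn : ∀ p ∈ T, ¬ p ∣ n) (hneg : chi T (-1) = 1) :
    ∃ G : ℂ → ℂ, Differentiable ℂ G ∧ (∀ s : ℂ, 1 < s.re →
      Summable (fun x => ‖c x‖ * (D.nm x : ℝ) ^ (-s.re)) →
      G s = ∑' x, c x * chi T x * (D.nm x : ℂ) ^ (-s)) ∧
      G 1 = kap D / gs D T 1 * ∑ x ∈ rs D (md T), chi T x * fv D c (D.ι x / D.ι (md T)) := by
  classical
  have hm := hT.md_ne
  have hιm : D.ι (md T) ≠ 0 := fun h => hm (D.inj (by rw [h, map_zero]))
  have hιn : D.ι n ≠ 0 := fun h' => h.n0 (D.inj (by rw [h', map_zero]))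
  have hk := kap_pos D
  have hg := gs_ne D hT
  have hchi : ∀ x, ‖chi T x‖ ≤ 1 := by
    intro x
    by_cases h0 : ∀ p ∈ T, ¬ p ∣ x
    · have h1 := chi_sq h0
      have h2 := congrArg norm h1
      rw [norm_mul, norm_one] at h2
      nlinarith [norm_nonneg (chi T x)]
    · push Not at h0
      obtain ⟨p, hp, hd⟩ := h0
      rw [chi_zero hp hd, norm_zero]
      exact zero_le_one
  have ha : Cff D (fun x => c x * chi T x) C := by
    refine ⟨by simp [h.cff.zero], fun x => ?_⟩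
    rw [norm_mul]
    have h1 := h.cff.bd x
    have h2 := norm_nonneg (c x)
    calc ‖c x‖ * ‖chi T x‖ ≤ ‖c x‖ * 1 := by gcongr; exact hchi x
      _ ≤ _ := by rw [mul_one]; exact h1
  set NM : ℝ := ‖D.ι n‖ * ‖D.ι (md T)‖ ^ 2 with hNM
  have hNM0 : 0 < NM := by positivity
  set A0 := ∑ x ∈ rs D (md T), chi T x * fv D c (D.ι x / D.ι (md T)) with hA0
  have hkey : ∀ t : ℝ, 0 < t → ∑ x ∈ rs D (md T), chi T x * Phi D c (D.ι x / D.ι (md T)) t =
      ((t ^ 2 : ℝ) : ℂ) * (gs D T 1 * th D (fun x => c x * chi T x) 0 (kap D * t ^ 2)) := by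
    intro t ht
    rw [← tw_th h.cff hT (by positivity), Finset.mul_sum]
    refine Finset.sum_congr rfl fun x _ => ?_
    unfold Phi
    ring
  have hFE : ∀ x : ℝ, 0 < x → Tht D (fun x => c x * chi T x) (kap D / NM) x =
      (-(w * chi T n)) * Tht D (fun x => c x * chi T x) (kap D / NM) x⁻¹ +
        kap D / gs D T 1 * A0 := by
    intro x hx
    set t := Real.sqrt (x / NM) with ht
    have ht0 : 0 < t := Real.sqrt_pos.2 (by positivity)
    have ht2 : t ^ 2 = x / NM := Real.sq_sqrt (by positivity)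
    have hts : (1 / (NM * t)) ^ 2 = x⁻¹ / NM := by
      rw [div_pow, mul_pow, ht2]
      field_simp
    have h1 := twist_fe h hT hn hneg ht0
    rw [hkey t ht0, hkey _ (by positivity)] at h1
    rw [← hNM, hts, ht2, ← hA0] at h1
    unfold Tht
    have h2 : kap D / NM * x = kap D * (x / NM) := by ring
    have h3 : kap D / NM * x⁻¹ = kap D * (x⁻¹ / NM) := by ring
    rw [h2, h3]
    push_cast at h1 ⊢
    field_simp
    field_simp at h1
    linear_combination (kap D : ℂ) * h1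
  obtain ⟨G, hG1, hG2, hG3⟩ := continuation ha (T := kap D / NM) (by positivity) hFE
  refine ⟨G, hG1, fun s hs hsum => ?_, hG3⟩
  refine hG2 s hs ?_
  refine Summable.of_nonneg_of_le (fun x => by positivity) (fun x => ?_) hsum
  have h1 := hchi x
  have h2 := norm_nonneg (c x)
  rw [norm_mul]
  have h3 : (0 : ℝ) ≤ (D.nm x : ℝ) ^ (-s.re) := by positivity
  calc ‖c x‖ * ‖chi T x‖ * (D.nm x : ℝ) ^ (-s.re) ≤ ‖c x‖ * 1 * (D.nm x : ℝ) ^ (-s.re) := by gcongr
    _ = _ := by rw [mul_one]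

end Pool.Agent.K4H55.BI
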