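import Pool.Agent.K4H55.BI.Fe

/-!
Hecke relations.
-/

set_option autoImplicit false

namespace Pool.Agent.K4H55.BI

open Finset Filter Topology

variable {O : Type} [CommRing O] {D : Ord O} {n : O} {c : O → ℂ} {C : ℝ} {w : ℂ}

/-- the Hecke relation for the Fourier series -/
lemma hecke_th [IsDomain O] (hc : Cff D c C) {q : O} (hq : q ≠ 0) {cq : ℂ} {d : O → ℂ}
    (hd : ∀ y, d (q * y) = D.nm q * c y) (hd0 : ∀ x, ¬ q ∣ x → d x = 0)
    (hrel : ∀ x, cq * c x = c (q * x) + d x) {B : Finset O} (hB : CRS q B) (z : ℂ) {τ : ℝ}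
    (hτ : 0 < τ) :
    cq * th D c z τ = D.nm q * th D c (D.ι q * z) (D.nm q * τ) +
      (D.nm q : ℂ)⁻¹ * ∑ b ∈ B, th D c ((z + D.ι b) / D.ι q) (τ / D.nm q) := by
  classical
  have hιq : D.ι q ≠ 0 := fun h => hq (D.inj (by rw [h, map_zero]))
  have hnq : (0 : ℝ) < D.nm q := by exact_mod_cast D.nm_pos hq
  have hnqc : (D.nm q : ℂ) ≠ 0 := by exact_mod_cast hnq.ne'
  have hinj : Function.Injective fun y : O => q * y := mul_right_injective₀ hq
  -- the first term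
  set G1 : O → ℂ := fun x => d x * ((hb (D.nm x * τ) : ℝ) : ℂ) * ee D.δ (D.ι x * z) with hG1
  have h1 : D.nm q * th D c (D.ι q * z) (D.nm q * τ) = ∑' x, G1 x := by
    rw [← hinj.tsum_eq (f := G1) (fun x hx => ?_)]
    · unfold th
      rw [← tsum_mul_left]
      refine tsum_congr fun y => ?_
      simp only [hG1]
      rw [hd, D.nm_mul, map_mul]
      have e1 : (D.nm y : ℝ) * (D.nm q * τ) = ((D.nm q * D.nm y : ℕ) : ℝ) * τ := by
        push_cast; ring
      have e2 : D.ι y * (D.ι q * z) = D.ι q * D.ι y * z := by ring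
      rw [e1, e2]
      ring
    · by_contra hcon
      have h2 : ¬ q ∣ x := fun ⟨y, hy⟩ => hcon ⟨y, hy.symm⟩
      exact hx (by simp only [hG1]; rw [hd0 x h2, zero_mul, zero_mul])
  -- the second term
  set G2 : O → ℂ := fun x => c (q * x) * ((hb (D.nm x * τ) : ℝ) : ℂ) * ee D.δ (D.ι x * z) with hG2
  have h2 : (D.nm q : ℂ)⁻¹ * ∑ b ∈ B, th D c ((z + D.ι b) / D.ι q) (τ / D.nm q) = ∑' x, G2 x := by
    have e1 : ∀ b ∈ B, th D c ((z + D.ι b) / D.ι q) (τ / D.nm q) =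
        ∑' α, c α * ((hb (D.nm α * (τ / D.nm q)) : ℝ) : ℂ) *
          ee D.δ (D.ι α * ((z + D.ι b) / D.ι q)) := fun b _ => rfl
    rw [Finset.sum_congr rfl e1, ← Summable.tsum_finsetSum fun b _ =>
      term_summable hc (div_pos hτ hnq) ((z + D.ι b) / D.ι q), ← tsum_mul_left]
    set G3 : O → ℂ := fun α => (D.nm q : ℂ)⁻¹ * ∑ b ∈ B, c α *
      ((hb (D.nm α * (τ / D.nm q)) : ℝ) : ℂ) * ee D.δ (D.ι α * ((z + D.ι b) / D.ι q)) with hG3
    have e2 : ∀ α, G3 α = if q ∣ α then c α * ((hb (D.nm α * (τ / D.nm q)) : ℝ) : ℂ) *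
        ee D.δ (D.ι α * z / D.ι q) else 0 := by
      intro α
      have e3 : ∀ b ∈ B, c α * ((hb (D.nm α * (τ / D.nm q)) : ℝ) : ℂ) *
          ee D.δ (D.ι α * ((z + D.ι b) / D.ι q)) = (c α * ((hb (D.nm α * (τ / D.nm q)) : ℝ) : ℂ) *
            ee D.δ (D.ι α * z / D.ι q)) * ee D.δ (D.ι (b * α) / D.ι q) := by
        intro b _
        rw [mul_assoc _ (ee D.δ (D.ι α * z / D.ι q)), ← ee_add, map_mul]
        congr 2
        field_simp
      simp only [hG3]
      rw [Finset.sum_congr rfl e3, ← Finset.mul_sum, orth D hq hB]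
      split_ifs
      · field_simp
      · ring
    rw [← hinj.tsum_eq (f := G3) (fun α hα => ?_)]
    · refine tsum_congr fun y => ?_
      rw [e2, if_pos (dvd_mul_right q y)]
      simp only [hG2]
      have e4 : ((D.nm (q * y) : ℕ) : ℝ) * (τ / D.nm q) = D.nm y * τ := by
        rw [D.nm_mul]
        push_cast
        field_simp
      have e5 : D.ι (q * y) * z / D.ι q = D.ι y * z := by
        rw [map_mul]
        field_simp
      rw [e4, e5]
    · by_contra hcon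
      have h2 : ¬ q ∣ α := fun ⟨y, hy⟩ => hcon ⟨y, hy.symm⟩
      exact hα (by rw [e2, if_neg h2])
  rw [h1, h2]
  have hs : Summable fun x => cq * (c x * ((hb (D.nm x * τ) : ℝ) : ℂ) * ee D.δ (D.ι x * z)) :=
    (term_summable hc hτ z).mul_left cq
  have hsum2 : Summable G2 := by
    have e1 : Summable fun α => (D.nm q : ℂ)⁻¹ * ∑ b ∈ B, c α *
        ((hb (D.nm α * (τ / D.nm q)) : ℝ) : ℂ) * ee D.δ (D.ι α * ((z + D.ι b) / D.ι q)) := by
      refine Summable.mul_left _ (summable_sum fun b _ =>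
        term_summable hc (div_pos hτ hnq) ((z + D.ι b) / D.ι q))
    refine (e1.comp_injective hinj).congr fun y => ?_
    have e3 : ∀ b ∈ B, c (q * y) * ((hb (D.nm (q * y) * (τ / D.nm q)) : ℝ) : ℂ) *
        ee D.δ (D.ι (q * y) * ((z + D.ι b) / D.ι q)) =
          c (q * y) * ((hb (D.nm y * τ) : ℝ) : ℂ) * ee D.δ (D.ι y * z) := by
      intro b _
      have e4 : ((D.nm (q * y) : ℕ) : ℝ) * (τ / D.nm q) = D.nm y * τ := by
        rw [D.nm_mul]
        push_cast
        field_simp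
      have e5 : D.ι (q * y) * ((z + D.ι b) / D.ι q) = D.ι y * z + D.ι (y * b) := by
        rw [map_mul, map_mul]
        field_simp
      rw [e4, e5, ee_add, D.dual1, mul_one]
    simp only [Function.comp]
    rw [Finset.sum_congr rfl e3, Finset.sum_const, nsmul_eq_mul]
    have e6 : (B.card : ℂ) = D.nm q := by
      have e7 := hB.sum_eq (rs_CRS D hq) (g := fun _ => (1 : ℂ)) (fun _ _ _ => rfl)
      rw [Finset.sum_const, Finset.sum_const, rs_card D hq] at e7
      simpa using e7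
    rw [e6]
    simp only [hG2]
    field_simp
  have hsum1 : Summable G1 := by
    refine (hs.sub hsum2).congr fun x => ?_
    simp only [hG1, hG2]
    linear_combination ((hb (D.nm x * τ) : ℝ) : ℂ) * ee D.δ (D.ι x * z) * hrel x
  rw [← hsum1.tsum_add hsum2]
  unfold th
  rw [← tsum_mul_left]
  refine tsum_congr fun x => ?_
  simp only [hG1, hG2]
  linear_combination ((hb (D.nm x * τ) : ℝ) : ℂ) * ee D.δ (D.ι x * z) * hrel x

lemma hecke_Phi [IsDomain O] (hc : Cff D c C) {q : O} (hq : q ≠ 0) {cq : ℂ} {d : O → ℂ}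
    (hd : ∀ y, d (q * y) = D.nm q * c y) (hd0 : ∀ x, ¬ q ∣ x → d x = 0)
    (hrel : ∀ x, cq * c x = c (q * x) + d x) {B : Finset O} (hB : CRS q B) (z : ℂ) {t : ℝ}
    (ht : 0 < t) :
    cq * Phi D c z t = Phi D c (D.ι q * z) (‖D.ι q‖ * t) +
      ∑ b ∈ B, Phi D c ((z + D.ι b) / D.ι q) (t / ‖D.ι q‖) := by
  have hk := kap_pos D
  have hιq : D.ι q ≠ 0 := fun h => hq (D.inj (by rw [h, map_zero]))
  have hnq : (0 : ℝ) < ‖D.ι q‖ := norm_pos_iff.2 hιq
  have h1 := hecke_th hc hq hd hd0 hrel hB z (τ := kap D * t ^ 2) (by positivity)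
  unfold Phi
  have e1 : kap D * (‖D.ι q‖ * t) ^ 2 = D.nm q * (kap D * t ^ 2) := by
    rw [D.nm_eq]; ring
  have e2 : kap D * (t / ‖D.ι q‖) ^ 2 = kap D * t ^ 2 / D.nm q := by
    rw [D.nm_eq]; field_simp
  rw [e1, e2, ← Finset.mul_sum]
  have e3 : (((‖D.ι q‖ * t) ^ 2 : ℝ) : ℂ) = (t ^ 2 : ℝ) * D.nm q := by
    have : ((D.nm q : ℝ) : ℂ) = (D.nm q : ℂ) := by simp
    rw [← this, D.nm_eq]
    push_cast
    ring
  have e4 : (((t / ‖D.ι q‖) ^ 2 : ℝ) : ℂ) = (t ^ 2 : ℝ) * (D.nm q : ℂ)⁻¹ := by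
    have : ((D.nm q : ℝ) : ℂ) = (D.nm q : ℂ) := by simp
    rw [← this, D.nm_eq]
    push_cast
    field_simp
  rw [e3, e4]
  linear_combination ((t ^ 2 : ℝ) : ℂ) * h1

/-- the data of a form: the transformation property, the Hecke relations and the values -/
structure MG (D : Ord O) (n : O) (c : O → ℂ) (C : ℝ) (w : ℂ) (M : Submodule ℤ ℂ) : Prop
    extends MF D n c C w where
  hk : ∀ q, Prime q → ¬ q ∣ n → ∃ d : O → ℂ, (∀ y, d (q * y) = D.nm q * c y) ∧
    (∀ x, ¬ q ∣ x → d x = 0) ∧ ∀ x, c q * c x = c (q * x) + d x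
  fg : M.FG
  val : ∀ x m r s : O, m ≠ 0 → s * m + n * x * r = 1 → fv D c (D.ι x / D.ι m) ∈ M

variable {M : Submodule ℤ ℂ}

/-- reduced fractions -/
lemma reduce (D : Ord O) [IsDomain O] {x m n : O} (hm : m ≠ 0) (hmn : IsCoprime m n) :
    ∃ x' m' r s : O, m' ≠ 0 ∧ s * m' + n * x' * r = 1 ∧ D.ι x / D.ι m = D.ι x' / D.ι m' := by
  classical
  have := pid D
  have hP := (IsPrincipalIdealRing.principal (Ideal.span {x, m})).principal
  obtain ⟨d, hd⟩ := hP
  have hd' : Ideal.span {x, m} = Ideal.span {d} := hd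
  have hx : x ∈ Ideal.span {d} := by
    rw [← hd']; exact Ideal.subset_span (by simp)
  have hmm : m ∈ Ideal.span {d} := by
    rw [← hd']; exact Ideal.subset_span (by simp)
  have hdd : d ∈ Ideal.span {x, m} := by
    rw [hd']; exact Ideal.subset_span (by simp)
  obtain ⟨x', hx'⟩ := Ideal.mem_span_singleton.1 hx
  obtain ⟨m', hm'⟩ := Ideal.mem_span_singleton.1 hmm
  obtain ⟨a, b, hab⟩ := Ideal.mem_span_pair.1 hdd
  have hd0 : d ≠ 0 := by
    rintro rfl
    exact hm (by rw [hm', zero_mul])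
  have h1 : IsCoprime m' x' := by
    refine ⟨b, a, ?_⟩
    apply mul_left_cancel₀ hd0
    linear_combination hab - a * hx' - b * hm'
  have h2 : IsCoprime m' n := hmn.of_isCoprime_of_dvd_left ⟨d, by rw [hm']; ring⟩
  obtain ⟨s, r, hsr⟩ := h2.mul_right h1
  refine ⟨x', m', r, s, ?_, by linear_combination hsr, ?_⟩
  · rintro rfl
    exact hm (by rw [hm', mul_zero])
  · have hιd : D.ι d ≠ 0 := fun h => hd0 (D.inj (by rw [h, map_zero]))
    rw [hx', hm', map_mul, map_mul, mul_div_mul_left _ _ hιd]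

lemma MG.tendsto [IsDomain O] (h : MG D n c C w M) {x m : O} (hm : m ≠ 0) (hmn : IsCoprime m n) :
    Tendsto (Phi D c (D.ι x / D.ι m)) (𝓝[>] 0) (𝓝 (fv D c (D.ι x / D.ι m))) := by
  obtain ⟨x', m', r, s, hm', hs, he⟩ := reduce D (x := x) hm hmn
  rw [he]
  exact (h.lim hm' hs).1

lemma MG.mem [IsDomain O] (h : MG D n c C w M) {x m : O} (hm : m ≠ 0) (hmn : IsCoprime m n) :
    fv D c (D.ι x / D.ι m) ∈ M := by
  obtain ⟨x', m', r, s, hm', hs, he⟩ := reduce D (x := x) hm hmn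
  rw [he]
  exact h.val x' m' r s hm' hs

/-- the Hecke relation for the values -/
theorem MG.hecke [IsDomain O] (h : MG D n c C w M) {q : O} (hq : Prime q) (hqn : ¬ q ∣ n)
    {B : Finset O} (hB : CRS q B) {x m : O} (hm : m ≠ 0) (hmn : IsCoprime m n) :
    c q * fv D c (D.ι x / D.ι m) = fv D c (D.ι q * (D.ι x / D.ι m)) +
      ∑ b ∈ B, fv D c ((D.ι x / D.ι m + D.ι b) / D.ι q) := by
  obtain ⟨d, hd, hd0, hrel⟩ := h.hk q hq hqn
  have hιq : D.ι q ≠ 0 := fun h => hq.ne_zero (D.inj (by rw [h, map_zero]))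
  have hιm : D.ι m ≠ 0 := fun h => hm (D.inj (by rw [h, map_zero]))
  have hnq : (0 : ℝ) < ‖D.ι q‖ := norm_pos_iff.2 hιq
  have hqn' : IsCoprime q n := prime_coprime D hq hqn
  have hsc : ∀ k : ℝ, 0 < k → Tendsto (fun t : ℝ => k * t) (𝓝[>] 0) (𝓝[>] 0) := by
    intro k hk
    refine tendsto_nhdsWithin_iff.2 ⟨?_, ?_⟩
    · have : Tendsto (fun t : ℝ => k * t) (𝓝 0) (𝓝 (k * 0)) := tendsto_id.const_mul k
      rw [mul_zero] at this
      exact this.mono_left nhdsWithin_le_nhds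
    · filter_upwards [self_mem_nhdsWithin] with t ht
      exact mul_pos hk ht
  have h0 := (h.tendsto (x := x) hm hmn).const_mul (c q)
  have e1 : D.ι q * (D.ι x / D.ι m) = D.ι (q * x) / D.ι m := by
    rw [map_mul]; ring
  have h1 : Tendsto (fun t : ℝ => Phi D c (D.ι q * (D.ι x / D.ι m)) (‖D.ι q‖ * t)) (𝓝[>] 0)
      (𝓝 (fv D c (D.ι q * (D.ι x / D.ι m)))) := by
    have := h.tendsto (x := q * x) hm hmn
    rw [← e1] at this
    exact this.comp (hsc _ hnq)
  have h2 : ∀ b ∈ B, Tendsto (fun t : ℝ => Phi D c ((D.ι x / D.ι m + D.ι b) / D.ι q) (t / ‖D.ι q‖))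
      (𝓝[>] 0) (𝓝 (fv D c ((D.ι x / D.ι m + D.ι b) / D.ι q))) := by
    intro b _
    have e2 : (D.ι x / D.ι m + D.ι b) / D.ι q = D.ι (x + m * b) / D.ι (m * q) := by
      rw [map_add, map_mul, map_mul]
      field_simp
    have := h.tendsto (x := x + m * b) (mul_ne_zero hm hq.ne_zero) (hmn.mul_left hqn')
    rw [← e2] at this
    have h3 := this.comp (hsc (‖D.ι q‖)⁻¹ (by positivity))
    refine h3.congr fun t => ?_
    simp only [Function.comp]
    congr 1
    rw [div_eq_inv_mul]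
  have h3 := h1.add (tendsto_finset_sum B h2)
  refine tendsto_nhds_unique h0 (h3.congr' ?_)
  filter_upwards [self_mem_nhdsWithin] with t ht
  exact (hecke_Phi h.cff hq.ne_zero hd hd0 hrel hB (D.ι x / D.ι m) ht).symm

end Pool.Agent.K4H55.BI
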