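import Pool.Agent.K4H55.BI.Th

/-!
The orders of the imaginary quadratic fields of class number one.
-/

set_option autoImplicit false

namespace Pool.Agent.K4H55.BI

open NumberField ComplexConjugate

/-- `K` is an imaginary quadratic field of class number one with the embedding `σ`, `δ` generates
the different -/
structure IQ (K : Type) [Field K] [NumberField K] (σ : K →+* ℂ) (δ : K) : Prop where
  deg : Module.finrank ℚ K = 2
  cplx : ∃ x, conj (σ x) ≠ σ x
  pid : IsPrincipalIdealRing (𝓞 K)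
  dual : ∀ x : K, (∃ a : 𝓞 K, (a : K) = x) ↔
    ∀ y : 𝓞 K, ∃ m : ℤ, Algebra.trace ℚ K (x * y / δ) = m

variable {K : Type} [Field K] [NumberField K] {σ : K →+* ℂ} {δ : K}

lemma embs (h : IQ K σ δ) (f : (K →ₐ[ℚ] ℂ) → ℂ) :
    (∑ τ, f τ = f σ.toRatAlgHom + f ((starRingEnd ℂ).comp σ).toRatAlgHom) ∧
    (∏ τ, f τ = f σ.toRatAlgHom * f ((starRingEnd ℂ).comp σ).toRatAlgHom) := by
  classical
  have hne : σ.toRatAlgHom ≠ ((starRingEnd ℂ).comp σ).toRatAlgHom := by
    intro he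
    obtain ⟨x, hx⟩ := h.cplx
    exact hx (congrArg (fun g : K →ₐ[ℚ] ℂ => g x) he).symm
  have hcard : Fintype.card (K →ₐ[ℚ] ℂ) = 2 := by
    rw [AlgHom.card, h.deg]
  have huniv : (Finset.univ : Finset (K →ₐ[ℚ] ℂ)) =
      {σ.toRatAlgHom, ((starRingEnd ℂ).comp σ).toRatAlgHom} := by
    symm
    apply Finset.eq_univ_of_card
    rw [Finset.card_pair hne, hcard]
  rw [huniv]
  exact ⟨Finset.sum_pair hne, Finset.prod_pair hne⟩

lemma norm_iq (h : IQ K σ δ) (x : K) : ((Algebra.norm ℚ x : ℚ) : ℂ) = σ x * conj (σ x) := by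
  have h1 := Algebra.norm_eq_prod_embeddings ℚ ℂ x
  rw [(embs h fun τ => τ x).2] at h1
  exact h1

lemma trace_iq (h : IQ K σ δ) (x : K) : ((Algebra.trace ℚ K x : ℚ) : ℂ) = σ x + conj (σ x) := by
  have h1 := trace_eq_sum_embeddings (K := ℚ) (L := K) ℂ (x := x)
  rw [(embs h fun τ => τ x).1] at h1
  exact h1

lemma nm_iq (h : IQ K σ δ) (x : 𝓞 K) : (((Algebra.norm ℤ x).natAbs : ℕ) : ℝ) = ‖σ x‖ ^ 2 := by
  have h1 := norm_iq h (x : K)
  rw [← Algebra.coe_norm_int] at h1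
  rw [Complex.mul_conj, Complex.normSq_eq_norm_sq] at h1
  have h2 : ((Algebra.norm ℤ x : ℤ) : ℝ) = ‖σ x‖ ^ 2 := by
    exact_mod_cast h1
  have h3 : (0 : ℝ) ≤ (Algebra.norm ℤ x : ℤ) := by rw [h2]; positivity
  have h4 : 0 ≤ Algebra.norm ℤ x := by exact_mod_cast h3
  rw [← h2]
  have h5 : (((Algebra.norm ℤ x).natAbs : ℤ)) = Algebra.norm ℤ x := Int.natAbs_of_nonneg h4
  rw [← Int.cast_natCast, h5]

lemma ee_one_iff (h : IQ K σ δ) (x : K) : ee (σ δ) (σ x) = 1 ↔
    ∃ m : ℤ, Algebra.trace ℚ K (x / δ) = m := by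
  have h1 : σ x / σ δ + conj (σ x / σ δ) = ((Algebra.trace ℚ K (x / δ) : ℚ) : ℂ) := by
    rw [trace_iq h]
    simp only [map_div₀]
  unfold ee
  rw [h1, Complex.exp_eq_one_iff]
  have hpi : (2 * Real.pi * Complex.I : ℂ) ≠ 0 := Complex.two_pi_I_ne_zero
  constructor
  · rintro ⟨m, hm⟩
    refine ⟨m, ?_⟩
    have h2 : ((Algebra.trace ℚ K (x / δ) : ℚ) : ℂ) = (m : ℂ) := by
      apply mul_left_cancel₀ hpi
      rw [hm]; ring
    exact_mod_cast h2
  · rintro ⟨m, hm⟩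
    refine ⟨m, ?_⟩
    rw [hm]
    push_cast
    ring

lemma iq_summ (h : IQ K σ δ) (s : ℝ) (hs : 1 < s) :
    Summable fun x : 𝓞 K => (((Algebra.norm ℤ x).natAbs : ℕ) : ℝ) ^ (-s) := by
  classical
  let φ : 𝓞 K →ₗ[ℤ] ℂ := ((σ.comp (algebraMap (𝓞 K) K)).toAddMonoidHom).toIntLinearMap
  have hφ : ∀ x : 𝓞 K, φ x = σ x := fun x => rfl
  have hinj : Function.Injective φ := by
    intro x y hxy
    have : σ (x : K) = σ (y : K) := hxy
    exact RingOfIntegers.ext (σ.injective this)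
  let L : Submodule ℤ ℂ := LinearMap.range φ
  have hone : ∀ x : 𝓞 K, x ≠ 0 → 1 ≤ ‖φ x‖ := by
    intro x hx
    have h1 := nm_iq h x
    have h2 : 1 ≤ (Algebra.norm ℤ x).natAbs := by
      rw [Nat.one_le_iff_ne_zero, Ne, Int.natAbs_eq_zero]
      exact Algebra.norm_ne_zero_iff.2 hx
    have h3 : (1 : ℝ) ≤ ‖φ x‖ ^ 2 := by
      rw [hφ, ← h1]
      exact_mod_cast h2
    nlinarith [norm_nonneg (φ x)]
  have hdisc : DiscreteTopology L := by
    refine discreteTopology_of_isOpen_singleton_zero ?_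
    rw [Metric.isOpen_singleton_iff]
    refine ⟨1, one_pos, ?_⟩
    rintro ⟨y, x, rfl⟩ hy
    by_contra hne
    have hx : x ≠ 0 := by
      rintro rfl
      exact hne (Subtype.ext (map_zero φ))
    have h1 := hone x hx
    rw [dist_zero_right] at hy
    exact absurd hy (not_lt.2 h1)
  let e : 𝓞 K ≃ₗ[ℤ] L := LinearEquiv.ofInjective φ hinj
  have hrank : Module.finrank ℤ L = 2 := by
    rw [← e.finrank_eq, RingOfIntegers.rank, h.deg]
  have h1 := ZLattice.summable_norm_rpow L (-(2 * s)) (by rw [hrank]; push_cast; linarith)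
  have h2 := h1.comp_injective e.injective
  refine h2.congr fun x => ?_
  show ‖φ x‖ ^ (-(2 * s)) = _
  rw [nm_iq h x, hφ, ← Real.rpow_natCast ‖σ x‖ 2, ← Real.rpow_mul (norm_nonneg _)]
  congr 1
  push_cast
  ring

lemma iq_approx : ∃ B : ℕ, ∀ a b : 𝓞 K, b ≠ 0 → ∃ q r, r ≠ 0 ∧
    (Algebra.norm ℤ r).natAbs ≤ B ∧
      (Algebra.norm ℤ (r * a - q * b)).natAbs < (Algebra.norm ℤ b).natAbs := by
  classical
  let bS := RingOfIntegers.basis K
  let F := ClassGroup.finsetApprox bS AbsoluteValue.absIsAdmissible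
  refine ⟨∑ r ∈ F, (Algebra.norm ℤ ((r : ℤ) : 𝓞 K)).natAbs, fun a b hb => ?_⟩
  obtain ⟨q, r, hr, h1⟩ := ClassGroup.exists_mem_finset_approx' bS AbsoluteValue.absIsAdmissible
    a hb
  refine ⟨q, ((r : ℤ) : 𝓞 K), ?_, ?_, ?_⟩
  · intro h0
    have h2 : r = 0 := by exact_mod_cast h0
    rw [h2] at hr
    exact ClassGroup.finsetApprox.zero_notMem _ _ hr
  · exact Finset.single_le_sum (f := fun r : ℤ => (Algebra.norm ℤ ((r : ℤ) : 𝓞 K)).natAbs)
      (fun _ _ => Nat.zero_le _) hr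
  · rw [zsmul_eq_mul] at h1
    have h2 : |Algebra.norm ℤ ((r : 𝓞 K) * a - q * b)| < |Algebra.norm ℤ b| := h1
    rw [Int.abs_eq_natAbs, Int.abs_eq_natAbs] at h2
    exact_mod_cast h2

/-- the order of `K` -/
noncomputable def ordK (h : IQ K σ δ) : Ord (𝓞 K) where
  ι := σ.comp (algebraMap (𝓞 K) K)
  inj := fun x y hxy => RingOfIntegers.ext (σ.injective hxy)
  nm := fun x => (Algebra.norm ℤ x).natAbs
  nm_eq := fun x => nm_iq h x
  card := fun x _ => by
    rw [← Ideal.absNorm_span_singleton, Ideal.absNorm_apply, Submodule.cardQuot_apply]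
  approx := iq_approx
  pid := h.pid
  fin := inferInstance
  δ := σ δ
  δ0 := by
    intro h0
    have h1 : δ = 0 := (map_eq_zero σ).1 h0
    have h2 := (h.dual (1 / 2)).2 (fun y => ⟨0, by rw [h1]; simp⟩)
    obtain ⟨a, ha⟩ := h2
    have h3 : IsIntegral ℤ ((1 / 2 : ℚ) : K) := by
      have : ((1 / 2 : ℚ) : K) = a := by rw [ha]; push_cast; ring
      rw [this]
      exact RingOfIntegers.isIntegral_coe a
    have h4 : IsIntegral ℤ (1 / 2 : ℚ) := by
      have h5 : IsIntegral ℤ (algebraMap ℚ K (1 / 2)) := by simpa using h3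
      exact (isIntegral_algebraMap_iff (algebraMap ℚ K).injective).1 h5
    obtain ⟨m, hm⟩ := IsIntegrallyClosed.isIntegral_iff.1 h4
    have h6 : (2 * m : ℚ) = 1 := by
      have : ((m : ℤ) : ℚ) = 1 / 2 := hm
      rw [this]; norm_num
    have h7 : 2 * m = 1 := by exact_mod_cast h6
    omega
  dual1 := fun x => by
    refine (ee_one_iff h (x : K)).2 ?_
    obtain ⟨m, hm⟩ := (h.dual x).1 ⟨x, rfl⟩ 1
    exact ⟨m, by simpa using hm⟩
  dual2 := fun x y hy hall => by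
    have hy' : (y : K) ≠ 0 := fun h => hy (RingOfIntegers.ext h)
    have h1 : ∀ z : 𝓞 K, ∃ m : ℤ, Algebra.trace ℚ K ((x / y : K) * z / δ) = m := by
      intro z
      have h2 := hall z
      have h3 : (σ.comp (algebraMap (𝓞 K) K)) (x * z) / (σ.comp (algebraMap (𝓞 K) K)) y =
          σ ((x / y : K) * z) := by
        simp only [RingHom.comp_apply, map_mul, map_div₀]
        field_simp
      rw [h3] at h2
      exact (ee_one_iff h _).1 h2
    obtain ⟨a, ha⟩ := (h.dual (x / y)).2 h1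
    refine ⟨a, RingOfIntegers.ext ?_⟩
    show algebraMap (𝓞 K) K x = algebraMap (𝓞 K) K (y * a)
    rw [map_mul, show algebraMap (𝓞 K) K a = x / y from ha]
    have hy2 : algebraMap (𝓞 K) K y ≠ 0 := hy'
    field_simp
  summ := fun s hs => iq_summ h s hs

end Pool.Agent.K4H55.BI
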