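import Pool.Agent.K4H55.BI.Eul
import Pool.Agent.K4H55.BI.Nf

/-!
Bianchi newforms over imaginary quadratic fields of class number one.
-/

set_option autoImplicit false

namespace Pool.Agent.K4H55.BI

open NumberField IsDedekindDomain Filter Topology Matrix
open scoped symmDiff

section sym

variable {K : Type} [Field K] [NumberField K]

open Classical in
/-- the quadratic residue symbol `(x / v)` -/
noncomputable def sym (v : HeightOneSpectrum (𝓞 K)) (x : 𝓞 K) : ℂ :=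
  if x ∈ v.asIdeal then 0 else if ∃ y, x - y ^ 2 ∈ v.asIdeal then 1 else -1

/-- the character `χ_T(x) = ∏ (x / v)` -/
noncomputable def chiT (T : Finset (HeightOneSpectrum (𝓞 K))) (x : 𝓞 K) : ℂ := ∏ v ∈ T, sym v x

/-- the Fourier series -/
noncomputable def Fser (σ : K →+* ℂ) (δ : K) (c : Ideal (𝓞 K) → ℂ) (z : ℂ) (t : ℝ) : ℂ :=
  ∑' x : 𝓞 K, c (Ideal.span {x}) * ((t ^ 2 * hb (Ideal.absNorm (Ideal.span {x}) *
    (2 * Real.pi * t / ‖σ δ‖) ^ 2) : ℝ) : ℂ) * ee (σ δ) (σ x * z)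

/-- Bianchi newform of weight 2 -/
structure BF (σ : K →+* ℂ) (δ : K) (n : 𝓞 K) (c : Ideal (𝓞 K) → ℂ) : Prop where
  n0 : n ≠ 0
  zero : c ⊥ = 0
  one : c ⊤ = 1
  bound : ∃ C : ℝ, ∀ I, ‖c I‖ ≤ C * Ideal.absNorm I
  good : ∀ v : HeightOneSpectrum (𝓞 K), n ∉ v.asIdeal → ∀ I,
    (¬ v.asIdeal ∣ I → c (v.asIdeal * I) = c v.asIdeal * c I) ∧
    c (v.asIdeal * (v.asIdeal * I)) = c v.asIdeal * c (v.asIdeal * I) -
      Ideal.absNorm v.asIdeal * c I
  bad : ∀ v : HeightOneSpectrum (𝓞 K), n ∈ v.asIdeal → ∀ I,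
    c (v.asIdeal * I) = c v.asIdeal * c I
  periods : ∃ κ : SpecialLinearGroup (Fin 2) (𝓞 K) → ℂ, ∀ γ : SpecialLinearGroup (Fin 2) (𝓞 K),
    n ∣ γ.1 1 0 → ∀ (z : ℂ) (t : ℝ), 0 < t →
      Fser σ δ c (hZ (σ (γ.1 0 0)) (σ (γ.1 0 1)) (σ (γ.1 1 0)) (σ (γ.1 1 1)) z t)
        (hT (σ (γ.1 1 0)) (σ (γ.1 1 1)) z t) = Fser σ δ c z t + κ γ
  fricke : ∃ w κ : ℂ, w * w = 1 ∧ ∀ (z : ℂ) (t : ℝ), 0 < t →
    Fser σ δ c (hZ 0 (-1) (σ n) 0 z t) (‖σ n‖ * hT (σ n) 0 z t) = -w * Fser σ δ c z t + κ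

variable {σ : K →+* ℂ} {δ : K} {n : 𝓞 K} {c : Ideal (𝓞 K) → ℂ}

lemma Fser_eq (h : IQ K σ δ) (c : Ideal (𝓞 K) → ℂ) :
    Fser σ δ c = Phi (ordK h) (fun x => c (Ideal.span {x})) := by
  funext z t
  unfold Fser Phi th kap
  rw [← tsum_mul_left]
  refine tsum_congr fun x => ?_
  have e1 : (ordK h).nm x = Ideal.absNorm (Ideal.span {x}) :=
    (Ideal.absNorm_span_singleton x).symm
  have e2 : (ordK h).δ = σ δ := rfl
  have e3 : (ordK h).ι x = σ x := rfl
  rw [e1, e2, e3]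
  have e4 : (2 * Real.pi * t / ‖σ δ‖) ^ 2 = (2 * Real.pi / ‖σ δ‖) ^ 2 * t ^ 2 := by ring
  rw [e4]
  push_cast
  ring

lemma BF.newf (h : IQ K σ δ) (hf : BF σ δ n c) : ∃ C w κ κW,
    Newf (ordK h) n (fun x => c (Ideal.span {x})) C w κ κW := by
  obtain ⟨C, hC⟩ := hf.bound
  obtain ⟨κ, hκ⟩ := hf.periods
  obtain ⟨w, κW, hw, hW⟩ := hf.fricke
  have := h.pid
  refine ⟨C, w, κ, κW, ⟨?_, ?_⟩, hf.n0, hw, ?_, ?_, ?_⟩
  · simp only [Ideal.span_singleton_zero]
    exact hf.zero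
  · intro x
    have e1 : (ordK h).nm x = Ideal.absNorm (Ideal.span {x}) :=
      (Ideal.absNorm_span_singleton x).symm
    rw [e1]
    exact hC _
  · intro q hq hqn
    have hq0 : (Ideal.span {q} : Ideal (𝓞 K)) ≠ ⊥ := by
      rw [Ne, Ideal.span_singleton_eq_bot]
      exact hq.ne_zero
    let v : HeightOneSpectrum (𝓞 K) :=
      ⟨Ideal.span {q}, (Ideal.span_singleton_prime hq.ne_zero).2 hq, hq0⟩
    have hv : n ∉ v.asIdeal := fun hm => hqn (Ideal.mem_span_singleton.1 hm)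
    have hg := hf.good v hv
    have e1 : ∀ x, Ideal.span {q * x} = v.asIdeal * Ideal.span {x} := fun x =>
      (Ideal.span_singleton_mul_span_singleton q x).symm
    have e0 : (ordK h).nm q = Ideal.absNorm v.asIdeal :=
      (Ideal.absNorm_span_singleton q).symm
    refine ⟨fun x => c (Ideal.span {q}) * c (Ideal.span {x}) - c (Ideal.span {q * x}), ?_, ?_, ?_⟩
    · intro y
      simp only
      rw [e0, e1 (q * y), e1 y, (hg (Ideal.span {y})).2]
      ring
    · intro x hx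
      simp only
      rw [e1 x, (hg (Ideal.span {x})).1 fun hd => hx ?_]
      · exact sub_self _
      · have h3 := Ideal.dvd_iff_le.1 hd
        exact Ideal.mem_span_singleton.1 (h3 (Ideal.mem_span_singleton_self x))
    · intro x
      ring
  · intro γ hγ z t ht
    have h3 := hκ γ hγ z t ht
    rw [Fser_eq h] at h3
    exact h3
  · intro z t ht
    have h3 := hW z t ht
    rw [Fser_eq h] at h3
    exact h3

end sym

section gen

variable {K : Type} [Field K] [NumberField K] [hP : IsPrincipalIdealRing (𝓞 K)]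

/-- a generator of `v` -/
noncomputable def gen (v : HeightOneSpectrum (𝓞 K)) : 𝓞 K :=
  Submodule.IsPrincipal.generator v.asIdeal

lemma gen_span (v : HeightOneSpectrum (𝓞 K)) : Ideal.span {gen v} = v.asIdeal :=
  Ideal.span_singleton_generator v.asIdeal

lemma gen_dvd {v : HeightOneSpectrum (𝓞 K)} {x : 𝓞 K} : gen v ∣ x ↔ x ∈ v.asIdeal := by
  rw [← Ideal.mem_span_singleton, gen_span]

lemma gen_prime (v : HeightOneSpectrum (𝓞 K)) : Prime (gen v) :=
  Submodule.IsPrincipal.prime_generator_of_isPrime v.asIdeal v.ne_bot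

lemma gen_na {v v' : HeightOneSpectrum (𝓞 K)} (h : gen v ∣ gen v') : v = v' := by
  have h1 : v'.asIdeal ≤ v.asIdeal := by
    rw [← gen_span v', Ideal.span_singleton_le_iff_mem]
    exact gen_dvd.1 h
  have h2 : v'.asIdeal.IsMaximal := v'.isMaximal
  exact HeightOneSpectrum.ext (h2.eq_of_le v.isPrime.ne_top h1).symm

lemma gen_cov {x : 𝓞 K} (h0 : x ≠ 0) (hu : ¬ IsUnit x) : ∃ v, gen v ∣ x := by
  obtain ⟨m, hm, hle⟩ := Ideal.exists_le_maximal (Ideal.span {x}) (by
    rw [Ne, Ideal.span_singleton_eq_top]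
    exact hu)
  have hx : x ∈ m := hle (Ideal.mem_span_singleton_self x)
  refine ⟨⟨m, hm.isPrime, ?_⟩, gen_dvd.2 hx⟩
  rintro rfl
  exact h0 ((Submodule.mem_bot _).1 hx)

lemma gen_inj : Function.Injective (gen : HeightOneSpectrum (𝓞 K) → 𝓞 K) :=
  fun _ _ h => gen_na (h ▸ dvd_rfl)

lemma qs_gen (v : HeightOneSpectrum (𝓞 K)) (x : 𝓞 K) : qs (gen v) x = sym v x := by
  have h1 : ∀ y : 𝓞 K, gen v ∣ y ↔ y ∈ v.asIdeal := fun y => gen_dvd
  unfold qs sym
  by_cases h2 : x ∈ v.asIdeal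
  · rw [if_pos h2, if_pos ((h1 x).2 h2)]
  · rw [if_neg h2, if_neg fun h => h2 ((h1 x).1 h)]
    have h3 : (∃ y, gen v ∣ x - y ^ 2) ↔ ∃ y, x - y ^ 2 ∈ v.asIdeal :=
      exists_congr fun y => h1 _
    by_cases h4 : ∃ y, x - y ^ 2 ∈ v.asIdeal
    · rw [if_pos h4, if_pos (h3.2 h4)]
    · rw [if_neg h4, if_neg fun h => h4 (h3.1 h)]

lemma chi_gen [DecidableEq (𝓞 K)] (T : Finset (HeightOneSpectrum (𝓞 K))) (x : 𝓞 K) :
    chi (T.image gen) x = chiT T x := by
  unfold chi chiT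
  rw [Finset.prod_image fun _ _ _ _ h => gen_inj h]
  exact Finset.prod_congr rfl fun v _ => qs_gen v x

/-- the Euler factor -/
noncomputable def efac (n : 𝓞 K) (c : Ideal (𝓞 K) → ℂ) (T : Finset (HeightOneSpectrum (𝓞 K)))
    (s : ℂ) (v : HeightOneSpectrum (𝓞 K)) : ℂ :=
  open Classical in
  (1 - c v.asIdeal * chiT T (gen v) * (Ideal.absNorm v.asIdeal : ℂ) ^ (-s) +
    (if n ∈ v.asIdeal then 0 else chiT T (gen v) ^ 2 *
      (Ideal.absNorm v.asIdeal : ℂ) ^ (1 - 2 * s)))⁻¹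

/-- `L(f ⊗ χ_T, s)` is entire and not zero at `1` -/
def NVT (n : 𝓞 K) (c : Ideal (𝓞 K) → ℂ) (T : Finset (HeightOneSpectrum (𝓞 K))) : Prop :=
  ∃ G : ℂ → ℂ, Differentiable ℂ G ∧ (∀ s : ℂ, 2 < s.re → HasProd (efac n c T s) (G s)) ∧ G 1 ≠ 0

end gen

section main

variable {K : Type} [Field K] [NumberField K] [hP : IsPrincipalIdealRing (𝓞 K)]
  {σ : K →+* ℂ} {δ : K} {n : 𝓞 K} {c : Ideal (𝓞 K) → ℂ}

lemma entire_uniq {G H : ℂ → ℂ} (hG : Differentiable ℂ G) (hH : Differentiable ℂ H)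
    (h : ∀ s : ℂ, 2 < s.re → G s = H s) : G = H := by
  have h1 : AnalyticOnNhd ℂ G Set.univ := hG.differentiableOn.analyticOnNhd isOpen_univ
  have h2 : AnalyticOnNhd ℂ H Set.univ := hH.differentiableOn.analyticOnNhd isOpen_univ
  have h3 : G =ᶠ[𝓝 (3 : ℂ)] H := by
    have h4 : {s : ℂ | 2 < s.re} ∈ 𝓝 (3 : ℂ) :=
      (isOpen_lt continuous_const Complex.continuous_re).mem_nhds (by norm_num)
    filter_upwards [h4] with s hs using h s hs
  funext s
  exact h1.eqOn_of_preconnected_of_eventuallyEq h2 isPreconnected_univ (Set.mem_univ _) h3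
    (Set.mem_univ s)

/-- the twisted Dirichlet series as an Euler product -/
theorem euler_tw (h : IQ K σ δ) (hf : BF σ δ n c) [DecidableEq (𝓞 K)]
    {T : Finset (HeightOneSpectrum (𝓞 K))} (hT : Fam (T.image gen))
    (hu : ∀ u, IsUnit u → chiT T u = 1) {s : ℂ} (hs : 2 < s.re) :
    HasProd (efac n c T s) ((∑' x, c (Ideal.span {x}) * chi (T.image gen) x *
      ((ordK h).nm x : ℂ) ^ (-s)) / nu (𝓞 K)) := by
  classical
  set D := ordK h with hD
  have hnm : ∀ x, D.nm x = Ideal.absNorm (Ideal.span {x}) := fun x =>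
    (Ideal.absNorm_span_singleton x).symm
  obtain ⟨C, hC⟩ := hf.bound
  have hC0 : 0 ≤ C := by
    have h1 := hC ⊤
    rw [hf.one, norm_one, Ideal.absNorm_top] at h1
    push_cast at h1
    linarith
  have hchi : ∀ x, ‖chi (T.image gen) x‖ ≤ 1 := by
    intro x
    by_cases h0 : ∀ p ∈ T.image gen, ¬ p ∣ x
    · have h1 := chi_sq h0
      have h2 := congrArg norm h1
      rw [norm_mul, norm_one] at h2
      nlinarith [norm_nonneg (chi (T.image gen) x)]
    · push Not at h0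
      obtain ⟨p, hp, hd⟩ := h0
      rw [chi_zero hp hd, norm_zero]
      exact zero_le_one
  set F : 𝓞 K → ℂ := fun x => c (Ideal.span {x}) * chi (T.image gen) x * (D.nm x : ℂ) ^ (-s)
    with hF
  have hsum : Summable fun x => ‖F x‖ := by
    refine Summable.of_nonneg_of_le (fun _ => norm_nonneg _) (fun x => ?_)
      ((D.summ (s.re - 1) (by linarith)).mul_left C)
    by_cases hx : x = 0
    · subst hx
      simp only [hF]
      rw [Ideal.span_singleton_zero, hf.zero, zero_mul, zero_mul, norm_zero]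
      positivity
    · have hn : (0 : ℝ) < D.nm x := by exact_mod_cast D.nm_pos hx
      have h1 := hC (Ideal.span {x})
      rw [← hnm] at h1
      simp only [hF]
      rw [norm_mul, norm_mul]
      have h2 : ‖(D.nm x : ℂ) ^ (-s)‖ = (D.nm x : ℝ) ^ (-s.re) := by
        have := Complex.norm_cpow_eq_rpow_re_of_pos hn (-s)
        simpa using this
      rw [h2]
      calc ‖c (Ideal.span {x})‖ * ‖chi (T.image gen) x‖ * (D.nm x : ℝ) ^ (-s.re) ≤
            (C * D.nm x) * 1 * (D.nm x : ℝ) ^ (-s.re) := by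
              gcongr
              exact hchi x
        _ = C * (D.nm x : ℝ) ^ (-(s.re - 1)) := by
          rw [mul_one, mul_assoc]
          congr 1
          nth_rewrite 1 [← Real.rpow_one (D.nm x : ℝ)]
          rw [← Real.rpow_add hn]
          ring_nf
  have hnpow : ∀ x y, ((D.nm (x * y) : ℕ) : ℂ) ^ (-s) =
      (D.nm x : ℂ) ^ (-s) * (D.nm y : ℂ) ^ (-s) := by
    intro x y
    rw [D.nm_mul, Nat.cast_mul, Complex.natCast_mul_natCast_cpow]
  have espan : ∀ (v : HeightOneSpectrum (𝓞 K)) (x : 𝓞 K), Ideal.span {gen v * x} =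
      v.asIdeal * Ideal.span {x} := by
    intro v x
    rw [← Ideal.span_singleton_mul_span_singleton, gen_span]
  have hnv : ∀ v : HeightOneSpectrum (𝓞 K), D.nm (gen v) = Ideal.absNorm v.asIdeal := by
    intro v
    rw [hnm, gen_span]
  have key := euler D (g := gen) gen_prime (fun v v' => gen_na) (fun x h0 hu => gen_cov h0 hu)
    hsum (by simp only [hF]; rw [Ideal.span_singleton_zero, hf.zero, zero_mul, zero_mul])
    (fun x hx => by
      simp only [hF]
      rw [Ideal.span_singleton_eq_top.2 hx, hf.one, chi_gen, hu x hx, nm_unit D hx]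
      simp)
    (β := fun v => c v.asIdeal * chiT T (gen v) * (Ideal.absNorm v.asIdeal : ℂ) ^ (-s))
    (γ := fun v => if n ∈ v.asIdeal then 0 else chiT T (gen v) ^ 2 *
      (Ideal.absNorm v.asIdeal : ℂ) ^ (1 - 2 * s)) ?_ ?_
  · exact key
  · intro v x hx
    simp only [hF]
    rw [hnpow, chi_mul D hT, espan, chi_gen, hnv]
    by_cases hn : n ∈ v.asIdeal
    · rw [hf.bad v hn]; ring
    · rw [(hf.good v hn _).1 fun hd => hx ?_]
      · ring
      · have h3 := Ideal.dvd_iff_le.1 hd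
        exact gen_dvd.2 (h3 (Ideal.mem_span_singleton_self x))
  · intro v y
    simp only [hF]
    have hv0 : (Ideal.absNorm v.asIdeal : ℂ) ≠ 0 := by
      rw [← hnv]
      exact_mod_cast (D.nm_pos (gen_prime v).ne_zero).ne'
    rw [hnpow, hnpow, chi_mul D hT, chi_mul D hT, espan, espan, chi_gen, hnv]
    by_cases hn : n ∈ v.asIdeal
    · rw [if_pos hn, hf.bad v hn (v.asIdeal * Ideal.span {y})]; ring
    · rw [if_neg hn, (hf.good v hn _).2]
      have e1 : (Ideal.absNorm v.asIdeal : ℂ) ^ (1 - 2 * s) = (Ideal.absNorm v.asIdeal : ℂ) *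
          (Ideal.absNorm v.asIdeal : ℂ) ^ (-s) * (Ideal.absNorm v.asIdeal : ℂ) ^ (-s) := by
        rw [show (1 : ℂ) - 2 * s = 1 + -s + -s by ring, Complex.cpow_add _ _ hv0,
          Complex.cpow_add _ _ hv0, Complex.cpow_one]
      rw [e1]
      ring

/-- nonvanishing in terms of the sum of the values -/
theorem nvt_iff (h : IQ K σ δ) (hf : BF σ δ n c) [DecidableEq (𝓞 K)]
    {T : Finset (HeightOneSpectrum (𝓞 K))} (hT : Fam (T.image gen))
    (hu : ∀ u, IsUnit u → chiT T u = 1) (hn : ∀ v ∈ T, n ∉ v.asIdeal) :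
    NVT n c T ↔ bt (ordK h) (fv (ordK h) fun x => c (Ideal.span {x})) (T.image gen) ≠ 0 := by
  classical
  set D := ordK h with hD
  obtain ⟨C, w, κ, κW, hN⟩ := hf.newf h
  have hMG := hN.mg
  obtain ⟨G, hG1, hG2, hG3⟩ := twist hMG.toMF hT (fun p hp hd => by
    obtain ⟨v, hv, rfl⟩ := Finset.mem_image.1 hp
    exact hn v hv (gen_dvd.1 hd)) (by
      rw [chi_gen]
      exact hu _ isUnit_one.neg)
  have hk := kap_pos D
  have hg := gs_ne D hT
  have hnu := nu_ne D
  have hkg : (kap D : ℂ) / gs D (T.image gen) 1 ≠ 0 := div_ne_zero (by exact_mod_cast hk.ne') hg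
  have hsum : ∀ s : ℂ, 2 < s.re → Summable fun x => ‖c (Ideal.span {x})‖ *
      (D.nm x : ℝ) ^ (-s.re) := by
    intro s hs
    have hC := hN.cff
    refine Summable.of_nonneg_of_le (fun x => by positivity) (fun x => ?_)
      ((D.summ (s.re - 1) (by linarith)).mul_left C)
    by_cases hx : x = 0
    · subst hx
      rw [hC.zero, norm_zero, zero_mul, D.nm_zero, Nat.cast_zero,
        Real.zero_rpow (by linarith), mul_zero]
    · have hn : (0 : ℝ) < D.nm x := by exact_mod_cast D.nm_pos hx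
      have h2 := hC.bd x
      calc ‖c (Ideal.span {x})‖ * (D.nm x : ℝ) ^ (-s.re) ≤
            (C * D.nm x) * (D.nm x : ℝ) ^ (-s.re) := by gcongr
        _ = C * (D.nm x : ℝ) ^ (-(s.re - 1)) := by
          rw [mul_assoc]
          congr 1
          nth_rewrite 1 [← Real.rpow_one (D.nm x : ℝ)]
          rw [← Real.rpow_add hn]
          ring_nf
  have hprod : ∀ s : ℂ, 2 < s.re → HasProd (efac n c T s) (G s / nu (𝓞 K)) := by
    intro s hs
    rw [hG2 s (by linarith) (hsum s hs)]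
    exact euler_tw h hf hT hu hs
  have hb : bt D (fv D fun x => c (Ideal.span {x})) (T.image gen) =
      ∑ x ∈ rs D (md (T.image gen)), chi (T.image gen) x *
        fv D (fun x => c (Ideal.span {x})) (D.ι x / D.ι (md (T.image gen))) := rfl
  rw [← hb] at hG3
  constructor
  · rintro ⟨G', h1, h2, h3⟩ h0
    have h4 : G' = fun s => G s / nu (𝓞 K) := by
      refine entire_uniq h1 (hG1.div_const _) fun s hs => ?_
      exact (h2 s hs).unique (hprod s hs)
    apply h3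
    rw [h4]
    simp only
    rw [hG3, h0, mul_zero, zero_div]
  · intro h0
    refine ⟨fun s => G s / nu (𝓞 K), hG1.div_const _, hprod, ?_⟩
    simp only
    rw [hG3]
    exact div_ne_zero (mul_ne_zero hkg h0) hnu

end main

end Pool.Agent.K4H55.BI
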