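import Pool.Agent.K4H55.BI.Sl
import Pool.Agent.K4H55.BI.Act

/-!
The harmonic primitive of a Bianchi newform.
-/

set_option autoImplicit false

namespace Pool.Agent.K4H55.BI

open Matrix ComplexConjugate Filter Topology

variable {O : Type} [CommRing O]

/-- the data of a newform -/
structure Newf (D : Ord O) (n : O) (c : O → ℂ) (C : ℝ) (w : ℂ)
    (κ : SpecialLinearGroup (Fin 2) O → ℂ) (κW : ℂ) : Prop where
  cff : Cff D c C
  n0 : n ≠ 0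
  w2 : w * w = 1
  hk : ∀ q, Prime q → ¬ q ∣ n → ∃ d : O → ℂ, (∀ y, d (q * y) = D.nm q * c y) ∧
    (∀ x, ¬ q ∣ x → d x = 0) ∧ ∀ x, c q * c x = c (q * x) + d x
  inv : ∀ γ ∈ Gam n, ∀ (z : ℂ) (t : ℝ), 0 < t →
    Phi D c (hZ (D.ι (γ.1 0 0)) (D.ι (γ.1 0 1)) (D.ι (γ.1 1 0)) (D.ι (γ.1 1 1)) z t)
      (hT (D.ι (γ.1 1 0)) (D.ι (γ.1 1 1)) z t) = Phi D c z t + κ γ
  fricke : ∀ (z : ℂ) (t : ℝ), 0 < t →
    Phi D c (hZ 0 (-1) (D.ι n) 0 z t) (‖D.ι n‖ * hT (D.ι n) 0 z t) = -w * Phi D c z t + κW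

variable {D : Ord O} {n : O} {c : O → ℂ} {C : ℝ} {w : ℂ}
  {κ : SpecialLinearGroup (Fin 2) O → ℂ} {κW : ℂ}

lemma Newf.κ_mul (h : Newf D n c C w κ κW) : ∀ γ ∈ Gam n, ∀ γ' ∈ Gam n,
    κ (γ * γ') = κ γ + κ γ' := by
  intro γ hγ γ' hγ'
  obtain ⟨hd, -⟩ := Me_eta γ
  obtain ⟨hd', -⟩ := Me_eta γ'
  have hdι := congrArg D.ι hd
  have hdι' := congrArg D.ι hd'
  rw [map_sub, map_mul, map_mul, map_one] at hdι hdι'
  have h1 := h.inv (γ * γ') ((Gam n).mul_mem hγ hγ') 0 1 one_pos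
  have h2 := h.inv γ' hγ' 0 1 one_pos
  have hpos : 0 < hT (D.ι (γ'.1 1 0)) (D.ι (γ'.1 1 1)) 0 1 := by
    unfold hT
    have := hN_pos (z := 0) hdι' one_pos
    positivity
  have h3 := h.inv γ hγ (hZ (D.ι (γ'.1 0 0)) (D.ι (γ'.1 0 1)) (D.ι (γ'.1 1 0)) (D.ι (γ'.1 1 1)) 0 1)
    _ hpos
  obtain ⟨h4, h5⟩ := act_comp (z := 0) hdι' hdι one_pos
  rw [h4, h5, h2] at h3
  have e : ∀ i j, (γ * γ').1 i j = γ.1 i 0 * γ'.1 0 j + γ.1 i 1 * γ'.1 1 j := by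
    intro i j
    show (γ.1 * γ'.1) i j = _
    rw [Matrix.mul_apply, Fin.sum_univ_two]
  simp only [e, map_add, map_mul] at h1
  rw [h1] at h3
  linear_combination h3

/-- the group of the values -/
noncomputable def MM (n : O) (w : ℂ) (κ : SpecialLinearGroup (Fin 2) O → ℂ) (κW : ℂ) :
    Submodule ℤ ℂ :=
  Submodule.span ℤ {z | ∃ γ ∈ Gam n, z = κ γ} ⊔ Submodule.span ℤ {w * κW}

theorem Newf.cusp (h : Newf D n c C w κ κW) {x m r s : O} (hm : m ≠ 0)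
    (hs : s * m + n * x * r = 1) : ∃ L ∈ MM n w κ κW, ∀ t : ℝ, 0 < t →
    Phi D c (D.ι x / D.ι m) t =
      L - w * Phi D c (-(D.ι r / D.ι m)) (1 / (‖D.ι n‖ * ‖D.ι m‖ ^ 2 * t)) := by
  have hιm : D.ι m ≠ 0 := fun h => hm (D.inj (by rw [h, map_zero]))
  have hιn : D.ι n ≠ 0 := fun h' => h.n0 (D.inj (by rw [h', map_zero]))
  have hdet : m * s - (-x) * (n * r) = 1 := by linear_combination hs
  set γ : SpecialLinearGroup (Fin 2) O := Me m (-x) (n * r) s hdet with hγ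
  have hmem : γ ∈ Gam n := by
    show n ∣ n * r
    exact dvd_mul_right _ _
  refine ⟨w * κW - κ γ, Submodule.sub_mem _ (Submodule.mem_sup_right
    (Submodule.subset_span rfl)) (Submodule.mem_sup_left (Submodule.subset_span ⟨γ, hmem, rfl⟩)),
    fun t ht => ?_⟩
  have h1 := h.inv γ hmem (D.ι x / D.ι m) t ht
  have e00 : γ.1 0 0 = m := rfl
  have e01 : γ.1 0 1 = -x := rfl
  have e10 : γ.1 1 0 = n * r := rfl
  have e11 : γ.1 1 1 = s := rfl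
  rw [e00, e01, e10, e11] at h1
  have hdetι : D.ι m * D.ι s - D.ι (-x) * D.ι (n * r) = 1 := by
    rw [← map_mul, ← map_mul, ← map_sub, hdet, map_one]
  set z1 := hZ (D.ι m) (D.ι (-x)) (D.ι (n * r)) (D.ι s) (D.ι x / D.ι m) t with hz1
  set t1 := hT (D.ι (n * r)) (D.ι s) (D.ι x / D.ι m) t with ht1
  have hNp := hN_pos (z := D.ι x / D.ι m) hdetι ht
  have ht1p : 0 < t1 := by rw [ht1]; unfold hT; positivity
  have h2 := h.fricke z1 t1 ht1p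
  -- the composition with the Fricke element
  have hsc : D.ι s * D.ι m + D.ι n * D.ι x * D.ι r = 1 := by
    rw [← map_mul, ← map_mul, ← map_mul, ← map_add, hs, map_one]
  have hcz : D.ι (n * r) * (D.ι x / D.ι m) + D.ι s = 1 / D.ι m := by
    rw [map_mul]
    field_simp
    linear_combination hsc
  have haz : D.ι m * (D.ι x / D.ι m) + D.ι (-x) = 0 := by
    rw [map_neg]
    field_simp
    ring
  have hNv : hN (D.ι (n * r)) (D.ι s) (D.ι x / D.ι m) t =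
      1 / ‖D.ι m‖ ^ 2 + ‖D.ι (n * r)‖ ^ 2 * t ^ 2 := by
    unfold hN
    rw [hcz, norm_div, norm_one, div_pow, one_pow]
  have hz1v : z1 = D.ι m * conj (D.ι (n * r)) * (t : ℂ) ^ 2 /
      (hN (D.ι (n * r)) (D.ι s) (D.ι x / D.ι m) t : ℂ) := by
    rw [hz1]
    unfold hZ
    rw [haz, zero_mul, zero_add]
  have hNc : (hN (D.ι (n * r)) (D.ι s) (D.ι x / D.ι m) t : ℂ) ≠ 0 := by exact_mod_cast hNp.ne'
  have hnm : (0 : ℝ) < ‖D.ι m‖ := norm_pos_iff.2 hιm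
  have hnn : (0 : ℝ) < ‖D.ι n‖ := norm_pos_iff.2 hιn
  have hsq : ‖z1‖ ^ 2 + t1 ^ 2 = t ^ 2 * ‖D.ι m‖ ^ 2 /
      hN (D.ι (n * r)) (D.ι s) (D.ι x / D.ι m) t := by
    have e1 : ‖z1‖ = ‖D.ι m‖ * ‖D.ι (n * r)‖ * t ^ 2 /
        hN (D.ι (n * r)) (D.ι s) (D.ι x / D.ι m) t := by
      rw [hz1v, norm_div, norm_mul, norm_mul, norm_pow, RCLike.norm_conj, Complex.norm_real,
        Complex.norm_real, Real.norm_eq_abs, Real.norm_eq_abs, abs_of_pos ht, abs_of_pos hNp]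
    have e2 : t1 = t / hN (D.ι (n * r)) (D.ι s) (D.ι x / D.ι m) t := rfl
    rw [e1, e2]
    have e3 : (‖D.ι m‖ * ‖D.ι (n * r)‖ * t ^ 2) ^ 2 + t ^ 2 = t ^ 2 * ‖D.ι m‖ ^ 2 *
        hN (D.ι (n * r)) (D.ι s) (D.ι x / D.ι m) t := by
      rw [hNv]
      field_simp
      ring
    rw [div_pow, div_pow, ← add_div, e3]
    field_simp
  have hN2 : hN (D.ι n) 0 z1 t1 = ‖D.ι n‖ ^ 2 * (t ^ 2 * ‖D.ι m‖ ^ 2 /
      hN (D.ι (n * r)) (D.ι s) (D.ι x / D.ι m) t) := by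
    rw [← hsq]
    unfold hN
    rw [add_zero, norm_mul]
    ring
  have hZ2 : hZ 0 (-1) (D.ι n) 0 z1 t1 = -(D.ι r / D.ι m) := by
    unfold hZ
    rw [hN2, hz1v]
    have hmm : conj (D.ι m) * D.ι m = ((‖D.ι m‖ ^ 2 : ℝ) : ℂ) := by
      rw [mul_comm, Complex.mul_conj, Complex.normSq_eq_norm_sq]
    have hnn' : conj (D.ι n) * D.ι n = ((‖D.ι n‖ ^ 2 : ℝ) : ℂ) := by
      rw [mul_comm, Complex.mul_conj, Complex.normSq_eq_norm_sq]
    have hcm : conj (D.ι m) ≠ 0 := by rwa [Ne, map_eq_zero]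
    have hcn : conj (D.ι n) ≠ 0 := by rwa [Ne, map_eq_zero]
    have htc : (t : ℂ) ≠ 0 := by exact_mod_cast ht.ne'
    have e4 : (((‖D.ι n‖ ^ 2 * (t ^ 2 * ‖D.ι m‖ ^ 2 /
        hN (D.ι (n * r)) (D.ι s) (D.ι x / D.ι m) t) : ℝ)) : ℂ) = (conj (D.ι n) * D.ι n) *
          ((t : ℂ) ^ 2 * (conj (D.ι m) * D.ι m) /
            (hN (D.ι (n * r)) (D.ι s) (D.ι x / D.ι m) t : ℂ)) := by
      rw [hmm, hnn']
      push_cast
      ring
    have hreal : conj ((hN (D.ι (n * r)) (D.ι s) (D.ι x / D.ι m) t : ℝ) : ℂ) =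
      ((hN (D.ι (n * r)) (D.ι s) (D.ι x / D.ι m) t : ℝ) : ℂ) := Complex.conj_ofReal _
    have hNc' := hNc
    rw [e4]
    generalize ((hN (D.ι (n * r)) (D.ι s) (D.ι x / D.ι m) t : ℝ) : ℂ) = NN at hNc' hreal ⊢
    have e5 : D.ι (n * r) = D.ι n * D.ι r := map_mul _ _ _
    rw [e5]
    simp only [zero_mul, zero_add, map_mul, add_zero, map_div₀, map_pow,
      Complex.conj_conj, Complex.conj_ofReal, hreal]
    field_simp
  have hT2 : ‖D.ι n‖ * hT (D.ι n) 0 z1 t1 = 1 / (‖D.ι n‖ * ‖D.ι m‖ ^ 2 * t) := by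
    unfold hT
    rw [hN2]
    have e2 : t1 = t / hN (D.ι (n * r)) (D.ι s) (D.ι x / D.ι m) t := rfl
    rw [e2]
    field_simp
  rw [hZ2, hT2, h1] at h2
  linear_combination w * h2 - (Phi D c (D.ι x / D.ι m) t + κ γ) * h.w2

theorem Newf.mg [IsDomain O] (h : Newf D n c C w κ κW) : MG D n c C w (MM n w κ κW) := by
  have hmf : MF D n c C w := ⟨h.cff, h.n0, fun x m r s hm hs => by
    obtain ⟨L, _, hL⟩ := h.cusp hm hs
    exact ⟨L, hL⟩⟩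
  refine { toMF := hmf, hk := h.hk, fg := ?_, val := ?_ }
  · exact (vals_fg D h.n0 h.κ_mul).sup (Submodule.fg_span_singleton _)
  · intro x m r s hm hs
    obtain ⟨L, hL, h1⟩ := h.cusp hm hs
    obtain ⟨h2, h3⟩ := hmf.lim hm hs
    have h4 := h1 1 one_pos
    have h5 := h3 1 one_pos
    have h6 : fv D c (D.ι x / D.ι m) = L := by
      rw [h4] at h5
      linear_combination -h5
    rw [h6]
    exact hL

end Pool.Agent.K4H55.BI
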