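import Pool.Agent.K4H55.BI.Hk

/-!
The finite generation of `Γ₀(n) ⊂ SL₂(O)`.
-/

set_option autoImplicit false

namespace Pool.Agent.K4H55.BI

open Matrix

variable {O : Type} [CommRing O]

/-- a matrix with entries `a b; c d` -/
def Me (a b c d : O) (h : a * d - b * c = 1) : SpecialLinearGroup (Fin 2) O :=
  ⟨!![a, b; c, d], by rw [Matrix.det_fin_two_of, h]⟩

lemma Me_congr {a b c d a' b' c' d' : O} {h : a * d - b * c = 1} {h' : a' * d' - b' * c' = 1}
    (h1 : a = a') (h2 : b = b') (h3 : c = c') (h4 : d = d') : Me a b c d h = Me a' b' c' d' h' := by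
  subst h1 h2 h3 h4
  rfl

lemma Me_mul {a b c d a' b' c' d' : O} (h : a * d - b * c = 1) (h' : a' * d' - b' * c' = 1) :
    Me a b c d h * Me a' b' c' d' h' = Me (a * a' + b * c') (a * b' + b * d') (c * a' + d * c')
      (c * b' + d * d') (by linear_combination (a' * d' - b' * c') * h + h') := by
  apply Subtype.ext
  show !![a, b; c, d] * !![a', b'; c', d'] = !![a * a' + b * c', a * b' + b * d';
    c * a' + d * c', c * b' + d * d']
  rw [Matrix.mul_fin_two]

lemma Me_eta (γ : SpecialLinearGroup (Fin 2) O) : ∃ h : γ.1 0 0 * γ.1 1 1 - γ.1 0 1 * γ.1 1 0 = 1,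
    γ = Me (γ.1 0 0) (γ.1 0 1) (γ.1 1 0) (γ.1 1 1) h := by
  have hdet := γ.2
  rw [Matrix.det_fin_two] at hdet
  exact ⟨hdet, Subtype.ext (Matrix.eta_fin_two γ.1)⟩

/-- upper elementary matrix -/
def Ue (x : O) : SpecialLinearGroup (Fin 2) O := Me 1 x 0 1 (by ring)

/-- lower elementary matrix -/
def Le (x : O) : SpecialLinearGroup (Fin 2) O := Me 1 0 x 1 (by ring)

lemma Ue_add (x y : O) : Ue (x + y) = Ue x * Ue y := by
  unfold Ue
  rw [Me_mul]
  exact Me_congr (by ring) (by ring) (by ring) (by ring)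

lemma Le_add (x y : O) : Le (x + y) = Le x * Le y := by
  unfold Le
  rw [Me_mul]
  exact Me_congr (by ring) (by ring) (by ring) (by ring)

lemma Me_one : (Me 1 0 0 1 (by ring) : SpecialLinearGroup (Fin 2) O) = 1 := by
  apply Subtype.ext
  show !![(1 : O), 0; 0, 1] = 1
  exact Matrix.one_fin_two.symm

lemma Ue_zero : Ue (0 : O) = 1 := Me_one

lemma Le_zero : Le (0 : O) = 1 := Me_one

lemma Ue_mem {H : Subgroup (SpecialLinearGroup (Fin 2) O)} {B : Set O}
    (hB : AddSubgroup.closure B = ⊤) (h : ∀ b ∈ B, Ue b ∈ H) (x : O) : Ue x ∈ H := by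
  have hx : x ∈ AddSubgroup.closure B := by rw [hB]; trivial
  induction hx using AddSubgroup.closure_induction with
  | mem x hx => exact h x hx
  | zero => rw [Ue_zero]; exact H.one_mem
  | add x y _ _ h1 h2 => rw [Ue_add]; exact H.mul_mem h1 h2
  | neg x _ h1 =>
    have : Ue (-x) = (Ue x)⁻¹ := by
      refine eq_inv_of_mul_eq_one_left ?_
      rw [← Ue_add, neg_add_cancel, Ue_zero]
    rw [this]
    exact H.inv_mem h1

lemma Le_mem {H : Subgroup (SpecialLinearGroup (Fin 2) O)} {B : Set O}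
    (hB : AddSubgroup.closure B = ⊤) (h : ∀ b ∈ B, Le b ∈ H) (x : O) : Le x ∈ H := by
  have hx : x ∈ AddSubgroup.closure B := by rw [hB]; trivial
  induction hx using AddSubgroup.closure_induction with
  | mem x hx => exact h x hx
  | zero => rw [Le_zero]; exact H.one_mem
  | add x y _ _ h1 h2 => rw [Le_add]; exact H.mul_mem h1 h2
  | neg x _ h1 =>
    have : Le (-x) = (Le x)⁻¹ := by
      refine eq_inv_of_mul_eq_one_left ?_
      rw [← Le_add, neg_add_cancel, Le_zero]
    rw [this]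
    exact H.inv_mem h1

lemma small_fin (D : Ord O) (B : ℕ) : {x : O | D.nm x ≤ B}.Finite := by
  have h1 := (D.summ_pow 2 le_rfl).tendsto_cofinite_zero
  have hpos : (0 : ℝ) < ((B + 1 : ℝ)⁻¹) ^ 2 := by positivity
  have h2 := h1.eventually (gt_mem_nhds hpos)
  rw [Filter.eventually_cofinite] at h2
  refine (h2.union (Set.finite_singleton 0)).subset ?_
  intro x hx
  by_cases h0 : x = 0
  · exact Or.inr h0
  · left
    have hn : (0 : ℝ) < D.nm x := by exact_mod_cast D.nm_pos h0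
    have hx' : (D.nm x : ℝ) ≤ B := by exact_mod_cast hx
    show ¬ ((D.nm x : ℝ)⁻¹) ^ 2 < ((B + 1 : ℝ)⁻¹) ^ 2
    rw [not_lt]
    have h3 : (B + 1 : ℝ)⁻¹ ≤ (D.nm x : ℝ)⁻¹ := inv_anti₀ hn (by linarith)
    exact pow_le_pow_left₀ (by positivity) h3 2

open Classical in
/-- the representative modulo `d` (`x` itself for `d = 0`) -/
noncomputable def rho (D : Ord O) (d x : O) : O :=
  if h : d ≠ 0 then ((rs_CRS D h).ex x).choose else x

lemma rho_zero (D : Ord O) (x : O) : rho D 0 x = x := by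
  unfold rho
  rw [dif_neg (by simp)]

lemma rho_mem (D : Ord O) {d : O} (hd : d ≠ 0) (x : O) : rho D d x ∈ rs D d ∧ d ∣ x - rho D d x := by
  unfold rho
  rw [dif_pos hd]
  exact ((rs_CRS D hd).ex x).choose_spec

/-- the matrices with small lower left entry -/
theorem small_gen [IsDomain O] (D : Ord O) (B : ℕ) :
    ∃ F : Set (SpecialLinearGroup (Fin 2) O), F.Finite ∧
      ∀ H : Subgroup (SpecialLinearGroup (Fin 2) O), (∀ x, Ue x ∈ H) → F ⊆ H →
        ∀ γ : SpecialLinearGroup (Fin 2) O, D.nm (γ.1 1 0) ≤ B → γ ∈ H := by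
  classical
  let f : SpecialLinearGroup (Fin 2) O → O × O × O := fun γ =>
    (γ.1 1 0, rho D (γ.1 1 0) (γ.1 0 0), rho D (γ.1 1 0) (γ.1 1 1))
  let S0 : Set (SpecialLinearGroup (Fin 2) O) := {γ | D.nm (γ.1 1 0) ≤ B}
  have hfin : (f '' S0).Finite := by
    have h1 : (⋃ d ∈ {x : O | D.nm x ≤ B}, ({d} : Set O) ×ˢ
        (((rs D d : Set O) ∪ {x | D.nm x ≤ 1}) ×ˢ ((rs D d : Set O) ∪ {x | D.nm x ≤ 1}))).Finite := by
      refine (small_fin D B).biUnion fun d _ => ?_
      have h2 := (rs D d).finite_toSet.union (small_fin D 1)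
      exact (Set.finite_singleton d).prod (h2.prod h2)
    refine h1.subset ?_
    rintro _ ⟨γ, hγ, rfl⟩
    simp only [Set.mem_iUnion]
    refine ⟨γ.1 1 0, hγ, ?_⟩
    by_cases h0 : γ.1 1 0 = 0
    · obtain ⟨hdet, -⟩ := Me_eta γ
      have hdet' : γ.1 0 0 * γ.1 1 1 = 1 := by rw [h0] at hdet; linear_combination hdet
      have hn := congrArg D.nm hdet'
      have hn1 : D.nm 1 = 1 := by
        have := D.nm_eq 1
        rw [map_one, norm_one, one_pow] at this
        exact_mod_cast this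
      rw [D.nm_mul, hn1] at hn
      have h3 : D.nm (γ.1 0 0) = 1 := Nat.eq_one_of_mul_eq_one_right hn
      have h4 : D.nm (γ.1 1 1) = 1 := Nat.eq_one_of_mul_eq_one_left hn
      refine ⟨rfl, Or.inr ?_, Or.inr ?_⟩
      · show D.nm (rho D (γ.1 1 0) (γ.1 0 0)) ≤ 1
        rw [h0, rho_zero, h3]
      · show D.nm (rho D (γ.1 1 0) (γ.1 1 1)) ≤ 1
        rw [h0, rho_zero, h4]
    · exact ⟨rfl, Or.inl (rho_mem D h0 _).1, Or.inl (rho_mem D h0 _).1⟩
  have hch : ∀ y ∈ f '' S0, ∃ γ ∈ S0, f γ = y := fun y hy => hy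
  choose! g hg1 hg2 using hch
  refine ⟨g '' (f '' S0), hfin.image g, ?_⟩
  intro H hU hF γ hγ
  have hy : f γ ∈ f '' S0 := ⟨γ, hγ, rfl⟩
  have hgH : g (f γ) ∈ H := hF ⟨f γ, hy, rfl⟩
  have hfg := hg2 (f γ) hy
  set γ0 := g (f γ) with hγ0
  have e1 : γ0.1 1 0 = γ.1 1 0 := congrArg (fun p : O × O × O => p.1) hfg
  have e2 : rho D (γ0.1 1 0) (γ0.1 0 0) = rho D (γ.1 1 0) (γ.1 0 0) :=
    congrArg (fun p : O × O × O => p.2.1) hfg
  have e3 : rho D (γ0.1 1 0) (γ0.1 1 1) = rho D (γ.1 1 0) (γ.1 1 1) :=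
    congrArg (fun p : O × O × O => p.2.2) hfg
  obtain ⟨hdet, hγe⟩ := Me_eta γ
  obtain ⟨hdet0, hγe0⟩ := Me_eta γ0
  rw [e1] at e2 e3
  by_cases h0 : γ.1 1 0 = 0
  · rw [h0, rho_zero, rho_zero] at e2 e3
    have h1 : γ = γ0 * Ue (γ0.1 1 1 * (γ.1 0 1 - γ0.1 0 1)) := by
      have hd1 : γ.1 0 0 * γ.1 1 1 = 1 := by rw [h0] at hdet; linear_combination hdet
      have h5 : γ0 * Ue (γ0.1 1 1 * (γ.1 0 1 - γ0.1 0 1)) =
          Me (γ0.1 0 0) (γ0.1 0 1) (γ0.1 1 0) (γ0.1 1 1) hdet0 *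
            Me 1 (γ0.1 1 1 * (γ.1 0 1 - γ0.1 0 1)) 0 1 (by ring) := by
        rw [← hγe0]
        rfl
      rw [h5, Me_mul]
      conv_lhs => rw [hγe]
      refine Me_congr (by rw [e2]; ring) ?_ (by rw [e1, h0]; ring) (by rw [e1, h0, e3]; ring)
      rw [e2, e3]
      linear_combination (-(γ.1 0 1) + γ0.1 0 1) * hd1
    rw [h1]
    exact H.mul_mem hgH (hU _)
  · obtain ⟨k, hk⟩ : γ.1 1 0 ∣ γ.1 0 0 - γ0.1 0 0 := by
      have h1 := (rho_mem D h0 (γ.1 0 0)).2
      have h2 := (rho_mem D h0 (γ0.1 0 0)).2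
      rw [e2] at h2
      have : γ.1 0 0 - γ0.1 0 0 = (γ.1 0 0 - rho D (γ.1 1 0) (γ.1 0 0)) -
        (γ0.1 0 0 - rho D (γ.1 1 0) (γ.1 0 0)) := by ring
      rw [this]
      exact dvd_sub h1 h2
    obtain ⟨l, hl⟩ : γ.1 1 0 ∣ γ.1 1 1 - γ0.1 1 1 := by
      have h1 := (rho_mem D h0 (γ.1 1 1)).2
      have h2 := (rho_mem D h0 (γ0.1 1 1)).2
      rw [e3] at h2
      have : γ.1 1 1 - γ0.1 1 1 = (γ.1 1 1 - rho D (γ.1 1 0) (γ.1 1 1)) -
        (γ0.1 1 1 - rho D (γ.1 1 0) (γ.1 1 1)) := by ring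
      rw [this]
      exact dvd_sub h1 h2
    have h1 : γ = Ue k * γ0 * Ue l := by
      have h5 : Ue k * γ0 * Ue l = Me 1 k 0 1 (by ring) *
          Me (γ0.1 0 0) (γ0.1 0 1) (γ0.1 1 0) (γ0.1 1 1) hdet0 * Me 1 l 0 1 (by ring) := by
        rw [← hγe0]
        rfl
      rw [h5, Me_mul, Me_mul]
      conv_lhs => rw [hγe]
      refine Me_congr ?_ ?_ ?_ ?_
      · rw [e1]; linear_combination hk
      · apply mul_right_cancel₀ h0
        rw [e1] at hdet0 ⊢
        linear_combination hdet0 - hdet + (γ.1 1 1) * hk + (γ0.1 0 0 + k * γ.1 1 0) * hl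
      · rw [e1]; ring
      · rw [e1]; linear_combination hl
    rw [h1]
    exact H.mul_mem (H.mul_mem (hU k) hgH) (hU l)

theorem sl2_fg [IsDomain O] (D : Ord O) : Group.FG (SpecialLinearGroup (Fin 2) O) := by
  classical
  have hfin := D.fin
  have hpid := D.pid
  obtain ⟨Bs, hBs⟩ := Module.finite_def.1 hfin
  have hB' : AddSubgroup.closure (Bs : Set O) = ⊤ := by
    rw [← Submodule.span_int_eq_addSubgroupClosure, hBs]
    rfl
  obtain ⟨B, hB⟩ := D.approx
  obtain ⟨F, hF, hgen⟩ := small_gen D B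
  rw [Group.fg_iff]
  refine ⟨F ∪ Ue '' (Bs : Set O), ?_, hF.union (Bs.finite_toSet.image _)⟩
  set H := Subgroup.closure (F ∪ Ue '' (Bs : Set O)) with hH
  have hU : ∀ x, Ue x ∈ H := Ue_mem hB' fun b hb => Subgroup.subset_closure (Or.inr ⟨b, hb, rfl⟩)
  have hsmall := hgen H hU fun γ hγ => Subgroup.subset_closure (Or.inl hγ)
  have hall : ∀ k : ℕ, ∀ γ : SpecialLinearGroup (Fin 2) O, D.nm (γ.1 1 0) = k → γ ∈ H := by
    intro k
    induction k using Nat.strong_induction_on with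
    | _ k ih =>
      intro γ hk
      by_cases hkB : k ≤ B
      · exact hsmall γ (by rw [hk]; exact hkB)
      · have h0 : γ.1 1 0 ≠ 0 := by
          intro h
          rw [h, D.nm_zero] at hk
          omega
        obtain ⟨q, r, hr, hrB, hlt⟩ := hB (γ.1 0 0) (γ.1 1 0) h0
        -- the greatest common divisor
        obtain ⟨d, hd⟩ := (IsPrincipalIdealRing.principal (Ideal.span {q, r})).principal
        have hd' : Ideal.span {q, r} = Ideal.span {d} := hd
        have hq : q ∈ Ideal.span {d} := by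
          rw [← hd']; exact Ideal.subset_span (by simp)
        have hrm : r ∈ Ideal.span {d} := by
          rw [← hd']; exact Ideal.subset_span (by simp)
        have hdd : d ∈ Ideal.span {q, r} := by
          rw [hd']; exact Ideal.subset_span (by simp)
        obtain ⟨q', hq'⟩ := Ideal.mem_span_singleton.1 hq
        obtain ⟨r', hr'⟩ := Ideal.mem_span_singleton.1 hrm
        obtain ⟨u, v, huv⟩ := Ideal.mem_span_pair.1 hdd
        have hd0 : d ≠ 0 := by
          rintro rfl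
          exact hr (by rw [hr', zero_mul])
        have h1 : q' * u - (-v) * r' = 1 := by
          apply mul_left_cancel₀ hd0
          linear_combination huv - u * hq' - v * hr'
        have hnd : 1 ≤ D.nm d := D.nm_pos hd0
        have hγ1 : Me q' (-v) r' u h1 ∈ H := by
          refine hsmall _ ?_
          show D.nm r' ≤ B
          refine le_trans ?_ hrB
          rw [hr', D.nm_mul]
          exact Nat.le_mul_of_pos_left _ hnd
        have h2 : u * q' - v * (-r') = 1 := by linear_combination h1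
        have hinv : (Me u v (-r') q' h2 : SpecialLinearGroup (Fin 2) O) * Me q' (-v) r' u h1 = 1 := by
          rw [Me_mul, ← Me_one]
          exact Me_congr (by linear_combination h1) (by ring) (by ring) (by linear_combination h1)
        obtain ⟨hdet, hγe⟩ := Me_eta γ
        set γ2 : SpecialLinearGroup (Fin 2) O := Me u v (-r') q' h2 * γ with hγ2
        have h3 : γ2.1 1 0 = q' * γ.1 1 0 - r' * γ.1 0 0 := by
          have h5 : γ2 = Me u v (-r') q' h2 *
              Me (γ.1 0 0) (γ.1 0 1) (γ.1 1 0) (γ.1 1 1) hdet := by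
            rw [← hγe]
          rw [h5, Me_mul]
          show -r' * γ.1 0 0 + q' * γ.1 1 0 = _
          ring
        have h4 : D.nm (γ2.1 1 0) < k := by
          rw [h3, ← hk]
          refine lt_of_le_of_lt ?_ hlt
          have h5 : r * γ.1 0 0 - q * γ.1 1 0 = (-d) * (q' * γ.1 1 0 - r' * γ.1 0 0) := by
            rw [hr', hq']; ring
          have h6 : D.nm (-d) = D.nm d := by
            have : (D.nm (-d) : ℝ) = D.nm d := by
              rw [D.nm_eq, D.nm_eq, map_neg, norm_neg]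
            exact_mod_cast this
          rw [h5, D.nm_mul, h6]
          exact Nat.le_mul_of_pos_left _ hnd
        have h5 := ih _ h4 γ2 rfl
        have h6 : γ = Me q' (-v) r' u h1 * γ2 := by
          have h7 : (Me u v (-r') q' h2 : SpecialLinearGroup (Fin 2) O) = (Me q' (-v) r' u h1)⁻¹ :=
            eq_inv_of_mul_eq_one_left hinv
          rw [hγ2, h7, mul_inv_cancel_left]
        rw [h6]
        exact H.mul_mem hγ1 h5
  rw [eq_top_iff]
  intro γ _
  exact hall _ γ rfl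

/-- the congruence subgroup `Γ₀(n)` -/
def Gam (n : O) : Subgroup (SpecialLinearGroup (Fin 2) O) where
  carrier := {γ | n ∣ γ.1 1 0}
  mul_mem' := by
    intro γ γ' h h'
    show n ∣ (γ.1 * γ'.1) 1 0
    rw [Matrix.mul_apply, Fin.sum_univ_two]
    exact dvd_add (Dvd.dvd.mul_right h _) (Dvd.dvd.mul_left h' _)
  one_mem' := by
    show n ∣ (1 : Matrix (Fin 2) (Fin 2) O) 1 0
    simp
  inv_mem' := by
    intro γ h
    show n ∣ (γ⁻¹).1 1 0
    rw [Matrix.SpecialLinearGroup.SL2_inv_expl]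
    simpa using h

theorem Gam_fg [IsDomain O] (D : Ord O) {n : O} (hn : n ≠ 0) : Group.FG (Gam n) := by
  classical
  have hfg := sl2_fg D
  have hfin : Finite (O ⧸ Ideal.span {n}) := by
    refine Nat.finite_of_card_ne_zero ?_
    rw [D.card n hn]
    exact (D.nm_pos hn).ne'
  have hfinM : Finite (Matrix (Fin 2) (Fin 2) (O ⧸ Ideal.span {n})) := by
    unfold Matrix
    infer_instance
  have hfinS : Finite (SpecialLinearGroup (Fin 2) (O ⧸ Ideal.span {n})) := Subtype.finite
  let φ := Matrix.SpecialLinearGroup.map (n := Fin 2) (Ideal.Quotient.mk (Ideal.span {n}))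
  have h1 : φ.ker.FiniteIndex := Subgroup.finiteIndex_ker φ
  have h2 : φ.ker ≤ Gam n := by
    intro γ hγ
    rw [MonoidHom.mem_ker] at hγ
    have h3 := congrArg (fun g : SpecialLinearGroup (Fin 2) (O ⧸ Ideal.span {n}) => g.1 1 0) hγ
    show n ∣ γ.1 1 0
    rw [← Ideal.mem_span_singleton, ← Ideal.Quotient.eq_zero_iff_mem]
    simpa [φ] using h3
  have h3 : (Gam n).FiniteIndex := Subgroup.finiteIndex_of_le h2
  exact Subgroup.fg_of_index_ne_zero (Gam n)

/-- the values of an additive function on `Γ₀(n)` generate a finitely generated group -/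
theorem vals_fg [IsDomain O] (D : Ord O) {n : O} (hn : n ≠ 0) {κ : SpecialLinearGroup (Fin 2) O → ℂ}
    (hκ : ∀ γ ∈ Gam n, ∀ γ' ∈ Gam n, κ (γ * γ') = κ γ + κ γ') :
    (Submodule.span ℤ {z | ∃ γ ∈ Gam n, z = κ γ}).FG := by
  classical
  have hfg := Gam_fg D hn
  obtain ⟨S, hS, hfin⟩ := Group.fg_iff.1 hfg
  have h1 : κ 1 = 0 := by
    have := hκ 1 (Gam n).one_mem 1 (Gam n).one_mem
    rw [mul_one] at this
    linear_combination -this
  have hfS := hfin.image (fun γ : Gam n => κ γ)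
  have hle : ∀ γ : Gam n, κ γ ∈ Submodule.span ℤ ((fun γ : Gam n => κ γ) '' S) := by
    intro γ
    have hγ : γ ∈ Subgroup.closure S := by rw [hS]; trivial
    induction hγ using Subgroup.closure_induction with
    | mem x hx => exact Submodule.subset_span ⟨x, hx, rfl⟩
    | one =>
      rw [Subgroup.coe_one, h1]
      exact Submodule.zero_mem _
    | mul x y _ _ hx hy =>
      rw [Subgroup.coe_mul, hκ x x.2 y y.2]
      exact Submodule.add_mem _ hx hy
    | inv x _ hx =>
      have h2 := hκ x x.2 (x⁻¹ : Gam n) (x⁻¹ : Gam n).2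
      rw [Subgroup.coe_inv, mul_inv_cancel, h1] at h2
      have h3 : κ ((x : SpecialLinearGroup (Fin 2) O)⁻¹) = -κ x := by linear_combination -h2
      rw [Subgroup.coe_inv, h3]
      exact Submodule.neg_mem _ hx
  refine ⟨hfS.toFinset, le_antisymm ?_ ?_⟩
  · rw [Submodule.span_le]
    intro z hz
    rw [Set.Finite.coe_toFinset] at hz
    obtain ⟨γ, _, rfl⟩ := hz
    exact Submodule.subset_span ⟨γ, γ.2, rfl⟩
  · rw [Submodule.span_le]
    rintro z ⟨γ, hγ, rfl⟩
    rw [Set.Finite.coe_toFinset]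
    exact hle ⟨γ, hγ⟩

end Pool.Agent.K4H55.BI
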