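import Pool.Agent.K4H55.BI.Bes

/-!
Principal orders in the complex numbers and their Fourier series.
-/

set_option autoImplicit false

namespace Pool.Agent.K4H55.BI

open MeasureTheory Set Filter Topology

/-- the additive character `z ↦ exp(2πi (z/δ + conj (z/δ)))` of `ℂ` -/
noncomputable def ee (δ z : ℂ) : ℂ :=
  Complex.exp (2 * Real.pi * Complex.I * (z / δ + (starRingEnd ℂ) (z / δ)))

lemma ee_add (δ z w : ℂ) : ee δ (z + w) = ee δ z * ee δ w := by
  unfold ee
  rw [← Complex.exp_add, add_div, map_add]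
  congr 1
  ring

lemma ee_zero (δ : ℂ) : ee δ 0 = 1 := by
  unfold ee
  simp

lemma ee_norm (δ z : ℂ) : ‖ee δ z‖ = 1 := by
  unfold ee
  rw [Complex.add_conj, Complex.norm_exp]
  simp

lemma ee_ne (δ z : ℂ) : ee δ z ≠ 0 := by
  intro h
  have := ee_norm δ z
  rw [h, norm_zero] at this
  exact zero_ne_one this

lemma ee_neg (δ z : ℂ) : ee δ (-z) = (ee δ z)⁻¹ := by
  have h := ee_add δ z (-z)
  rw [add_neg_cancel, ee_zero] at h
  exact eq_inv_of_mul_eq_one_right h.symm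

/-- a principal order in `ℂ` -/
structure Ord (O : Type) [CommRing O] where
  ι : O →+* ℂ
  inj : Function.Injective ι
  nm : O → ℕ
  nm_eq : ∀ x, (nm x : ℝ) = ‖ι x‖ ^ 2
  card : ∀ x, x ≠ 0 → Nat.card (O ⧸ Ideal.span {x}) = nm x
  approx : ∃ B : ℕ, ∀ a b : O, b ≠ 0 → ∃ q r, r ≠ 0 ∧ nm r ≤ B ∧ nm (r * a - q * b) < nm b
  pid : IsPrincipalIdealRing O
  fin : Module.Finite ℤ O
  δ : ℂ
  δ0 : δ ≠ 0
  dual1 : ∀ x : O, ee δ (ι x) = 1
  dual2 : ∀ x y : O, y ≠ 0 → (∀ z, ee δ (ι (x * z) / ι y) = 1) → y ∣ x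
  summ : ∀ s : ℝ, 1 < s → Summable fun x : O => (nm x : ℝ) ^ (-s)

variable {O : Type} [CommRing O] (D : Ord O)

lemma Ord.nm_zero : D.nm 0 = 0 := by
  have := D.nm_eq 0
  rw [map_zero, norm_zero] at this
  have h : (D.nm 0 : ℝ) = 0 := by rw [this]; norm_num
  exact_mod_cast h

lemma Ord.nm_pos {x : O} (hx : x ≠ 0) : 0 < D.nm x := by
  have h1 : D.ι x ≠ 0 := fun h => hx (D.inj (by rw [h, map_zero]))
  have h2 := D.nm_eq x
  have h3 : (0 : ℝ) < D.nm x := by rw [h2]; positivity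
  exact_mod_cast h3

include D in
lemma Ord.countable : Countable O := by
  have := D.fin
  obtain ⟨n, f, hf⟩ := Module.Finite.exists_fin' ℤ O
  exact hf.countable

lemma Ord.nm_mul (x y : O) : D.nm (x * y) = D.nm x * D.nm y := by
  have h : (D.nm (x * y) : ℝ) = D.nm x * D.nm y := by
    rw [D.nm_eq, D.nm_eq, D.nm_eq, map_mul, norm_mul, mul_pow]
  exact_mod_cast h

lemma Ord.summ_pow (k : ℕ) (hk : 2 ≤ k) : Summable fun x : O => ((D.nm x : ℝ)⁻¹) ^ k := by
  have h := D.summ k (by exact_mod_cast hk)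
  refine h.congr fun x => ?_
  rw [Real.rpow_neg (by positivity), Real.rpow_natCast, inv_pow]

/-- coefficients of polynomial growth -/
structure Cff (a : O → ℂ) (C : ℝ) : Prop where
  zero : a 0 = 0
  bd : ∀ x, ‖a x‖ ≤ C * D.nm x

variable {D} {a : O → ℂ} {C : ℝ}

lemma Cff.C_nonneg (ha : Cff D a C) : 0 ≤ C := by
  have h1 := ha.bd 1
  have h2 : (0 : ℝ) < D.nm 1 := by
    rw [D.nm_eq, map_one, norm_one]; norm_num
  by_contra hcon
  push Not at hcon
  have := norm_nonneg (a 1)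
  nlinarith

/-- the term of the series -/
lemma term_le (ha : Cff D a C) (k : ℕ) {τ : ℝ} (hτ : 0 < τ) (x : O) (z : ℂ) :
    ‖a x * ((hb (D.nm x * τ) : ℝ) : ℂ) * ee D.δ z‖ ≤
      C * ((k + 1).factorial * (k + 1).factorial) * τ⁻¹ ^ (k + 2) * ((D.nm x : ℝ)⁻¹) ^ (k + 1) := by
  rw [norm_mul, norm_mul, ee_norm, mul_one, Complex.norm_real, Real.norm_eq_abs,
    abs_of_nonneg (hb_nonneg _)]
  by_cases hx : x = 0
  · subst hx
    rw [ha.zero, norm_zero, zero_mul]
    have := ha.C_nonneg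
    positivity
  · have hn : (0 : ℝ) < D.nm x := by exact_mod_cast D.nm_pos hx
    have h1 := hb_bound (k + 1) (y := D.nm x * τ) (by positivity)
    have h2 := ha.bd x
    have hC := ha.C_nonneg
    calc ‖a x‖ * hb (D.nm x * τ) ≤ (C * D.nm x) *
          (((k + 1).factorial : ℝ) * (k + 1).factorial * (D.nm x * τ)⁻¹ ^ (k + 1 + 1)) :=
          mul_le_mul h2 h1 (hb_nonneg _) (by positivity)
      _ = _ := by
          rw [mul_inv, mul_pow, pow_succ ((D.nm x : ℝ)⁻¹) (k + 1)]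
          field_simp

/-- the Fourier series -/
noncomputable def th (D : Ord O) (a : O → ℂ) (z : ℂ) (τ : ℝ) : ℂ :=
  ∑' x, a x * ((hb (D.nm x * τ) : ℝ) : ℂ) * ee D.δ (D.ι x * z)

lemma term_summable_norm (ha : Cff D a C) {τ : ℝ} (hτ : 0 < τ) (z : ℂ) :
    Summable fun x => ‖a x * ((hb (D.nm x * τ) : ℝ) : ℂ) * ee D.δ (D.ι x * z)‖ :=
  Summable.of_nonneg_of_le (fun x => norm_nonneg _) (fun x => term_le ha 1 hτ x _)
    ((D.summ_pow 2 le_rfl).mul_left _)

lemma term_summable (ha : Cff D a C) {τ : ℝ} (hτ : 0 < τ) (z : ℂ) :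
    Summable fun x => a x * ((hb (D.nm x * τ) : ℝ) : ℂ) * ee D.δ (D.ι x * z) :=
  (term_summable_norm ha hτ z).of_norm

lemma term_le' (ha : Cff D a C) : ∃ B : ℝ, 0 ≤ B ∧ ∀ τ : ℝ, 0 < τ → ∀ (x : O) (z : ℂ),
    ‖a x * ((hb (D.nm x * τ) : ℝ) : ℂ) * ee D.δ z‖ ≤ B * τ⁻¹ ^ 3 * ((D.nm x : ℝ)⁻¹) ^ 2 := by
  refine ⟨C * ((1 + 1).factorial * (1 + 1).factorial), ?_, fun τ hτ x z => term_le ha 1 hτ x z⟩
  have := ha.C_nonneg
  positivity

/-- decay -/
lemma th_le (ha : Cff D a C) (k : ℕ) : ∃ B : ℝ, 0 ≤ B ∧ ∀ z : ℂ, ∀ τ : ℝ, 0 < τ →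
    ‖th D a z τ‖ ≤ B * τ⁻¹ ^ (k + 3) := by
  refine ⟨∑' x : O, C * ((k + 1 + 1).factorial * (k + 1 + 1).factorial) *
    ((D.nm x : ℝ)⁻¹) ^ (k + 1 + 1), tsum_nonneg fun x => ?_, fun z τ hτ => ?_⟩
  · have := ha.C_nonneg
    positivity
  · unfold th
    have hs : Summable fun x : O => C * ((k + 1 + 1).factorial * (k + 1 + 1).factorial) *
        ((D.nm x : ℝ)⁻¹) ^ (k + 1 + 1) := (D.summ_pow (k + 1 + 1) (by omega)).mul_left _
    have h1 := tsum_of_norm_bounded (hs.mul_right (τ⁻¹ ^ (k + 3))).hasSum (fun x => by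
      refine (term_le ha (k + 1) hτ x (D.ι x * z)).trans (le_of_eq ?_)
      ring)
    rwa [tsum_mul_right] at h1

lemma th_periodic (z : ℂ) (y : O) (τ : ℝ) : th D a (z + D.ι y) τ = th D a z τ := by
  unfold th
  refine tsum_congr fun x => ?_
  rw [mul_add, ee_add, ← map_mul, D.dual1, mul_one]

lemma th_continuousOn (ha : Cff D a C) (z : ℂ) : ContinuousOn (th D a z) (Ioi 0) := by
  obtain ⟨B, hB, hle⟩ := term_le' ha
  intro τ hτ
  have hτ' : (0 : ℝ) < τ := hτ
  have hτ2 : 0 < τ / 2 := by positivity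
  have h1 : ContinuousOn (th D a z) (Ioi (τ / 2)) := by
    unfold th
    refine continuousOn_tsum (u := fun x => B * (τ / 2)⁻¹ ^ 3 * ((D.nm x : ℝ)⁻¹) ^ 2) ?_
      ((D.summ_pow 2 le_rfl).mul_left _) ?_
    · intro x
      by_cases hx : x = 0
      · subst hx
        simp only [ha.zero, zero_mul]
        exact continuousOn_const
      · have hn : (0 : ℝ) < D.nm x := by exact_mod_cast D.nm_pos hx
        refine ContinuousOn.mul (ContinuousOn.mul continuousOn_const ?_) continuousOn_const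
        refine Complex.continuous_ofReal.comp_continuousOn ?_
        refine hb_continuousOn.comp (by fun_prop) fun t ht => ?_
        have ht' : τ / 2 < t := ht
        have ht0 : 0 < t := hτ2.trans ht'
        exact mul_pos hn ht0
    · intro x t ht
      have ht' : τ / 2 < t := ht
      have ht0 : 0 < t := hτ2.trans ht'
      refine (hle t ht0 x _).trans ?_
      have h2 : t⁻¹ ≤ (τ / 2)⁻¹ := inv_anti₀ hτ2 ht'.le
      have h3 : t⁻¹ ^ 3 ≤ (τ / 2)⁻¹ ^ 3 := pow_le_pow_left₀ (inv_nonneg.2 ht0.le) h2 3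
      exact mul_le_mul_of_nonneg_right (mul_le_mul_of_nonneg_left h3 hB) (by positivity)
  have h2 : Ioi (τ / 2) ∈ 𝓝 τ := Ioi_mem_nhds (by linarith)
  exact (h1.continuousAt h2).continuousWithinAt

/-- the Mellin transform of the series -/
theorem th_mellin (ha : Cff D a C) {w : ℂ} (hw1 : 1 < w.re)
    (hws : Summable fun x => ‖a x‖ * (D.nm x : ℝ) ^ (-w.re)) :
    HasMellin (th D a 0) w (Complex.Gamma w * Complex.Gamma (w - 1) *
      ∑' x, a x * (D.nm x : ℂ) ^ (-w)) := by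
  have hcount : Countable O := D.countable
  have hbm := hasMellin_hb hw1
  -- the terms
  set F : O → ℝ → ℂ := fun x τ => (τ : ℂ) ^ (w - 1) • (a x * ((hb (D.nm x * τ) : ℝ) : ℂ)) with hF
  have hterm : ∀ x, HasMellin (fun τ => a x * ((hb (D.nm x * τ) : ℝ) : ℂ)) w
      (a x * ((D.nm x : ℂ) ^ (-w) * (Complex.Gamma w * Complex.Gamma (w - 1)))) := by
    intro x
    by_cases hx : x = 0
    · subst hx
      simp only [ha.zero, zero_mul]
      refine ⟨?_, ?_⟩
      · unfold MellinConvergent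
        simp
      · unfold mellin
        simp
    · have hn : (0 : ℝ) < D.nm x := by exact_mod_cast D.nm_pos hx
      have h1 : MellinConvergent (fun τ : ℝ => ((hb (D.nm x * τ) : ℝ) : ℂ)) w :=
        (MellinConvergent.comp_mul_left (f := fun y : ℝ => ((hb y : ℝ) : ℂ)) hn).2 hbm.1
      have h2 : mellin (fun τ : ℝ => ((hb (D.nm x * τ) : ℝ) : ℂ)) w =
          (D.nm x : ℂ) ^ (-w) * (Complex.Gamma w * Complex.Gamma (w - 1)) := by
        have := mellin_comp_mul_left (fun y : ℝ => ((hb y : ℝ) : ℂ)) w hn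
        rw [this, hbm.2, smul_eq_mul]
        simp
      refine ⟨?_, ?_⟩
      · have := h1.const_smul (a x)
        simpa only [smul_eq_mul] using this
      · have := mellin_const_smul (fun τ : ℝ => ((hb (D.nm x * τ) : ℝ) : ℂ)) w (a x)
        simp only [smul_eq_mul] at this
        rw [this, h2]
  have hint : ∀ x, Integrable (F x) (volume.restrict (Ioi 0)) := fun x => (hterm x).1
  -- the norms
  have hnorm : ∀ x, ∫ τ in Ioi (0 : ℝ), ‖F x τ‖ =
      ‖a x‖ * ((D.nm x : ℝ) ^ (-w.re)) * ∫ τ in Ioi (0 : ℝ), τ ^ (w.re - 1) * hb τ := by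
    intro x
    by_cases hx : x = 0
    · subst hx
      simp [hF, ha.zero]
    · have hn : (0 : ℝ) < D.nm x := by exact_mod_cast D.nm_pos hx
      have h1 : ∫ τ in Ioi (0 : ℝ), ‖F x τ‖ = ∫ τ in Ioi (0 : ℝ),
          (‖a x‖ * (D.nm x : ℝ) ^ (1 - w.re)) * ((fun s : ℝ => s ^ (w.re - 1) * hb s) (D.nm x * τ)) := by
        refine setIntegral_congr_fun measurableSet_Ioi fun τ hτ => ?_
        have hτ' : (0 : ℝ) < τ := hτ
        simp only [hF, smul_eq_mul]
        rw [norm_mul, norm_mul, Complex.norm_cpow_eq_rpow_re_of_pos hτ', Complex.norm_real,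
          Real.norm_eq_abs, abs_of_nonneg (hb_nonneg _), Real.mul_rpow hn.le hτ'.le]
        have h2 : (D.nm x : ℝ) ^ (1 - w.re) * (D.nm x : ℝ) ^ (w.re - 1) = 1 := by
          rw [← Real.rpow_add hn]
          simp
        simp only [Complex.sub_re, Complex.one_re]
        linear_combination (-‖a x‖ * τ ^ (w.re - 1) * hb (D.nm x * τ)) * h2
      have h3 := integral_comp_mul_left_Ioi (fun s : ℝ => s ^ (w.re - 1) * hb s) 0 hn
      rw [mul_zero, smul_eq_mul] at h3
      rw [h1, integral_const_mul, h3, ← mul_assoc]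
      congr 1
      rw [mul_assoc, ← Real.rpow_neg_one, ← Real.rpow_add hn]
      ring_nf
  have hsum : Summable fun x => ∫ τ in Ioi (0 : ℝ), ‖F x τ‖ := by
    simp only [hnorm]
    exact hws.mul_right _
  have hmain := hasSum_integral_of_summable_integral_norm hint hsum
  have hval : ∀ x, ∫ τ in Ioi (0 : ℝ), F x τ =
      a x * ((D.nm x : ℂ) ^ (-w) * (Complex.Gamma w * Complex.Gamma (w - 1))) :=
    fun x => (hterm x).2
  have hts : ∀ τ ∈ Ioi (0 : ℝ), ∑' x, F x τ = (τ : ℂ) ^ (w - 1) • th D a 0 τ := by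
    intro τ hτ
    have : ∀ x, F x τ = (τ : ℂ) ^ (w - 1) * (a x * ((hb (D.nm x * τ) : ℝ) : ℂ) *
        ee D.δ (D.ι x * 0)) := by
      intro x
      simp only [hF, smul_eq_mul, mul_zero, ee_zero, mul_one]
    simp only [this]
    rw [tsum_mul_left, smul_eq_mul]
    rfl
  refine ⟨?_, ?_⟩
  · unfold MellinConvergent
    rw [← integrableOn_congr_fun (f := fun τ => ∑' x, F x τ) hts measurableSet_Ioi]
    refine ⟨?_, ?_⟩
    · have h1 : ContinuousOn (fun τ : ℝ => (τ : ℂ) ^ (w - 1) * th D a 0 τ) (Ioi 0) := by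
        refine ContinuousOn.mul (fun τ hτ => ?_) (th_continuousOn ha 0)
        have hτ' : (0 : ℝ) < τ := hτ
        have h2 : ContinuousAt (fun τ : ℝ => (τ : ℂ) ^ (w - 1)) τ :=
          (continuousAt_cpow_const (Or.inl (by simpa using hτ'))).comp
            Complex.continuous_ofReal.continuousAt
        exact h2.continuousWithinAt
      exact (h1.congr hts).aestronglyMeasurable measurableSet_Ioi
    · have h1 : ∫⁻ τ in Ioi (0 : ℝ), ∑' x, ‖F x τ‖ₑ < ⊤ := by
        rw [lintegral_tsum fun x => (hint x).1.enorm]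
        have h2 : ∀ x, ∫⁻ τ in Ioi (0 : ℝ), ‖F x τ‖ₑ = ENNReal.ofReal (∫ τ in Ioi (0 : ℝ), ‖F x τ‖) :=
          fun x => (ofReal_integral_norm_eq_lintegral_enorm (hint x)).symm
        simp only [h2]
        rw [← ENNReal.ofReal_tsum_of_nonneg (fun x => integral_nonneg fun τ => norm_nonneg _) hsum]
        exact ENNReal.ofReal_lt_top
      refine lt_of_le_of_lt (lintegral_mono fun τ => ?_) h1
      exact enorm_tsum_le_tsum_enorm
  · unfold mellin
    rw [← setIntegral_congr_fun measurableSet_Ioi hts, ← hmain.tsum_eq]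
    simp only [hval]
    rw [← tsum_mul_left]
    refine tsum_congr fun x => ?_
    ring

end Pool.Agent.K4H55.BI
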